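import Pool.Agent.H84Spl.Outer

/-! # The half-tube spline made from a seed has nonzero outer flux -/

namespace Pool.Agent.H84Spl

open MvPolynomial

open Classical in
/-- the seed spline on the shell: `g` on the part `x_0 > 0` of the region, `0` elsewhere -/
noncomputable def seedSpline (d M N : ℕ) (g : (Fin (d + 1) → ℝ) → ℝ) : (Fin (d + 1) → ℝ) → ℝ :=
  fun x => if x ∈ (shellT (d + 1) M N).region ∧ 0 < x 0 then g x else 0

theorem seedSpline_nonpos {d M N : ℕ} {g : (Fin (d + 1) → ℝ) → ℝ} {x : Fin (d + 1) → ℝ}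
    (h : x 0 ≤ 0) : seedSpline d M N g x = 0 := by
  unfold seedSpline
  rw [if_neg]
  rintro ⟨_, h'⟩
  linarith

theorem seedSpline_tube {n d M N : ℕ} {g : (Fin (d + 1) → ℝ) → ℝ} (hg : SeedOK n d g)
    {x : Fin (d + 1) → ℝ} (h : ∃ i, i ≠ 0 ∧ 1 < |x i|) : seedSpline d M N g x = 0 := by
  unfold seedSpline
  split_ifs with h'
  · exact hg.tube x h
  · rfl

theorem exists_far {d M N : ℕ} (hM : 2 ≤ M) (hMN : M < N) {x : Fin (d + 1) → ℝ}
    (hx : x ∈ (shellT (d + 1) M N).region) (h0 : x 0 = 0) : ∃ i, i ≠ 0 ∧ 1 < |x i| := by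
  rw [shellT_region_eq (by omega) hMN] at hx
  obtain ⟨_, i, hi⟩ := hx
  have h2 : (2 : ℝ) ≤ M := by exact_mod_cast hM
  refine ⟨i, ?_, by linarith⟩
  rintro rfl
  rw [h0, abs_zero] at hi
  linarith

theorem seedSpline_nonneg {n d M N : ℕ} (hM : 2 ≤ M) (hMN : M < N)
    {g : (Fin (d + 1) → ℝ) → ℝ} (hg : SeedOK n d g) {x : Fin (d + 1) → ℝ}
    (hx : x ∈ (shellT (d + 1) M N).region) (h0 : 0 ≤ x 0) : seedSpline d M N g x = g x := by
  rcases h0.lt_or_eq with h | h
  · unfold seedSpline
    rw [if_pos ⟨hx, h⟩]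
  · have h1 := exists_far hM hMN hx h.symm
    rw [seedSpline_tube hg h1, hg.tube x h1]

theorem seedSpline_contDiffOn {n d M N : ℕ} (hM : 2 ≤ M) (hMN : M < N)
    {g : (Fin (d + 1) → ℝ) → ℝ} (hg : SeedOK n d g) :
    ContDiffOn ℝ ((2 * n - 1 : ℕ) : WithTop ℕ∞) (seedSpline d M N g)
      (shellT (d + 1) M N).region := by
  intro x hx
  have hc : ∀ i : Fin (d + 1), ContinuousAt (fun y : Fin (d + 1) → ℝ => y i) x :=
    fun i => (continuous_apply i).continuousAt
  rcases lt_trichotomy (x 0) 0 with h | h | h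
  · have h1 : ∀ᶠ y in nhds x, y 0 < 0 := (hc 0).eventually_lt continuousAt_const h
    have h2 : seedSpline d M N g =ᶠ[nhdsWithin x (shellT (d + 1) M N).region] fun _ => 0 := by
      filter_upwards [nhdsWithin_le_nhds h1] with y hy
      exact seedSpline_nonpos hy.le
    exact contDiffWithinAt_const.congr_of_eventuallyEq h2 (seedSpline_nonpos h.le)
  · obtain ⟨i, hi, hi1⟩ := exists_far hM hMN hx h
    have h1 : ∀ᶠ y in nhds x, 1 < |y i| :=
      continuousAt_const.eventually_lt (hc i).abs hi1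
    have h2 : seedSpline d M N g =ᶠ[nhdsWithin x (shellT (d + 1) M N).region] fun _ => 0 := by
      filter_upwards [nhdsWithin_le_nhds h1] with y hy
      exact seedSpline_tube hg ⟨i, hi, hy⟩
    exact contDiffWithinAt_const.congr_of_eventuallyEq h2 (seedSpline_nonpos h.le)
  · have h1 : ∀ᶠ y in nhds x, 0 < y 0 := continuousAt_const.eventually_lt (hc 0) h
    have h2 : seedSpline d M N g =ᶠ[nhdsWithin x (shellT (d + 1) M N).region] g := by
      filter_upwards [nhdsWithin_le_nhds h1, self_mem_nhdsWithin] with y hy hyr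
      exact seedSpline_nonneg hM hMN hg hyr hy.le
    exact hg.smooth.contDiffAt.contDiffWithinAt.congr_of_eventuallyEq h2
      (seedSpline_nonneg hM hMN hg hx h.le)

theorem seedSpline_mem {n d M N : ℕ} (hM : 2 ≤ M) (hMN : M < N)
    {g : (Fin (d + 1) → ℝ) → ℝ} (hg : SeedOK n d g) :
    seedSpline d M N g ∈ (shellT (d + 1) M N).splineSpace (2 * n - 1) (Kdeg n d) := by
  refine ⟨seedSpline_contDiffOn hM hMN hg, ?_, ?_⟩
  · intro x hx
    unfold seedSpline
    rw [if_neg]
    exact fun h => hx h.1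
  · intro σ hσ
    obtain ⟨z, hz, π, rfl⟩ := mem_shellT_cells.1 hσ
    rw [convexHull_ksimp]
    obtain ⟨ε, hall, _⟩ := hg.flux
    obtain ⟨P, hP, hPg, _⟩ := hall z π
    by_cases h0 : 0 ≤ z 0
    · refine ⟨P, hP, fun x hx => ?_⟩
      rw [seedSpline_nonneg hM hMN hg (kcell_subset_region hz π hx), hPg x hx]
      have h1 := (hx.1 0).1
      have h2 : (0 : ℝ) ≤ z 0 := by exact_mod_cast h0
      linarith
    · refine ⟨0, by simp, fun x hx => ?_⟩
      rw [seedSpline_nonpos, map_zero]
      have h1 := (hx.1 0).2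
      have h2 : (z 0 : ℝ) ≤ -1 := by
        have : z 0 ≤ -1 := by omega
        exact_mod_cast this
      linarith

/-- The cell polynomial vanishes below the hyperplane `x_0 = 0` and away from the tube. -/
theorem fam_eq_zero {n d M N : ℕ}
    {g : (Fin (d + 1) → ℝ) → ℝ} (hg : SeedOK n d g)
    {p : (Fin (d + 1) → ℤ) → Equiv.Perm (Fin (d + 1)) → MvPolynomial (Fin (d + 1)) ℝ}
    (hp : IsFam (d + 1) M N (Kdeg n d) (seedSpline d M N g) p)
    {z : Fin (d + 1) → ℤ} (hz : z ∈ shell (d + 1) M N) (π : Equiv.Perm (Fin (d + 1)))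
    (h : z 0 < 0 ∨ ∃ i, i ≠ 0 ∧ (2 ≤ z i ∨ z i ≤ -3)) : p z π = 0 := by
  refine eq_of_eqOn_kcell z π _ _ fun x hx => ?_
  rw [← (hp z hz π).2 x hx, map_zero]
  rcases h with h | ⟨i, hi, h | h⟩
  · refine seedSpline_nonpos ?_
    have h1 := (hx.1 0).2
    have h2 : (z 0 : ℝ) ≤ -1 := by
      have : z 0 ≤ -1 := by omega
      exact_mod_cast this
    linarith
  · refine seedSpline_tube hg ⟨i, hi, ?_⟩
    have h1 := (hx.1 i).1
    have h2 : (2 : ℝ) ≤ z i := by exact_mod_cast h
    exact lt_of_lt_of_le (by linarith) (le_abs_self _)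
  · refine seedSpline_tube hg ⟨i, hi, ?_⟩
    have h1 := (hx.1 i).2
    have h2 : (z i : ℝ) ≤ -3 := by exact_mod_cast h
    exact lt_of_lt_of_le (by linarith) (neg_le_abs _)

theorem uvec_apply {s : ℕ} (i j : Fin s) : uvec i j = if j = i then 1 else 0 := by
  unfold uvec
  rw [Pi.single_apply]

theorem outer_seedSpline {n d M N : ℕ} (hM : 2 ≤ M) (hMN : M < N)
    {g : (Fin (d + 1) → ℝ) → ℝ} (hg : SeedOK n d g)
    {p : (Fin (d + 1) → ℤ) → Equiv.Perm (Fin (d + 1)) → MvPolynomial (Fin (d + 1)) ℝ}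
    (hp : IsFam (d + 1) M N (Kdeg n d) (seedSpline d M N g) p) : outer n d M N p ≠ 0 := by
  classical
  obtain ⟨ε, hall, hlay⟩ := hg.flux
  -- on cells with `z 0 ≥ 0` the cell polynomial is that of `g`
  have hfam : ∀ z ∈ shell (d + 1) M N, 0 ≤ z 0 → ∀ (π : Equiv.Perm (Fin (d + 1)))
      (P : MvPolynomial (Fin (d + 1)) ℝ), (∀ x ∈ kcell z π, g x = eval x P) → p z π = P := by
    intro z hz h0 π P hP
    refine eq_of_eqOn_kcell z π _ _ fun x hx => ?_
    rw [← (hp z hz π).2 x hx, ← hP x hx]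
    refine seedSpline_nonneg hM hMN hg (kcell_subset_region hz π hx) ?_
    have h1 := (hx.1 0).1
    have h2 : (0 : ℝ) ≤ z 0 := by exact_mod_cast h0
    linarith
  -- second term
  have hsec : ∀ z ∈ shell (d + 1) M N, ∀ π : Equiv.Perm (Fin (d + 1)),
      (if z - uvec (π (Fin.last d)) ∈ box (d + 1) N then (0 : ℝ)
        else psi n d (π (Fin.last d)) (p z π)) = 0 := by
    intro z hz π
    split_ifs with h
    · rfl
    · have hzs := mem_shell_iff.1 hz
      rw [mem_box_iff] at h
      push Not at h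
      obtain ⟨i, hi⟩ := h
      have h1 := hzs.1 i
      simp only [Pi.sub_apply, uvec_apply] at hi
      have h2 : i = π (Fin.last d) := by
        by_contra hne
        rw [if_neg hne] at hi
        have := hi (by omega)
        omega
      rw [if_pos h2] at hi
      have h3 : z i = -(N : ℤ) := by
        by_contra hne
        have := hi (by omega)
        omega
      rw [fam_eq_zero hg hp hz π, psi_zero]
      by_cases hi0 : i = 0
      · left
        rw [← hi0]
        omega
      · right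
        exact ⟨i, hi0, Or.inr (by omega)⟩
  have hfst : ∀ z ∈ shell (d + 1) M N, ∀ π : Equiv.Perm (Fin (d + 1)),
      0 ≤ ε * (if z + uvec (π 0) ∈ box (d + 1) N then (0 : ℝ)
        else psi n d (π 0) (p z π)) := by
    intro z hz π
    split_ifs with h
    · simp
    · have hzs := mem_shell_iff.1 hz
      rw [mem_box_iff] at h
      push Not at h
      obtain ⟨i, hi⟩ := h
      have h1 := hzs.1 i
      simp only [Pi.add_apply, uvec_apply] at hi
      have h2 : i = π 0 := by
        by_contra hne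
        rw [if_neg hne] at hi
        have := hi (by omega)
        omega
      rw [if_pos h2] at hi
      have h3 := hi (by omega)
      by_cases hi0 : i = 0
      · obtain ⟨P, hP, hPg, hps⟩ := hall z π
        have h4 : z 0 = N - 1 := by
          rw [← hi0]
          omega
        rw [hfam z hz (by omega) π P hPg, ← h2, hi0]
        exact hps
      · rw [fam_eq_zero hg hp hz π (Or.inr ⟨i, hi0, Or.inl (by omega)⟩), psi_zero]
        simp
  have hpos : 0 < ε * outer n d M N p := by
    unfold outer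
    rw [Finset.mul_sum]
    have hterm : ∀ z ∈ shell (d + 1) M N, ∀ π : Equiv.Perm (Fin (d + 1)),
        0 ≤ ε * ((if z + uvec (π 0) ∈ box (d + 1) N then 0 else psi n d (π 0) (p z π)) -
          (if z - uvec (π (Fin.last d)) ∈ box (d + 1) N then 0
            else psi n d (π (Fin.last d)) (p z π))) := by
      intro z hz π
      rw [hsec z hz π, sub_zero]
      exact hfst z hz π
    obtain ⟨z, π, P, hz0, hzi, hπ, hP, hPg, hlt⟩ := hlay (N - 1)
    have hz : z ∈ shell (d + 1) M N := by
      rw [mem_shell_iff]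
      refine ⟨fun i => ?_, 0, Or.inr (by omega)⟩
      by_cases hi : i = 0
      · rw [hi, hz0]
        omega
      · rw [hzi i hi]
        omega
    refine Finset.sum_pos' (fun y hy => ?_) ⟨z, hz, ?_⟩
    · rw [Finset.mul_sum]
      exact Finset.sum_nonneg fun τ _ => hterm y hy τ
    · rw [Finset.mul_sum]
      refine Finset.sum_pos' (fun τ _ => hterm z hz τ) ⟨π, Finset.mem_univ _, ?_⟩
      rw [hsec z hz π, sub_zero, if_neg, hfam z hz (by omega) π P hPg, hπ]
      · exact hlt
      · rw [mem_box_iff]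
        intro h
        have := (h 0).2
        simp only [Pi.add_apply, uvec_apply, hπ, if_true] at this
        omega
  intro h
  rw [h, mul_zero] at hpos
  exact lt_irrefl _ hpos

end Pool.Agent.H84Spl
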