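import Pool.Agent.H84Spl.Local
import Pool.Agent.H84Spl.SeedF

/-! # From a seed to the non-existence of local spanning families -/

namespace Pool.Agent.H84Spl

open MvPolynomial

theorem no_local_span {n d : ℕ} (hn : 1 ≤ n) {g : (Fin (d + 1) → ℝ) → ℝ} (hg : SeedOK n d g)
    (m : ℕ) : ∃ T : Triang (d + 1), (∃ M N : ℕ, 0 < M ∧ M < N ∧
        T.region =
        {x : Fin (d + 1) → ℝ | (∀ i, |x i| ≤ (N : ℝ)) ∧ ∃ i, (M : ℝ) ≤ |x i|}) ∧
      Submodule.span ℝ {f | f ∈ T.splineSpace (2 * n - 1) (Kdeg n d) ∧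
        T.LocallySupported m f} ≠ T.splineSpace (2 * n - 1) (Kdeg n d) := by
  refine ⟨shellT (d + 1) 2 (2 * m + 5), ⟨2, 2 * m + 5, by norm_num, by omega,
    shellT_region_eq (by norm_num) (by omega)⟩, fun h => ?_⟩
  have hmem := seedSpline_mem (n := n) (d := d) (M := 2) (N := 2 * m + 5) le_rfl (by omega) hg
  obtain ⟨p, hp⟩ := exists_fam hmem
  refine outer_seedSpline (n := n) (d := d) (M := 2) (N := 2 * m + 5) le_rfl (by omega) hg hp ?_
  refine outer_span (m := m) hn (by omega) ?_ hp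
  rw [h]
  exact hmem

theorem no_local_basis_of_span {s r k m : ℕ} {T : Triang s}
    (h : Submodule.span ℝ {f | f ∈ T.splineSpace r k ∧ T.LocallySupported m f} ≠
      T.splineSpace r k) : ¬ T.HasLocalBasis r k m := by
  rintro ⟨ι, B, hB⟩
  refine h (le_antisymm (Submodule.span_le.2 fun f hf => hf.1) fun f hf => ?_)
  have h1 : (⟨f, hf⟩ : T.splineSpace r k) ∈ Submodule.span ℝ (Set.range B) := by
    rw [B.span_eq]; trivial
  have h2 : (T.splineSpace r k).subtype ⟨f, hf⟩ ∈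
      (Submodule.span ℝ (Set.range B)).map (T.splineSpace r k).subtype :=
    Submodule.mem_map_of_mem h1
  rw [Submodule.map_span] at h2
  refine Submodule.span_mono ?_ h2
  rintro _ ⟨_, ⟨i, rfl⟩, rfl⟩
  exact ⟨(B i).2, hB i⟩

end Pool.Agent.H84Spl
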