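import Pool.Agent.H84Spl.Def

/-! # The convex hull of a Kuhn simplex is the Kuhn cell -/

namespace Pool.Agent.H84Spl

theorem conv_sum_aux (u : ℕ → ℝ) (k : ℕ) (m : ℕ) :
    ∑ j ∈ Finset.range (k + 1 + m), (u j - u (j + 1)) * (if k < j then 1 else 0) =
      u (k + 1) - u (k + 1 + m) := by
  induction m with
  | zero =>
    rw [Nat.add_zero, sub_self]
    refine Finset.sum_eq_zero fun j hj => ?_
    rw [if_neg (by have := Finset.mem_range.1 hj; omega), mul_zero]
  | succ m ih =>
    rw [← Nat.add_assoc, Finset.sum_range_succ, ih, if_pos (by omega)]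
    ring

theorem convexHull_ksimp {s : ℕ} (z : Fin s → ℤ) (π : Equiv.Perm (Fin s)) :
    convexHull ℝ (ksimp z π : Set (Fin s → ℝ)) = kcell z π := by
  classical
  apply Set.Subset.antisymm
  · apply convexHull_min
    · intro x hx
      have hx' : x ∈ ksimp z π := hx
      unfold ksimp at hx'
      rw [Finset.mem_image] at hx'
      obtain ⟨j, _, rfl⟩ := hx'
      constructor
      · intro i
        unfold kvert
        split_ifs <;> constructor <;> linarith
      · intro a b hab
        unfold kvert
        simp only [Equiv.symm_apply_apply]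
        have hab' : (a : ℕ) ≤ b := hab
        split_ifs with h1 h2 h2
        · linarith
        · omega
        · linarith
        · linarith
    · intro x hx y hy p q hp hq hpq
      constructor
      · intro i
        obtain ⟨h1, h2⟩ := hx.1 i
        obtain ⟨h3, h4⟩ := hy.1 i
        simp only [Pi.add_apply, Pi.smul_apply, smul_eq_mul]
        have hq' : q = 1 - p := by linarith
        subst hq'
        constructor
        · nlinarith [mul_le_mul_of_nonneg_left h1 hp, mul_le_mul_of_nonneg_left h3 hq]
        · nlinarith [mul_le_mul_of_nonneg_left h2 hp, mul_le_mul_of_nonneg_left h4 hq]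
      · intro a b hab
        have h1 := hx.2 a b hab
        have h2 := hy.2 a b hab
        simp only [Pi.add_apply, Pi.smul_apply, smul_eq_mul]
        have hq' : q = 1 - p := by linarith
        subst hq'
        nlinarith [mul_le_mul_of_nonneg_left h1 hp, mul_le_mul_of_nonneg_left h2 hq]
  · intro x hx
    obtain ⟨hb, hmono⟩ := hx
    set u : ℕ → ℝ := fun j =>
      if j = 0 then 1 else if h : j - 1 < s then x (π ⟨j - 1, h⟩) - z (π ⟨j - 1, h⟩) else 0 with hu
    have hu0 : u 0 = 1 := by simp [hu]
    have hus : ∀ j (h : j < s), u (j + 1) = x (π ⟨j, h⟩) - z (π ⟨j, h⟩) := by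
      intro j h
      simp only [hu]
      rw [if_neg (by omega)]
      rw [dif_pos (show j + 1 - 1 < s by omega)]
      rfl
    have hul : ∀ j, s ≤ j → u (j + 1) = 0 := by
      intro j h
      simp only [hu]
      rw [if_neg (by omega), dif_neg (by omega)]
    have hanti : ∀ j, u (j + 1) ≤ u j := by
      intro j
      rcases Nat.eq_zero_or_pos j with rfl | hj
      · rw [hu0]
        by_cases h : 0 < s
        · rw [hus 0 h]
          linarith [(hb (π ⟨0, h⟩)).2]
        · rw [hul 0 (by omega)]; norm_num
      · obtain ⟨j, rfl⟩ : ∃ i, j = i + 1 := ⟨j - 1, by omega⟩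
        by_cases h : j + 1 < s
        · rw [hus (j + 1) h, hus j (by omega)]
          exact hmono _ _ (by simp)
        · rw [hul (j + 1) (by omega)]
          by_cases h' : j < s
          · rw [hus j h']
            linarith [(hb (π ⟨j, h'⟩)).1]
          · rw [hul j (by omega)]
    have hsum1 : ∑ j ∈ Finset.range (s + 1), (u j - u (j + 1)) = 1 := by
      rw [Finset.sum_range_sub', hu0, hul s le_rfl, sub_zero]
    have hxeq : x = ∑ j ∈ Finset.range (s + 1), (u j - u (j + 1)) • kvert z π j := by
      funext i
      rw [Finset.sum_apply]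
      simp only [Pi.smul_apply, smul_eq_mul, kvert, mul_add]
      rw [Finset.sum_add_distrib, ← Finset.sum_mul, hsum1, one_mul]
      set k : ℕ := (π.symm i : ℕ) with hk
      have hks : k < s := (π.symm i).2
      have := conv_sum_aux u k (s - k)
      rw [show k + 1 + (s - k) = s + 1 by omega, hul s le_rfl, sub_zero] at this
      rw [this, hus k hks]
      have : π ⟨k, hks⟩ = i := by
        rw [show (⟨k, hks⟩ : Fin s) = π.symm i from rfl, Equiv.apply_symm_apply]
      rw [this]
      ring
    rw [hxeq]
    refine (convex_convexHull ℝ _).sum_mem (fun j _ => by linarith [hanti j]) hsum1 ?_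
    intro j hj
    apply subset_convexHull
    show kvert z π j ∈ ksimp z π
    unfold ksimp
    exact Finset.mem_image_of_mem _ hj

end Pool.Agent.H84Spl
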