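import Pool.Agent.H84Spl.PairB

/-! # The pairing of `L_1 - L_0` with a polynomial free of `X_1` -/

namespace Pool.Agent.H84Spl

open MvPolynomial

/-- The exponent vector of a term of the law. -/
noncomputable def lexp (n d : ℕ) (a : Fin (d + 2)) (m : Fin (d + 2) → ℕ) : Fin (d + 2) →₀ ℕ :=
  Finsupp.equivFunOnFinite.symm (fun l => if l = a then 2 * m l else 2 * n + 2 * m l)

/-- The coefficient of a term of the law. -/
noncomputable def lcof (n d : ℕ) (a : Fin (d + 2)) (m : Fin (d + 2) → ℕ) : ℝ :=
  ∏ l : Fin (d + 2), if l = a then km n (m l) else kp n (m l)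

theorem lterm_eq (n d : ℕ) (a : Fin (d + 2)) (m : Fin (d + 2) → ℕ) :
    (∏ l : Fin (d + 2), if l = a then (C (km n (m l)) * X l ^ (2 * m l) :
      MvPolynomial (Fin (d + 2)) ℝ)
      else C (kp n (m l)) * X l ^ (2 * n + 2 * m l)) = monomial (lexp n d a m) (lcof n d a m) := by
  rw [MvPolynomial.monomial_eq, Finsupp.prod_fintype _ _ (fun i => pow_zero _)]
  unfold lcof lexp
  rw [map_prod, ← Finset.prod_mul_distrib]
  refine Finset.prod_congr rfl (fun l _ => ?_)
  by_cases h : l = a
  · simp [h]
  · simp [h]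

theorem coeff_eq_zero_of_notMem {d : ℕ} {T : MvPolynomial (Fin (d + 2)) ℝ} {i : Fin (d + 2)}
    (hT : i ∉ T.vars) (e : Fin (d + 2) →₀ ℕ) (he : e i ≠ 0) : coeff e T = 0 := by
  by_contra h
  apply hT
  rw [MvPolynomial.mem_vars_iff_mem_support]
  exact ⟨e, MvPolynomial.mem_support_iff.2 h, Finsupp.mem_support_iff.2 he⟩

theorem pair_L_free (n d : ℕ) (hn : 1 ≤ n) (T : MvPolynomial (Fin (d + 2)) ℝ)
    (hT : (1 : Fin (d + 2)) ∉ T.vars) :
    pair (Lpoly n d 1 - Lpoly n d 0) T =
      ∑ m ∈ (Finset.piAntidiag (Finset.univ : Finset (Fin (d + 2))) (n - 1)).filter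
          (fun m => m 1 = 0),
        ((n - 1).factorial : ℝ) * (∏ l ∈ Finset.univ.erase (1 : Fin (d + 2)),
          kp n (m l) * ((2 * n + 2 * m l).factorial : ℝ)) *
        coeff (Finsupp.equivFunOnFinite.symm
          (fun l => if l = 1 then 0 else 2 * n + 2 * m l)) T := by
  have h10 : (1 : Fin (d + 2)) ≠ 0 := by
    intro h
    have := congrArg Fin.val h
    simp at this
  have hL0 : pair (Lpoly n d 0) T = 0 := by
    unfold Lpoly
    rw [pair_sum_left]
    refine Finset.sum_eq_zero (fun m _ => ?_)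
    rw [lterm_eq, pair_monomial_left, coeff_eq_zero_of_notMem hT _ ?_, mul_zero]
    unfold lexp
    simp only [Finsupp.equivFunOnFinite_symm_apply_apply, if_neg h10]
    omega
  rw [pair_sub_left, hL0, sub_zero]
  unfold Lpoly
  rw [pair_sum_left, Finset.sum_filter]
  refine Finset.sum_congr rfl (fun m _ => ?_)
  rw [lterm_eq, pair_monomial_left]
  by_cases hm : m 1 = 0
  · rw [if_pos hm]
    have e1 : lexp n d 1 m = Finsupp.equivFunOnFinite.symm
        (fun l => if l = 1 then 0 else 2 * n + 2 * m l) := by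
      unfold lexp
      congr 1
      funext l
      by_cases hl : l = 1
      · subst hl
        simp [hm]
      · simp [hl]
    have e2 : lcof n d 1 m * efac (lexp n d 1 m) =
        ((n - 1).factorial : ℝ) * (∏ l ∈ Finset.univ.erase (1 : Fin (d + 2)),
          kp n (m l) * ((2 * n + 2 * m l).factorial : ℝ)) := by
      unfold lcof efac lexp
      rw [← Finset.prod_mul_distrib, ← Finset.mul_prod_erase Finset.univ _ (Finset.mem_univ 1)]
      congr 1
      · simp only [Finsupp.equivFunOnFinite_symm_apply_apply, if_true, hm]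
        unfold km
        rw [if_pos (by omega)]
        simp
      · refine Finset.prod_congr rfl (fun l hl => ?_)
        have hl' : l ≠ 1 := (Finset.mem_erase.1 hl).1
        simp only [Finsupp.equivFunOnFinite_symm_apply_apply, if_neg hl']
    rw [e2, e1]
  · rw [if_neg hm, coeff_eq_zero_of_notMem hT _ ?_, mul_zero]
    unfold lexp
    simp only [Finsupp.equivFunOnFinite_symm_apply_apply, if_true]
    omega

end Pool.Agent.H84Spl
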