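import Pool.Agent.H84Spl.VDef
import Pool.Agent.H84Spl.PosF

/-! # The odd cycle for `n = 1` -/

namespace Pool.Agent.H84Spl

open MvPolynomial

/-- The vertices of the cycle, indexed cyclically. -/
def wvt (d : ℕ) (k : Fin (d + 1)) : Fin (d + 2) := vtx d d (k : ℕ)

theorem wvt_val (d : ℕ) (k : Fin (d + 1)) :
    ((wvt d k : Fin (d + 2)) : ℕ) = if (k : ℕ) = 0 then 0 else (k : ℕ) + 1 := by
  have hk := k.2
  unfold wvt vtx
  by_cases h : (k : ℕ) = 0
  · simp [h]
  · have h2 : ¬ ((k : ℕ) = 0 ∨ (k : ℕ) = d + 1) := by omega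
    rw [if_neg h2, if_neg h]
    simp only [Fin.ofNat]
    exact Nat.mod_eq_of_lt (by omega)

theorem wvt_inj (d : ℕ) : Function.Injective (wvt d) := by
  intro a b h
  have h1 := wvt_val d a
  have h2 := wvt_val d b
  rw [h] at h1
  apply Fin.ext
  rw [h1] at h2
  split_ifs at h2 <;> omega

theorem wvt_ne_one (d : ℕ) (k : Fin (d + 1)) : wvt d k ≠ 1 := by
  intro h
  have h1 := wvt_val d k
  rw [h] at h1
  have h2 : (((1 : Fin (d + 2)) : Fin (d + 2)) : ℕ) = 1 := by
    simp
  rw [h2] at h1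
  split_ifs at h1 <;> omega

theorem wvt_surj (d : ℕ) (l : Fin (d + 2)) (hl : l ≠ 1) : ∃ k, wvt d k = l := by
  have hl2 := l.2
  by_cases h : (l : ℕ) = 0
  · refine ⟨⟨0, by omega⟩, Fin.ext ?_⟩
    rw [wvt_val]
    simp [h]
  · have h1 : (l : ℕ) ≠ 1 := by
      intro h1
      apply hl
      apply Fin.ext
      rw [h1]
      simp
    refine ⟨⟨(l : ℕ) - 1, by omega⟩, Fin.ext ?_⟩
    rw [wvt_val]
    have : ¬ ((l : ℕ) - 1 = 0) := by omega
    simp only [this, if_false]
    omega

theorem cyc_eq (d : ℕ) : cyc 1 d d =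
    ∏ j : Fin (d + 1), (X (wvt d (j + 1)) - X (wvt d j) : MvPolynomial (Fin (d + 2)) ℝ) ^ 2 := by
  unfold cyc
  rw [Finset.prod_range]
  refine Finset.prod_congr rfl fun j _ => ?_
  have h1 : vtx d d ((j : ℕ) + 1) = wvt d (j + 1) := by
    unfold wvt
    by_cases hj : (j : ℕ) = d
    · have : ((j + 1 : Fin (d + 1)) : ℕ) = 0 := by
        rw [Fin.val_add]
        simp [hj]
      rw [this, hj]
      simp [vtx]
    · have : ((j + 1 : Fin (d + 1)) : ℕ) = (j : ℕ) + 1 := by
        have := j.2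
        rw [Fin.val_add]
        have h3 : ((1 : Fin (d + 1)) : ℕ) = 1 % (d + 1) := rfl
        rw [h3, Nat.add_mod_mod, Nat.mod_eq_of_lt (by omega)]
      rw [this]
  rw [h1]
  rfl

/-- The coefficients of the square of a difference. -/
noncomputable def cf (t : Fin 3) : ℝ := if t = 1 then -2 else 1

theorem sq_eq (d : ℕ) (a b : Fin (d + 2)) :
    (X a - X b : MvPolynomial (Fin (d + 2)) ℝ) ^ 2 =
      ∑ t : Fin 3, monomial (Finsupp.single a (2 - (t : ℕ)) + Finsupp.single b (t : ℕ)) (cf t) := by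
  have hm : ∀ (i j : ℕ) (c : ℝ), (monomial (Finsupp.single a i + Finsupp.single b j) c :
      MvPolynomial (Fin (d + 2)) ℝ) = C c * X a ^ i * X b ^ j := by
    intro i j c
    rw [X_pow_eq_monomial, X_pow_eq_monomial, C_mul_monomial, monomial_mul]
    simp
  have hC : (C (2 : ℝ) : MvPolynomial (Fin (d + 2)) ℝ) = 2 := map_ofNat C 2
  rw [Fin.sum_univ_three, hm, hm, hm]
  simp only [cf]
  simp [hC]
  ring

theorem prod_monomial {ι σ : Type} (s : Finset ι) (e : ι → σ →₀ ℕ) (c : ι → ℝ) :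
    ∏ i ∈ s, (monomial (e i) (c i) : MvPolynomial σ ℝ) =
      monomial (∑ i ∈ s, e i) (∏ i ∈ s, c i) := by
  classical
  induction s using Finset.induction_on with
  | empty => simp
  | insert a s ha ih =>
    rw [Finset.prod_insert ha, Finset.sum_insert ha, Finset.prod_insert ha, ih, monomial_mul]

/-- The exponent vector of a choice of terms. -/
noncomputable def ev (d : ℕ) (t : Fin (d + 1) → Fin 3) : Fin (d + 2) →₀ ℕ :=
  ∑ j, (Finsupp.single (wvt d (j + 1)) (2 - (t j : ℕ)) + Finsupp.single (wvt d j) (t j : ℕ))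

theorem ev_apply (d : ℕ) (t : Fin (d + 1) → Fin 3) (i : Fin (d + 1)) :
    ev d t (wvt d (i + 1)) = (2 - (t i : ℕ)) + (t (i + 1) : ℕ) := by
  classical
  unfold ev
  rw [Finset.sum_add_distrib, Finsupp.add_apply, Finsupp.finsetSum_apply,
    Finsupp.finsetSum_apply]
  congr 1
  · rw [Finset.sum_eq_single i]
    · simp
    · intro j _ hj
      rw [Finsupp.single_apply, if_neg]
      intro h
      exact hj (add_right_cancel (wvt_inj d h))
    · intro h; exact absurd (Finset.mem_univ i) h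
  · rw [Finset.sum_eq_single (i + 1)]
    · simp
    · intro j _ hj
      rw [Finsupp.single_apply, if_neg]
      intro h
      exact hj (wvt_inj d h)
    · intro h; exact absurd (Finset.mem_univ (i + 1)) h

theorem ev_one (d : ℕ) (t : Fin (d + 1) → Fin 3) : ev d t 1 = 0 := by
  classical
  unfold ev
  rw [Finsupp.finsetSum_apply]
  refine Finset.sum_eq_zero fun j _ => ?_
  rw [Finsupp.add_apply, Finsupp.single_apply, Finsupp.single_apply, if_neg (wvt_ne_one d _),
    if_neg (wvt_ne_one d _), add_zero]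

theorem ev_eq_iff (d : ℕ) (t : Fin (d + 1) → Fin 3) :
    ev d t = Finsupp.equivFunOnFinite.symm (fun l : Fin (d + 2) => if l = 1 then 0 else 2) ↔
      ∃ a, t = fun _ => a := by
  constructor
  · intro h
    have hstep : ∀ i, t (i + 1) = t i := by
      intro i
      have h1 := ev_apply d t i
      rw [h] at h1
      simp only [Finsupp.equivFunOnFinite_symm_apply_apply, if_neg (wvt_ne_one d _)] at h1
      have h2 := (t i).2
      apply Fin.ext
      omega
    have hall : ∀ (n : ℕ) (hn : n < d + 1), t ⟨n, hn⟩ = t 0 := by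
      intro n
      induction n with
      | zero => intro hn; rfl
      | succ n ih =>
        intro hn
        rw [← ih (by omega), ← hstep ⟨n, by omega⟩]
        congr 1
        apply Fin.ext
        rw [Fin.val_add]
        have h3 : ((1 : Fin (d + 1)) : ℕ) = 1 % (d + 1) := rfl
        rw [h3, Nat.add_mod_mod, Nat.mod_eq_of_lt (by simpa using hn)]
    exact ⟨t 0, funext fun j => hall j j.2⟩
  · rintro ⟨a, rfl⟩
    ext l
    by_cases hl : l = 1
    · rw [hl, ev_one]; simp
    · obtain ⟨k, hk⟩ := wvt_surj d l hl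
      have h1 := ev_apply d (fun _ => a) (k - 1)
      rw [sub_add_cancel, hk] at h1
      rw [h1]
      have := a.2
      simp only [Finsupp.equivFunOnFinite_symm_apply_apply, if_neg hl]
      omega

theorem coeff_cyc (d : ℕ) :
    coeff (Finsupp.equivFunOnFinite.symm (fun l : Fin (d + 2) => if l = 1 then 0 else 2))
      (cyc 1 d d) = 2 + (-2 : ℝ) ^ (d + 1) := by
  classical
  rw [cyc_eq]
  have h1 : ∏ j : Fin (d + 1), (X (wvt d (j + 1)) - X (wvt d j) : MvPolynomial (Fin (d + 2)) ℝ) ^ 2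
      = ∑ t : Fin (d + 1) → Fin 3, monomial (ev d t) (∏ j, cf (t j)) := by
    simp_rw [sq_eq]
    rw [Finset.prod_univ_sum]
    rw [Fintype.piFinset_univ]
    refine Finset.sum_congr rfl fun t _ => ?_
    rw [prod_monomial]
    rfl
  rw [h1, coeff_sum]
  simp only [coeff_monomial]
  have h2 : ∀ t : Fin (d + 1) → Fin 3, t ∉ (Finset.univ.image fun (a : Fin 3) =>
      (fun _ => a : Fin (d + 1) → Fin 3)) →
      (if ev d t = Finsupp.equivFunOnFinite.symm (fun l : Fin (d + 2) => if l = 1 then 0 else 2)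
        then ∏ j, cf (t j) else 0) = 0 := by
    intro t ht
    rw [if_neg]
    intro h
    obtain ⟨a, ha⟩ := (ev_eq_iff d t).1 h
    exact ht (Finset.mem_image.2 ⟨a, Finset.mem_univ _, ha.symm⟩)
  rw [← Finset.sum_subset (Finset.subset_univ (Finset.univ.image fun (a : Fin 3) =>
      (fun _ => a : Fin (d + 1) → Fin 3))) (fun t _ ht => h2 t ht)]
  rw [Finset.sum_image]
  · have h3 : ∀ a : Fin 3, (if ev d (fun _ => a) =
        Finsupp.equivFunOnFinite.symm (fun l : Fin (d + 2) => if l = 1 then 0 else 2)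
        then ∏ _j : Fin (d + 1), cf a else 0) = cf a ^ (d + 1) := by
      intro a
      rw [if_pos ((ev_eq_iff d _).2 ⟨a, rfl⟩)]
      simp
    rw [Finset.sum_congr rfl fun a _ => h3 a, Fin.sum_univ_three]
    simp [cf]
    ring
  · intro a _ b _ h
    exact congrFun h 0

/-- For `n = 1` and a cycle of odd length `d+1` the value is `2^(d+1) (2 + (-2)^(d+1)) ≠ 0`. -/
theorem Vval_one (d : ℕ) (hd : Even d) (hd2 : 2 ≤ d) : Vval 1 d d 1 0 ≠ 0 := by
  classical
  unfold Vval
  rw [pow_zero, mul_one]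
  have hvars : (1 : Fin (d + 2)) ∉ (cyc 1 d d).vars := by
    rw [cyc_eq]
    intro h
    have h1 := vars_prod _ h
    rw [Finset.mem_biUnion] at h1
    obtain ⟨j, _, hj⟩ := h1
    have h2 := vars_pow _ _ hj
    have h3 := vars_sub_subset _ h2
    rw [Finset.mem_union, vars_X, vars_X, Finset.mem_singleton, Finset.mem_singleton] at h3
    rcases h3 with h3 | h3
    · exact wvt_ne_one d _ h3.symm
    · exact wvt_ne_one d _ h3.symm
  have h0 : Fin.succ (0 : Fin (d + 1)) = (1 : Fin (d + 2)) := rfl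
  rw [h0, pair_L_free 1 d le_rfl _ hvars]
  have h1 : (Finset.piAntidiag (Finset.univ : Finset (Fin (d + 2))) (1 - 1)).filter
      (fun m => m 1 = 0) = {0} := by
    ext m
    simp only [Finset.mem_filter, Finset.mem_piAntidiag, Finset.mem_singleton, Nat.sub_self]
    constructor
    · rintro ⟨⟨h, _⟩, _⟩
      funext l
      exact (Finset.sum_eq_zero_iff.1 h) l (Finset.mem_univ l)
    · rintro rfl
      simp
  rw [h1, Finset.sum_singleton]
  have h2 : ∀ l : Fin (d + 2), (2 * 1 + 2 * (0 : Fin (d + 2) → ℕ) l) = 2 := by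
    intro l; simp
  simp only [h2]
  rw [coeff_cyc]
  have h3 : (2 : ℝ) + (-2) ^ (d + 1) ≠ 0 := by
    have hodd : Odd (d + 1) := hd.add_one
    rw [hodd.neg_pow]
    have h4 : (2 : ℝ) ^ 2 ≤ 2 ^ (d + 1) := pow_le_pow_right₀ (by norm_num) (by omega)
    intro h5
    norm_num at h4
    linarith
  have h4 : (∏ l ∈ Finset.univ.erase (1 : Fin (d + 2)),
      kp 1 ((0 : Fin (d + 2) → ℕ) l) * ((2 : ℕ).factorial : ℝ)) ≠ 0 := by
    refine Finset.prod_ne_zero_iff.2 fun l _ => ?_
    simp [kp, Nat.factorial]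
  have h5 : (((1 - 1 : ℕ)).factorial : ℝ) ≠ 0 := by simp
  exact mul_ne_zero (mul_ne_zero h5 h4) h3

end Pool.Agent.H84Spl
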