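import Mathlib

/-!
# Multivariate splines on triangulations (problem MP_426dd2_an): definitions

Points of `R^s` are functions `Fin s → ℝ`.
-/

namespace Pool.Agent.H84Spl

open MvPolynomial

/-- A triangulation in `R^s`: a finite collection of `s`-dimensional simplices, each given by its
set of `s+1` affinely independent vertices, any two of which meet exactly in the face spanned by
their common vertices (which may be empty). -/
structure Triang (s : ℕ) where
  /-- the vertex sets of the `s`-simplices -/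
  cells : Finset (Finset (Fin s → ℝ))
  card_eq : ∀ σ ∈ cells, σ.card = s + 1
  indep : ∀ σ ∈ cells, AffineIndependent ℝ (fun v : σ => (v : Fin s → ℝ))
  inter : ∀ σ ∈ cells, ∀ τ ∈ cells,
    convexHull ℝ (σ : Set (Fin s → ℝ)) ∩ convexHull ℝ (τ : Set (Fin s → ℝ)) =
      convexHull ℝ ((σ : Set (Fin s → ℝ)) ∩ (τ : Set (Fin s → ℝ)))

namespace Triang

variable {s : ℕ} (T : Triang s)

/-- The polyhedral region that is triangulated: the union of the simplices. -/
def region : Set (Fin s → ℝ) := {x | ∃ σ ∈ T.cells, x ∈ convexHull ℝ (σ : Set (Fin s → ℝ))}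

/-- `v` is a vertex of the triangulation. -/
def IsVertex (v : Fin s → ℝ) : Prop := ∃ σ ∈ T.cells, v ∈ σ

/-- The spline space `S_k^r(Δ)`: functions on the region (extended by `0` to `R^s`) which are `C^r`
on the region and coincide with a polynomial of total degree at most `k` on every simplex. -/
def splineSpace (r k : ℕ) : Submodule ℝ ((Fin s → ℝ) → ℝ) where
  carrier := {f | ContDiffOn ℝ (r : WithTop ℕ∞) f T.region ∧ (∀ x, x ∉ T.region → f x = 0) ∧
    ∀ σ ∈ T.cells, ∃ P : MvPolynomial (Fin s) ℝ, P.totalDegree ≤ k ∧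
      ∀ x ∈ convexHull ℝ (σ : Set (Fin s → ℝ)), f x = eval x P}
  add_mem' := by
    rintro f g ⟨hf1, hf2, hf3⟩ ⟨hg1, hg2, hg3⟩
    refine ⟨hf1.add hg1, fun x hx => by simp [hf2 x hx, hg2 x hx], fun σ hσ => ?_⟩
    obtain ⟨P, hP, hfP⟩ := hf3 σ hσ
    obtain ⟨Q, hQ, hgQ⟩ := hg3 σ hσ
    refine ⟨P + Q, (totalDegree_add P Q).trans (max_le hP hQ), fun x hx => ?_⟩
    simp [hfP x hx, hgQ x hx]
  zero_mem' := by
    refine ⟨contDiffOn_const, fun x _ => rfl, fun σ _ => ⟨0, by simp, fun x _ => by simp⟩⟩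
  smul_mem' := by
    rintro c f ⟨hf1, hf2, hf3⟩
    refine ⟨contDiffOn_const.smul hf1, fun x hx => by simp [hf2 x hx], fun σ hσ => ?_⟩
    obtain ⟨P, hP, hfP⟩ := hf3 σ hσ
    refine ⟨C c * P, ?_, fun x hx => by simp [hfP x hx]⟩
    refine (totalDegree_mul _ _).trans ?_
    simpa using hP

/-- The closed `m`-star of a point `v`: `star v 0 = {v}` and `star v (m+1)` is the union of all
`s`-simplices that meet `star v m`; so `star v 1` is the union of the simplices containing `v`. -/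
def star (v : Fin s → ℝ) : ℕ → Set (Fin s → ℝ)
  | 0 => {v}
  | m + 1 => {x | ∃ σ ∈ T.cells, (convexHull ℝ (σ : Set (Fin s → ℝ)) ∩ star v m).Nonempty ∧
      x ∈ convexHull ℝ (σ : Set (Fin s → ℝ))}

/-- `f` is supported in the closed `m`-star of some vertex. -/
def LocallySupported (m : ℕ) (f : (Fin s → ℝ) → ℝ) : Prop :=
  ∃ v, T.IsVertex v ∧ Function.support f ⊆ T.star v m

/-- `S_k^r(Δ)` has a basis each member of which is supported in the `m`-star of some vertex. -/
def HasLocalBasis (r k m : ℕ) : Prop :=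
  ∃ (ι : Type) (B : Module.Basis ι ℝ (T.splineSpace r k)),
    ∀ i, T.LocallySupported m (B i : (Fin s → ℝ) → ℝ)

end Triang

/-- For the given `s, r, k`, every space `S_k^r(Δ)` has a local basis: there is `m ≥ 1`, not
depending on the triangulation, such that every triangulation has an `m`-local basis. -/
def HasLocalBases (s r k : ℕ) : Prop := ∃ m, 1 ≤ m ∧ ∀ T : Triang s, T.HasLocalBasis r k m

/-! ### The Kuhn mesh -/

/-- The `j`-th vertex (`0 ≤ j ≤ s`) of the Kuhn simplex with cube corner `z` and order `π`: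
`z + e_{π 0} + ... + e_{π (j-1)}`. -/
def kvert {s : ℕ} (z : Fin s → ℤ) (π : Equiv.Perm (Fin s)) (j : ℕ) : Fin s → ℝ :=
  fun i => (z i : ℝ) + if (π.symm i : ℕ) < j then 1 else 0

open Classical in
/-- The vertex set of a Kuhn simplex. -/
noncomputable def ksimp {s : ℕ} (z : Fin s → ℤ) (π : Equiv.Perm (Fin s)) : Finset (Fin s → ℝ) :=
  (Finset.range (s + 1)).image (kvert z π)

/-- The Kuhn simplex as a closed set. -/
def kcell {s : ℕ} (z : Fin s → ℤ) (π : Equiv.Perm (Fin s)) : Set (Fin s → ℝ) :=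
  {x | (∀ i, (z i : ℝ) ≤ x i ∧ x i ≤ z i + 1) ∧
    ∀ a b : Fin s, a ≤ b → x (π b) - z (π b) ≤ x (π a) - z (π a)}

/-- unit integer vector -/
def uvec {s : ℕ} (i : Fin s) : Fin s → ℤ := Pi.single i 1

/-- Cube corners of the cubes of `[-N, N]^s`. -/
noncomputable def box (s N : ℕ) : Finset (Fin s → ℤ) := Fintype.piFinset fun _ => Finset.Ico (-(N : ℤ)) N

/-- Cube corners of the cubes of the shell `[-N, N]^s` minus `(-M, M)^s`. -/
noncomputable def shell (s M N : ℕ) : Finset (Fin s → ℤ) := box s N \ box s M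

/-! ### The pairing and the laws -/

/-- product of factorials of an exponent vector -/
noncomputable def efac {σ : Type} [Fintype σ] (e : σ →₀ ℕ) : ℝ := ∏ i, ((e i).factorial : ℝ)

/-- The apolar pairing of two polynomials. -/
noncomputable def pair {σ : Type} [Fintype σ] (L P : MvPolynomial σ ℝ) : ℝ :=
  ∑ e ∈ L.support, coeff e L * efac e * coeff e P

/-- the numbers `(-1)^a (n-1-a)! / a!` -/
noncomputable def km (n a : ℕ) : ℝ :=
  if a < n then (-1) ^ a * ((n - 1 - a).factorial : ℝ) / (a.factorial : ℝ) else 0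

/-- the numbers `1 / ((n+b)! b!)` -/
noncomputable def kp (n b : ℕ) : ℝ := 1 / (((n + b).factorial : ℝ) * (b.factorial : ℝ))

/-- The law `L_a` in the variables `X_0, ..., X_{d+1}`. -/
noncomputable def Lpoly (n d : ℕ) (a : Fin (d + 2)) : MvPolynomial (Fin (d + 2)) ℝ :=
  ∑ m ∈ Finset.piAntidiag Finset.univ (n - 1), ∏ l : Fin (d + 2),
    if l = a then C (km n (m l)) * X l ^ (2 * m l)
    else C (kp n (m l)) * X l ^ (2 * n + 2 * m l)

/-- The critical degree `K = 2 n (d+2) - 2`. -/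
def Kdeg (n d : ℕ) : ℕ := 2 * n * (d + 2) - 2

/-- The homogenising lift `y_i ↦ X_{i+1} - X_0`. -/
noncomputable def hlift (d : ℕ) :
    MvPolynomial (Fin (d + 1)) ℝ →ₐ[ℝ] MvPolynomial (Fin (d + 2)) ℝ :=
  aeval fun i => X i.succ - X 0

/-- The functional `ψ_i` on polynomials in `d+1` variables. -/
noncomputable def psi (n d : ℕ) (i : Fin (d + 1)) (P : MvPolynomial (Fin (d + 1)) ℝ) : ℝ :=
  pair (Lpoly n d i.succ - Lpoly n d 0) (hlift d P)

/-- A seed: a spline on the whole Kuhn mesh of `R^{d+1}` supported in the tube `|x_i| ≤ 1`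
(`i ≠ 0`) for which all `ψ_0` have one sign, with at least one nonzero in every layer. -/
structure SeedOK (n d : ℕ) (g : (Fin (d + 1) → ℝ) → ℝ) : Prop where
  smooth : ContDiff ℝ ((2 * n - 1 : ℕ) : WithTop ℕ∞) g
  tube : ∀ x : Fin (d + 1) → ℝ, (∃ i, i ≠ 0 ∧ 1 < |x i|) → g x = 0
  flux : ∃ ε : ℝ, (∀ (z : Fin (d + 1) → ℤ) (π : Equiv.Perm (Fin (d + 1))),
      ∃ P : MvPolynomial (Fin (d + 1)) ℝ, P.totalDegree ≤ Kdeg n d ∧
        (∀ x ∈ kcell z π, g x = eval x P) ∧ 0 ≤ ε * psi n d 0 P) ∧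
    ∀ c : ℤ, ∃ (z : Fin (d + 1) → ℤ) (π : Equiv.Perm (Fin (d + 1)))
      (P : MvPolynomial (Fin (d + 1)) ℝ), z 0 = c ∧ (∀ i, i ≠ 0 → z i = 0) ∧ π 0 = 0 ∧
        P.totalDegree ≤ Kdeg n d ∧ (∀ x ∈ kcell z π, g x = eval x P) ∧ 0 < ε * psi n d 0 P

end Pool.Agent.H84Spl
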