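import Mathlib

/-! # Divisibility by a power of `X_a - B` can be tested on lines -/

namespace Pool.Agent.H84Spl

open MvPolynomial

theorem divL_aux {s : ℕ} (R : MvPolynomial (Fin s) ℝ) (a : Fin s) (k : ℕ) (U : Fin s → Set ℝ)
    (hU : ∀ i, (U i).Infinite)
    (h : ∀ u ∈ Set.pi Set.univ U, (Polynomial.X : Polynomial ℝ) ^ k ∣
      aeval (fun i => if i = a then (Polynomial.X : Polynomial ℝ) else Polynomial.C (u i)) R) :
    (X a) ^ k ∣ R := by
  classical
  rw [X_pow_eq_monomial, monomial_one_dvd_iff_modMonomial_eq_zero]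
  ext e
  rw [coeff_zero]
  by_cases hle : Finsupp.single a k ≤ e
  · exact coeff_modMonomial_of_le _ hle
  rw [coeff_modMonomial_of_not_le _ hle]
  have hea : e a < k := by
    by_contra hcon
    exact hle (Finsupp.single_le_iff.2 (not_lt.1 hcon))
  set Rj : MvPolynomial (Fin s) ℝ :=
    ∑ e' ∈ R.support.filter (fun e' => e' a = e a), monomial (e'.erase a) (coeff e' R) with hRj
  have hRj0 : Rj = 0 := by
    refine MvPolynomial.funext_set U hU (fun u hu => ?_)
    have h1 := (Polynomial.X_pow_dvd_iff.1 (h u hu)) (e a) hea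
    rw [aeval_def, eval₂_eq', Polynomial.finsetSum_coeff] at h1
    rw [hRj, map_sum, map_zero, Finset.sum_filter]
    refine Eq.trans (Finset.sum_congr rfl (fun e' _ => ?_)) h1
    have h2 : ∏ i, (if i = a then (Polynomial.X : Polynomial ℝ) else Polynomial.C (u i)) ^ e' i
        = Polynomial.C (∏ i ∈ Finset.univ.erase a, u i ^ e' i) * Polynomial.X ^ e' a := by
      rw [← Finset.mul_prod_erase Finset.univ _ (Finset.mem_univ a), if_pos rfl, mul_comm]
      congr 1
      rw [map_prod]
      refine Finset.prod_congr rfl (fun i hi => ?_)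
      rw [if_neg (Finset.ne_of_mem_erase hi), map_pow]
    rw [h2, ← Polynomial.C_eq_algebraMap, ← mul_assoc, ← Polynomial.C_mul,
      Polynomial.coeff_C_mul_X_pow]
    by_cases h3 : e' a = e a
    · rw [if_pos h3, if_pos h3.symm, eval_monomial]
      congr 1
      rw [Finsupp.prod_fintype _ _ (fun i => pow_zero _),
        ← Finset.mul_prod_erase Finset.univ _ (Finset.mem_univ a), Finsupp.erase_same, pow_zero,
        one_mul]
      refine Finset.prod_congr rfl (fun i hi => ?_)
      rw [Finsupp.erase_ne (Finset.ne_of_mem_erase hi)]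
    · rw [if_neg h3, if_neg (fun h => h3 h.symm)]
  have h4 : coeff (e.erase a) Rj = coeff e R := by
    rw [hRj, coeff_sum]
    have h5 : ∀ e' ∈ R.support.filter (fun e' => e' a = e a),
        coeff (e.erase a) (monomial (e'.erase a) (coeff e' R)) = if e' = e then coeff e R else 0 := by
      intro e' he'
      rw [Finset.mem_filter] at he'
      rw [coeff_monomial]
      by_cases h6 : e' = e
      · rw [if_pos (by rw [h6]), if_pos h6, h6]
      · rw [if_neg, if_neg h6]
        intro h7
        apply h6
        ext i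
        by_cases hi : i = a
        · rw [hi, he'.2]
        · have := DFunLike.congr_fun h7 i
          rwa [Finsupp.erase_ne hi, Finsupp.erase_ne hi] at this
    rw [Finset.sum_congr rfl h5, Finset.sum_ite_eq']
    split_ifs with h8
    · rfl
    · rw [Finset.mem_filter, not_and] at h8
      by_contra h9
      exact h8 (mem_support_iff.2 (fun h => h9 h.symm)) rfl
  rw [← h4, hRj0, coeff_zero]

theorem div_of_lines {s : ℕ} (R : MvPolynomial (Fin s) ℝ) (a : Fin s)
    (B : MvPolynomial (Fin s) ℝ) (hB : a ∉ B.vars) (k : ℕ) (U : Fin s → Set ℝ)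
    (hU : ∀ i, (U i).Infinite)
    (h : ∀ u ∈ Set.pi Set.univ U, (Polynomial.X : Polynomial ℝ) ^ k ∣
      aeval (fun i => if i = a then Polynomial.X + Polynomial.C (eval u B)
        else Polynomial.C (u i)) R) :
    (X a - B) ^ k ∣ R := by
  classical
  set φ : MvPolynomial (Fin s) ℝ →ₐ[ℝ] MvPolynomial (Fin s) ℝ :=
    aeval (fun i => if i = a then X a + B else X i) with hφ
  set ψ : MvPolynomial (Fin s) ℝ →ₐ[ℝ] MvPolynomial (Fin s) ℝ :=
    aeval (fun i => if i = a then X a - B else X i) with hψ
  have hB1 : ∀ {A : Type} [CommRing A] [Algebra ℝ A] (f g : Fin s → A),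
      (∀ i, i ≠ a → f i = g i) → aeval f B = aeval g B := by
    intro A _ _ f g hfg
    refine eval₂Hom_congr' rfl (fun i hi _ => hfg i ?_) rfl
    rintro rfl
    exact hB hi
  have hψB : ψ B = B := by
    have := hB1 (fun i => if i = a then X a - B else (X i : MvPolynomial (Fin s) ℝ)) X
      (fun i hi => by simp [hi])
    rw [hψ, this, aeval_X_left_apply]
  have hcomp : ψ.comp φ = AlgHom.id ℝ _ := by
    ext i
    by_cases hi : i = a
    · subst hi
      simp only [AlgHom.comp_apply, hφ, aeval_X, if_true, AlgHom.id_apply, map_add, hψB]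
      simp [hψ]
    · simp [AlgHom.comp_apply, hφ, hψ, hi]
  have h1 : (X a) ^ k ∣ φ R := by
    refine divL_aux (φ R) a k U hU (fun u hu => ?_)
    have h2 : aeval (fun i => if i = a then (Polynomial.X : Polynomial ℝ) else Polynomial.C (u i))
        (φ R) = aeval (fun i => if i = a then Polynomial.X + Polynomial.C (eval u B)
          else Polynomial.C (u i)) R := by
      have h3 : (aeval (fun i => if i = a then (Polynomial.X : Polynomial ℝ)
          else Polynomial.C (u i))).comp φ =
          (aeval (fun i => if i = a then Polynomial.X + Polynomial.C (eval u B)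
          else Polynomial.C (u i)) : MvPolynomial (Fin s) ℝ →ₐ[ℝ] Polynomial ℝ) := by
        ext1 i
        by_cases hi : i = a
        · subst hi
          simp only [AlgHom.comp_apply, hφ, aeval_X, if_true, map_add]
          congr 1
          rw [hB1 _ (fun j => Polynomial.C (u j)) (fun j hj => by simp [hj])]
          have h4 : (aeval (fun j => Polynomial.C (u j)) : MvPolynomial (Fin s) ℝ →ₐ[ℝ] _)
              = (Algebra.ofId ℝ (Polynomial ℝ)).comp (aeval u) := by
            ext1 j
            simp [Algebra.ofId_apply]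
          rw [h4, AlgHom.comp_apply, Algebra.ofId_apply, Polynomial.algebraMap_eq]
          rfl
        · simp [AlgHom.comp_apply, hφ, hi]
      rw [← h3, AlgHom.comp_apply]
    rw [h2]
    exact h u hu
  have h5 : ψ (X a ^ k) ∣ ψ (φ R) := map_dvd ψ h1
  rw [← AlgHom.comp_apply, hcomp, AlgHom.id_apply, map_pow] at h5
  have h6 : ψ (X a) = X a - B := by simp [hψ]
  rwa [h6] at h5

end Pool.Agent.H84Spl
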