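import Pool.Agent.H84Spl.Def

/-! # The Euler-Poisson-Darboux identity -/

namespace Pool.Agent.H84Spl

/-! ### Products of differences -/

lemma prod_sub_above (i lo L : ℕ) (h : i < lo) :
    (∏ j ∈ Finset.Ico lo (lo + L), ((i : ℝ) - j)) * ((lo - 1 - i).factorial : ℝ) =
      (-1) ^ L * ((lo + L - 1 - i).factorial : ℝ) := by
  induction L with
  | zero => simp
  | succ L ih =>
    rw [← add_assoc, Finset.prod_Ico_succ_top (by omega)]
    have h1 : lo + L + 1 - 1 - i = (lo + L - 1 - i) + 1 := by omega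
    rw [h1, Nat.factorial_succ, pow_succ]
    push_cast
    have h2 : ((lo + L - 1 - i : ℕ) : ℝ) = (lo : ℝ) + L - 1 - i := by
      rw [Nat.cast_sub (by omega), Nat.cast_sub (by omega)]; push_cast; ring
    rw [h2]
    linear_combination ((i : ℝ) - (lo + L)) * ih

lemma prod_sub_below (i lo L : ℕ) (h : lo + L ≤ i) :
    (∏ j ∈ Finset.Ico lo (lo + L), ((i : ℝ) - j)) * ((i - lo - L).factorial : ℝ) =
      ((i - lo).factorial : ℝ) := by
  induction L with
  | zero => simp
  | succ L ih =>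
    rw [← add_assoc, Finset.prod_Ico_succ_top (by omega)]
    have ih' := ih (by omega)
    have h1 : i - lo - L = (i - lo - (L + 1)) + 1 := by omega
    rw [h1, Nat.factorial_succ] at ih'
    push_cast at ih'
    have h2 : ((i - lo - (L + 1) : ℕ) : ℝ) = (i : ℝ) - lo - (L + 1) := by
      rw [Nat.cast_sub (by omega), Nat.cast_sub (by omega)]; push_cast; ring
    rw [h2] at ih'
    push_cast
    linear_combination ih'

lemma prod_sub_erase (i lo hi : ℕ) (h1 : lo ≤ i) (h2 : i < hi) :
    ∏ j ∈ (Finset.Ico lo hi).erase i, ((i : ℝ) - j) =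
      ((i - lo).factorial : ℝ) * ((-1) ^ (hi - 1 - i) * ((hi - 1 - i).factorial : ℝ)) := by
  have hs : (Finset.Ico lo hi).erase i = Finset.Ico lo i ∪ Finset.Ico (i + 1) hi := by
    ext j
    simp only [Finset.mem_erase, Finset.mem_union, Finset.mem_Ico]
    omega
  have hd : Disjoint (Finset.Ico lo i) (Finset.Ico (i + 1) hi) := by
    rw [Finset.disjoint_left]
    intro j
    simp only [Finset.mem_Ico]
    omega
  rw [hs, Finset.prod_union hd]
  congr 1
  · have := prod_sub_below i lo (i - lo) (by omega)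
    rw [show lo + (i - lo) = i by omega, show i - lo - (i - lo) = 0 by omega] at this
    simpa using this
  · have := prod_sub_above i (i + 1) (hi - 1 - i) (by omega)
    rw [show i + 1 + (hi - 1 - i) = hi by omega, show i + 1 - 1 - i = 0 by omega] at this
    simpa using this

/-- The divided difference of a polynomial of degree at most `2M` at `2M+2` nodes is zero. -/
lemma wsum_desc (n M k : ℕ) (hM : M < n) (hk : k ≤ 2 * M) :
    ∑ ab ∈ Finset.HasAntidiagonal.antidiagonal M, km n ab.1 * kp n ab.2 *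
      (((ab.1).descFactorial k : ℝ) - ((n + ab.2).descFactorial k : ℝ)) = 0 := by
  set s : Finset ℕ := Finset.Ico 0 (M + 1) ∪ Finset.Ico n (n + (M + 1)) with hs
  have hd : Disjoint (Finset.Ico 0 (M + 1)) (Finset.Ico n (n + (M + 1))) := by
    rw [Finset.disjoint_left]
    intro j
    simp only [Finset.mem_Ico]
    omega
  have hcard : s.card = 2 * M + 2 := by
    rw [hs, Finset.card_union_of_disjoint hd, Nat.card_Ico, Nat.card_Ico]
    omega
  have hinj : Set.InjOn (fun i : ℕ => (i : ℝ)) s := fun a _ b _ h => Nat.cast_injective h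
  have hnd : (descPochhammer ℝ k).natDegree = k := descPochhammer_natDegree ℝ k
  have hdeg : (descPochhammer ℝ k).degree < s.card := by
    refine lt_of_le_of_lt Polynomial.degree_le_natDegree ?_
    rw [hnd, hcard]
    exact_mod_cast (by omega : k < 2 * M + 2)
  have h0 := Lagrange.coeff_eq_sum hinj hdeg
  rw [Polynomial.coeff_eq_zero_of_natDegree_lt (by rw [hnd, hcard]; omega), hs,
    Finset.sum_union hd, ← hs] at h0
  simp only [descPochhammer_eval_eq_descFactorial] at h0
  -- first sum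
  have e1 : ∑ i ∈ Finset.Ico 0 (M + 1), ((i.descFactorial k : ℕ) : ℝ) /
      ∏ j ∈ s.erase i, ((i : ℝ) - j) =
      ∑ i ∈ Finset.Ico 0 (M + 1), -(km n i * kp n (M - i) * ((i.descFactorial k : ℕ) : ℝ)) := by
    refine Finset.sum_congr rfl fun i hi => ?_
    rw [Finset.mem_Ico] at hi
    have hi' : i ∉ Finset.Ico n (n + (M + 1)) := by
      rw [Finset.mem_Ico]; omega
    have hser : s.erase i = (Finset.Ico 0 (M + 1)).erase i ∪ Finset.Ico n (n + (M + 1)) := by
      rw [hs, Finset.erase_union_distrib, Finset.erase_eq_of_notMem hi']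
    have hd' : Disjoint ((Finset.Ico 0 (M + 1)).erase i) (Finset.Ico n (n + (M + 1))) :=
      Finset.disjoint_of_subset_left (Finset.erase_subset _ _) hd
    have hp1 := prod_sub_erase i 0 (M + 1) (by omega) (by omega)
    have hp2 := prod_sub_above i n (M + 1) (by omega)
    rw [hser, Finset.prod_union hd', hp1]
    rw [show n + (M + 1) - 1 - i = n + (M - i) by omega] at hp2
    rw [show M + 1 - 1 - i = M - i by omega, Nat.sub_zero]
    set Q := ∏ j ∈ Finset.Ico n (n + (M + 1)), ((i : ℝ) - j) with hQ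
    have hA : ((i.factorial : ℕ) : ℝ) ≠ 0 := by positivity
    have hB : (((M - i).factorial : ℕ) : ℝ) ≠ 0 := by positivity
    have hC : (((n + (M - i)).factorial : ℕ) : ℝ) ≠ 0 := by positivity
    have hD : (((n - 1 - i).factorial : ℕ) : ℝ) ≠ 0 := by positivity
    have hsg : ((-1 : ℝ)) ^ (M - i) * (-1) ^ (M + 1) * (-1) ^ i = -1 := by
      rw [← pow_add, ← pow_add]
      rw [show M - i + (M + 1) + i = 2 * M + 1 by omega, pow_succ, pow_mul]
      simp
    have hs1 : ((-1 : ℝ)) ^ (M - i) ≠ 0 := pow_ne_zero _ (by norm_num)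
    have hs2 : ((-1 : ℝ)) ^ (M + 1) ≠ 0 := pow_ne_zero _ (by norm_num)
    have hQ0 : Q ≠ 0 := by
      intro h
      rw [h, zero_mul] at hp2
      exact (mul_ne_zero hs2 hC) hp2.symm
    rw [div_eq_iff (mul_ne_zero (mul_ne_zero hA (mul_ne_zero hs1 hB)) hQ0)]
    have hkm : km n i = (-1) ^ i * ((n - 1 - i).factorial : ℝ) / (i.factorial : ℝ) := by
      rw [km, if_pos (by omega)]
    rw [hkm, kp]
    field_simp
    linear_combination (((i.descFactorial k : ℕ) : ℝ) * (-1) ^ i * (-1) ^ (M - i)) * hp2 +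
      (((i.descFactorial k : ℕ) : ℝ) * (((n + (M - i)).factorial : ℕ) : ℝ)) * hsg
  have e2 : ∑ i ∈ Finset.Ico n (n + (M + 1)), ((i.descFactorial k : ℕ) : ℝ) /
      ∏ j ∈ s.erase i, ((i : ℝ) - j) =
      ∑ b ∈ Finset.range (M + 1), km n (M - b) * kp n b * (((n + b).descFactorial k : ℕ) : ℝ) := by
    rw [Finset.sum_Ico_eq_sum_range, show n + (M + 1) - n = M + 1 by omega]
    refine Finset.sum_congr rfl fun b hb => ?_
    rw [Finset.mem_range] at hb
    have hi' : n + b ∉ Finset.Ico 0 (M + 1) := by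
      rw [Finset.mem_Ico]; omega
    have hser : s.erase (n + b) =
        Finset.Ico 0 (0 + (M + 1)) ∪ (Finset.Ico n (n + (M + 1))).erase (n + b) := by
      rw [hs, Finset.erase_union_distrib, Finset.erase_eq_of_notMem hi', zero_add]
    have hd' : Disjoint (Finset.Ico 0 (0 + (M + 1)))
        ((Finset.Ico n (n + (M + 1))).erase (n + b)) := by
      rw [zero_add]
      exact Finset.disjoint_of_subset_right (Finset.erase_subset _ _) hd
    have hp1 := prod_sub_erase (n + b) n (n + (M + 1)) (by omega) (by omega)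
    have hp2 := prod_sub_below (n + b) 0 (M + 1) (by omega)
    rw [hser, Finset.prod_union hd', hp1]
    rw [show n + b - 0 - (M + 1) = n - 1 - (M - b) by omega, Nat.sub_zero] at hp2
    rw [show n + (M + 1) - 1 - (n + b) = M - b by omega, show n + b - n = b by omega]
    set Q := ∏ j ∈ Finset.Ico 0 (0 + (M + 1)), (((n + b : ℕ) : ℝ) - j) with hQ
    have hA : ((b.factorial : ℕ) : ℝ) ≠ 0 := by positivity
    have hB : (((M - b).factorial : ℕ) : ℝ) ≠ 0 := by positivity
    have hC : (((n + b).factorial : ℕ) : ℝ) ≠ 0 := by positivity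
    have hD : (((n - 1 - (M - b)).factorial : ℕ) : ℝ) ≠ 0 := by positivity
    have hs1 : ((-1 : ℝ)) ^ (M - b) ≠ 0 := pow_ne_zero _ (by norm_num)
    have hsg : ((-1 : ℝ)) ^ (M - b) * (-1) ^ (M - b) = 1 := by
      rw [← mul_pow]; norm_num
    have hQ0 : Q ≠ 0 := by
      intro h
      rw [h, zero_mul] at hp2
      exact hC hp2.symm
    rw [div_eq_iff (mul_ne_zero hQ0 (mul_ne_zero hA (mul_ne_zero hs1 hB)))]
    have hkm : km n (M - b) = (-1) ^ (M - b) * ((n - 1 - (M - b)).factorial : ℝ) /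
        ((M - b).factorial : ℝ) := by
      rw [km, if_pos (by omega)]
    rw [hkm, kp]
    field_simp
    linear_combination (-(((n + b).descFactorial k : ℕ) : ℝ) * (-1) ^ (M - b) * (-1) ^ (M - b)) *
      hp2 - ((((n + b).descFactorial k : ℕ) : ℝ) * (((n + b).factorial : ℕ) : ℝ)) * hsg
  rw [e1, e2, Nat.Ico_zero_eq_range] at h0
  have e3 : ∑ ab ∈ Finset.HasAntidiagonal.antidiagonal M, km n ab.1 * kp n ab.2 *
      (((ab.1).descFactorial k : ℝ) - ((n + ab.2).descFactorial k : ℝ)) =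
      ∑ ab ∈ Finset.HasAntidiagonal.antidiagonal M, km n ab.1 * kp n ab.2 * ((ab.1).descFactorial k : ℝ) -
      ∑ ab ∈ Finset.HasAntidiagonal.antidiagonal M, km n ab.1 * kp n ab.2 * ((n + ab.2).descFactorial k : ℝ) := by
    rw [← Finset.sum_sub_distrib]
    exact Finset.sum_congr rfl fun ab _ => by ring
  have e4 : ∑ ab ∈ Finset.HasAntidiagonal.antidiagonal M, km n ab.1 * kp n ab.2 * ((ab.1).descFactorial k : ℝ) =
      ∑ i ∈ Finset.range (M + 1), km n i * kp n (M - i) * ((i.descFactorial k : ℕ) : ℝ) :=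
    Finset.Nat.sum_antidiagonal_eq_sum_range_succ
      (fun a b => km n a * kp n b * ((a.descFactorial k : ℕ) : ℝ)) M
  have e5 : ∑ ab ∈ Finset.HasAntidiagonal.antidiagonal M, km n ab.1 * kp n ab.2 *
      ((n + ab.2).descFactorial k : ℝ) =
      ∑ b ∈ Finset.range (M + 1), km n (M - b) * kp n b *
        (((n + b).descFactorial k : ℕ) : ℝ) := by
    rw [← Finset.Nat.sum_antidiagonal_swap]
    exact Finset.Nat.sum_antidiagonal_eq_sum_range_succ
      (fun b a => km n a * kp n b * (((n + b).descFactorial k : ℕ) : ℝ)) M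
  rw [e3, e4, e5]
  rw [Finset.sum_neg_distrib] at h0
  linarith

/-- the coefficients of the expansion in powers of `X - Y` -/
noncomputable def epdA (n M k : ℕ) : ℝ :=
  ∑ ab ∈ Finset.HasAntidiagonal.antidiagonal M, km n ab.1 * kp n ab.2 *
    (((ab.1).choose k : ℝ) - ((n + ab.2).choose k : ℝ))

lemma epdA_eq_zero (n M k : ℕ) (hM : M < n) (hk : k ≤ 2 * M) : epdA n M k = 0 := by
  have h := wsum_desc n M k hM hk
  have hk0 : ((k.factorial : ℕ) : ℝ) ≠ 0 := by positivity
  have : ((k.factorial : ℕ) : ℝ) * epdA n M k = 0 := by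
    rw [← h, epdA, Finset.mul_sum]
    refine Finset.sum_congr rfl fun ab _ => ?_
    rw [Nat.descFactorial_eq_factorial_mul_choose, Nat.descFactorial_eq_factorial_mul_choose]
    push_cast
    ring
  exact (mul_eq_zero.mp this).resolve_left hk0

lemma pow_expand (X Y : ℝ) (e N : ℕ) (h : e ≤ N) :
    X ^ e * Y ^ (N - e) =
      ∑ k ∈ Finset.range (N + 1), ((e.choose k : ℕ) : ℝ) * ((X - Y) ^ k * Y ^ (N - k)) := by
  have h1 : X ^ e = ∑ k ∈ Finset.range (e + 1), (X - Y) ^ k * Y ^ (e - k) * (e.choose k : ℝ) := by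
    rw [← add_pow, sub_add_cancel]
  rw [h1, Finset.sum_mul]
  have h2 : ∑ k ∈ Finset.range (N + 1), ((e.choose k : ℕ) : ℝ) * ((X - Y) ^ k * Y ^ (N - k)) =
      ∑ k ∈ Finset.range (e + 1), ((e.choose k : ℕ) : ℝ) * ((X - Y) ^ k * Y ^ (N - k)) := by
    symm
    refine Finset.sum_subset (Finset.range_mono (by omega)) fun k _ hk => ?_
    rw [Finset.mem_range, not_lt] at hk
    rw [Nat.choose_eq_zero_of_lt (by omega)]
    simp
  rw [h2]
  refine Finset.sum_congr rfl fun k hk => ?_
  rw [Finset.mem_range] at hk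
  have : Y ^ (N - k) = Y ^ (e - k) * Y ^ (N - e) := by
    rw [← pow_add]; congr 1; omega
  rw [this]
  ring

/-- the kernel -/
noncomputable def epdG (n M : ℕ) (x y : ℝ) : ℝ :=
  ∑ ab ∈ Finset.HasAntidiagonal.antidiagonal M, km n ab.1 * kp n ab.2 *
      (x ^ (2 * ab.1) * y ^ (2 * n + 2 * ab.2) - y ^ (2 * ab.1) * x ^ (2 * n + 2 * ab.2))

lemma epdG_expand (n M : ℕ) (hM : M < n) (x y : ℝ) :
    epdG n M x y = ∑ k ∈ Finset.Ico (2 * M + 1) (n + M + 1),
      epdA n M k * ((x ^ 2 - y ^ 2) ^ k * y ^ (2 * (n + M - k))) := by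
  have h1 : epdG n M x y = ∑ k ∈ Finset.range (n + M + 1),
      epdA n M k * ((x ^ 2 - y ^ 2) ^ k * y ^ (2 * (n + M - k))) := by
    unfold epdG epdA
    simp only [Finset.sum_mul]
    rw [Finset.sum_comm]
    refine Finset.sum_congr rfl fun ab hab => ?_
    rw [Finset.HasAntidiagonal.mem_antidiagonal] at hab
    have e1 := pow_expand (x ^ 2) (y ^ 2) ab.1 (n + M) (by omega)
    have e2 := pow_expand (x ^ 2) (y ^ 2) (n + ab.2) (n + M) (by omega)
    have e3 : x ^ (2 * ab.1) * y ^ (2 * n + 2 * ab.2) =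
        (x ^ 2) ^ ab.1 * (y ^ 2) ^ (n + M - ab.1) := by
      rw [← pow_mul, ← pow_mul]
      congr 2
      omega
    have e4 : y ^ (2 * ab.1) * x ^ (2 * n + 2 * ab.2) =
        (x ^ 2) ^ (n + ab.2) * (y ^ 2) ^ (n + M - (n + ab.2)) := by
      rw [← pow_mul, ← pow_mul, mul_comm]
      congr 2 <;> omega
    rw [e3, e4, e1, e2, ← Finset.sum_sub_distrib, Finset.mul_sum]
    refine Finset.sum_congr rfl fun k _ => ?_
    rw [← pow_mul]
    ring
  rw [h1]
  symm
  rw [Finset.range_eq_Ico]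
  refine Finset.sum_subset (Finset.Ico_subset_Ico_left (by omega)) fun k hk hk' => ?_
  rw [Finset.mem_Ico] at hk hk'
  rw [epdA_eq_zero n M k hM (by omega), zero_mul]

open Polynomial in
/-- the kernel in one variable, as a polynomial -/
noncomputable def epdP (n M : ℕ) : ℝ[X] :=
  ∑ k ∈ Finset.Ico (2 * M + 1) (n + M + 1),
    C (epdA n M k) * ((C 4 * X) ^ k * (1 - X) ^ (2 * (n + M - k)))

lemma epdP_eval (n M : ℕ) (hM : M < n) (t : ℝ) :
    (epdP n M).eval t = epdG n M (1 + t) (1 - t) := by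
  rw [epdG_expand n M hM, epdP, Polynomial.eval_finsetSum]
  refine Finset.sum_congr rfl fun k _ => ?_
  simp only [Polynomial.eval_mul, Polynomial.eval_C, Polynomial.eval_pow, Polynomial.eval_X,
    Polynomial.eval_sub, Polynomial.eval_one]
  rw [show (1 + t) ^ 2 - (1 - t) ^ 2 = 4 * t by ring]

lemma epdP_natDegree (n M : ℕ) (hM : M < n) : (epdP n M).natDegree ≤ 2 * n - 1 := by
  refine Polynomial.natDegree_sum_le_of_forall_le _ _ fun k hk => ?_
  rw [Finset.mem_Ico] at hk
  refine Polynomial.natDegree_C_mul_le _ _ |>.trans ?_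
  refine Polynomial.natDegree_mul_le.trans ?_
  have h1 : ((Polynomial.C (4 : ℝ) * Polynomial.X) ^ k).natDegree ≤ k := by
    refine Polynomial.natDegree_pow_le.trans ?_
    have : (Polynomial.C (4 : ℝ) * Polynomial.X).natDegree ≤ 1 :=
      (Polynomial.natDegree_C_mul_le _ _).trans Polynomial.natDegree_X_le
    nlinarith
  have h2 : ((1 - Polynomial.X : Polynomial ℝ) ^ (2 * (n + M - k))).natDegree ≤
      2 * (n + M - k) := by
    refine Polynomial.natDegree_pow_le.trans ?_
    have : (1 - Polynomial.X : Polynomial ℝ).natDegree ≤ 1 := by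
      refine (Polynomial.natDegree_sub_le _ _).trans ?_
      simp
    nlinarith
  omega

lemma epdG_swap (n M : ℕ) (x y : ℝ) : epdG n M y x = -epdG n M x y := by
  unfold epdG
  rw [← Finset.sum_neg_distrib]
  exact Finset.sum_congr rfl fun ab _ => by ring

lemma epdP_coeff_even (n M : ℕ) (hM : M < n) (i : ℕ) : (epdP n M).coeff (2 * i) = 0 := by
  have h : (epdP n M).comp (Polynomial.C (-1) * Polynomial.X) = -epdP n M := by
    refine Polynomial.funext fun t => ?_
    rw [Polynomial.eval_comp, Polynomial.eval_neg, Polynomial.eval_mul, Polynomial.eval_C,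
      Polynomial.eval_X, epdP_eval n M hM, epdP_eval n M hM, ← epdG_swap]
    congr 1 <;> ring
  have h2 := congrArg (fun p => Polynomial.coeff p (2 * i)) h
  simp only [Polynomial.comp_C_mul_X_coeff, Polynomial.coeff_neg] at h2
  rw [pow_mul] at h2
  norm_num at h2
  linarith

lemma sum_range_two_mul (f : ℕ → ℝ) (n : ℕ) :
    ∑ i ∈ Finset.range (2 * n), f i = ∑ α ∈ Finset.range n, (f (2 * α) + f (2 * α + 1)) := by
  induction n with
  | zero => simp
  | succ n ih =>
    rw [show 2 * (n + 1) = 2 * n + 1 + 1 by ring, Finset.sum_range_succ, Finset.sum_range_succ, ih,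
      Finset.sum_range_succ]
    ring

lemma epdG_scale (n M : ℕ) (w x y : ℝ) :
    epdG n M (w * x) (w * y) = w ^ (2 * (n + M)) * epdG n M x y := by
  unfold epdG
  rw [Finset.mul_sum]
  refine Finset.sum_congr rfl fun ab hab => ?_
  rw [Finset.HasAntidiagonal.mem_antidiagonal] at hab
  have : w ^ (2 * (n + M)) = w ^ (2 * ab.1) * w ^ (2 * n + 2 * ab.2) := by
    rw [← pow_add]; congr 1; omega
  rw [this]
  ring

/-- Real form: the antisymmetric kernel only contains the powers `(x-y)^(2α+1)` with `α < n`. -/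
theorem epd_real (n M : ℕ) (hn : 1 ≤ n) (hM : M < n) : ∃ c : ℕ → ℝ, ∀ x y : ℝ,
    ∑ ab ∈ Finset.HasAntidiagonal.antidiagonal M, km n ab.1 * kp n ab.2 *
      (x ^ (2 * ab.1) * y ^ (2 * n + 2 * ab.2) - y ^ (2 * ab.1) * x ^ (2 * n + 2 * ab.2)) =
    ∑ α ∈ Finset.range n, c α * ((x - y) ^ (2 * α + 1) *
      (x + y) ^ (2 * (n + M - 1 - α) + 1)) := by
  refine ⟨fun α => (epdP n M).coeff (2 * α + 1) / 2 ^ (2 * (n + M)), fun x y => ?_⟩
  change epdG n M x y = _
  by_cases hv : x + y = 0
  · have hy : y = -x := by linarith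
    have h1 : epdG n M x y = 0 := by
      unfold epdG
      refine Finset.sum_eq_zero fun ab _ => ?_
      have e1 : (-x) ^ (2 * n + 2 * ab.2) = x ^ (2 * n + 2 * ab.2) :=
        Even.neg_pow ⟨n + ab.2, by ring⟩ x
      have e2 : (-x) ^ (2 * ab.1) = x ^ (2 * ab.1) := Even.neg_pow ⟨ab.1, by ring⟩ x
      rw [hy, e1, e2]
      ring
    rw [h1]
    symm
    refine Finset.sum_eq_zero fun α _ => ?_
    rw [hv, zero_pow (by omega)]
    ring
  · set v := x + y with hvdef
    set t := (x - y) / v with ht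
    have hx : x = (v / 2) * (1 + t) := by
      rw [ht]; field_simp; rw [hvdef]; ring
    have hy : y = (v / 2) * (1 - t) := by
      rw [ht]; field_simp; rw [hvdef]; ring
    have hxy : x - y = t * v := by rw [ht]; field_simp
    have h1 : epdG n M x y = (v / 2) ^ (2 * (n + M)) * (epdP n M).eval t := by
      rw [epdP_eval n M hM, ← epdG_scale, ← hx, ← hy]
    have hdeg : (epdP n M).natDegree < 2 * n :=
      lt_of_le_of_lt (epdP_natDegree n M hM) (by omega)
    rw [h1, Polynomial.eval_eq_sum_range' hdeg, sum_range_two_mul, Finset.mul_sum]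
    refine Finset.sum_congr rfl fun α hα => ?_
    rw [Finset.mem_range] at hα
    rw [epdP_coeff_even n M hM, zero_mul, zero_add, hxy, div_pow, mul_pow]
    have : v ^ (2 * (n + M)) = v ^ (2 * α + 1) * v ^ (2 * (n + M - 1 - α) + 1) := by
      rw [← pow_add]; congr 1; omega
    rw [this]
    ring

/-- The same in any commutative `ℝ`-algebra. -/
theorem epd (n M : ℕ) (hn : 1 ≤ n) (hM : M < n) : ∃ c : ℕ → ℝ,
    ∀ (A : Type) [CommRing A] [Algebra ℝ A] (x y : A),
    ∑ ab ∈ Finset.HasAntidiagonal.antidiagonal M, (km n ab.1 * kp n ab.2) •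
      (x ^ (2 * ab.1) * y ^ (2 * n + 2 * ab.2) - y ^ (2 * ab.1) * x ^ (2 * n + 2 * ab.2)) =
    ∑ α ∈ Finset.range n, c α • ((x - y) ^ (2 * α + 1) *
      (x + y) ^ (2 * (n + M - 1 - α) + 1)) := by
  obtain ⟨c, hc⟩ := epd_real n M hn hM
  refine ⟨c, fun A _ _ x y => ?_⟩
  let P : MvPolynomial (Fin 2) ℝ :=
    ∑ ab ∈ Finset.HasAntidiagonal.antidiagonal M, (km n ab.1 * kp n ab.2) •
      (MvPolynomial.X 0 ^ (2 * ab.1) * MvPolynomial.X 1 ^ (2 * n + 2 * ab.2) -
        MvPolynomial.X 1 ^ (2 * ab.1) * MvPolynomial.X 0 ^ (2 * n + 2 * ab.2))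
  let Q : MvPolynomial (Fin 2) ℝ :=
    ∑ α ∈ Finset.range n, c α • ((MvPolynomial.X 0 - MvPolynomial.X 1) ^ (2 * α + 1) *
      (MvPolynomial.X 0 + MvPolynomial.X 1) ^ (2 * (n + M - 1 - α) + 1))
  have hPQ : P = Q := by
    refine MvPolynomial.funext fun z => ?_
    have := hc (z 0) (z 1)
    simpa [P, Q, map_sum, MvPolynomial.smul_eval] using this
  have h := congrArg (MvPolynomial.aeval ![x, y]) hPQ
  simpa [P, Q, map_sum] using h

end Pool.Agent.H84Spl
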