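import Pool.Agent.H84Spl.Def

/-! # The discrete divergence theorem on a finite set of cubes -/

namespace Pool.Agent.H84Spl

lemma flux_swap {d : ℕ} (ψ : Equiv.Perm (Fin (d + 1)) → Fin (d + 1) → ℝ)
    (h1 : ∀ (π : Equiv.Perm (Fin (d + 1))) (j j' : Fin (d + 1)), (j' : ℕ) = j + 1 →
      ψ π (π j) - ψ π (π j') =
        ψ (π * Equiv.swap j j') (π j) - ψ (π * Equiv.swap j j') (π j'))
    (j j' : Fin (d + 1)) (hj : (j' : ℕ) = j + 1) :
    ∑ π : Equiv.Perm (Fin (d + 1)), ψ π (π j) = ∑ π : Equiv.Perm (Fin (d + 1)), ψ π (π j') := by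
  have e1 : ∑ π : Equiv.Perm (Fin (d + 1)), (ψ π (π j) - ψ π (π j')) =
      ∑ π : Equiv.Perm (Fin (d + 1)),
        (ψ (π * Equiv.swap j j') (π j) - ψ (π * Equiv.swap j j') (π j')) :=
    Finset.sum_congr rfl fun π _ => h1 π j j' hj
  have e2 : ∑ π : Equiv.Perm (Fin (d + 1)),
        (ψ (π * Equiv.swap j j') (π j) - ψ (π * Equiv.swap j j') (π j')) =
      ∑ π : Equiv.Perm (Fin (d + 1)), (ψ π (π j') - ψ π (π j)) := by
    refine Fintype.sum_equiv (Equiv.mulRight (Equiv.swap j j')) _ _ fun π => ?_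
    simp only [Equiv.coe_mulRight, Equiv.Perm.mul_apply, Equiv.swap_apply_left,
      Equiv.swap_apply_right]
  rw [e2, Finset.sum_sub_distrib, Finset.sum_sub_distrib] at e1
  linarith

lemma flux_last {d : ℕ} (ψ : Equiv.Perm (Fin (d + 1)) → Fin (d + 1) → ℝ)
    (h1 : ∀ (π : Equiv.Perm (Fin (d + 1))) (j j' : Fin (d + 1)), (j' : ℕ) = j + 1 →
      ψ π (π j) - ψ π (π j') =
        ψ (π * Equiv.swap j j') (π j) - ψ (π * Equiv.swap j j') (π j')) :
    ∑ π : Equiv.Perm (Fin (d + 1)), ψ π (π 0) =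
      ∑ π : Equiv.Perm (Fin (d + 1)), ψ π (π (Fin.last d)) := by
  have key : ∀ k : ℕ, ∀ hk : k < d + 1, ∑ π : Equiv.Perm (Fin (d + 1)), ψ π (π 0) =
      ∑ π : Equiv.Perm (Fin (d + 1)), ψ π (π ⟨k, hk⟩) := by
    intro k
    induction k with
    | zero => intro hk; rfl
    | succ k ih =>
      intro hk
      rw [ih (by omega)]
      exact flux_swap ψ h1 ⟨k, by omega⟩ ⟨k + 1, hk⟩ rfl
  exact key d (by omega)

open Classical in
theorem flux {d : ℕ} (A : Finset (Fin (d + 1) → ℤ))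
    (ψ : (Fin (d + 1) → ℤ) → Equiv.Perm (Fin (d + 1)) → Fin (d + 1) → ℝ)
    (h1 : ∀ z ∈ A, ∀ (π : Equiv.Perm (Fin (d + 1))) (j j' : Fin (d + 1)), (j' : ℕ) = j + 1 →
      ψ z π (π j) - ψ z π (π j') =
        ψ z (π * Equiv.swap j j') (π j) - ψ z (π * Equiv.swap j j') (π j'))
    (h2 : ∀ z ∈ A, ∀ π : Equiv.Perm (Fin (d + 1)), z + uvec (π 0) ∈ A →
      ψ z π (π 0) = ψ (z + uvec (π 0)) (π * finRotate (d + 1)) (π 0)) :
    ∑ z ∈ A, ∑ π : Equiv.Perm (Fin (d + 1)),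
      ((if z + uvec (π 0) ∈ A then 0 else ψ z π (π 0)) -
        (if z - uvec (π (Fin.last d)) ∈ A then 0 else ψ z π (π (Fin.last d)))) = 0 := by
  have e1 : ∑ z ∈ A, ∑ π : Equiv.Perm (Fin (d + 1)),
      ((if z + uvec (π 0) ∈ A then 0 else ψ z π (π 0)) -
        (if z - uvec (π (Fin.last d)) ∈ A then 0 else ψ z π (π (Fin.last d)))) =
      (∑ z ∈ A, ∑ π : Equiv.Perm (Fin (d + 1)), ψ z π (π 0) -
        ∑ z ∈ A, ∑ π : Equiv.Perm (Fin (d + 1)), ψ z π (π (Fin.last d))) -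
      (∑ z ∈ A, ∑ π : Equiv.Perm (Fin (d + 1)),
          (if z + uvec (π 0) ∈ A then ψ z π (π 0) else 0) -
        ∑ z ∈ A, ∑ π : Equiv.Perm (Fin (d + 1)),
          (if z - uvec (π (Fin.last d)) ∈ A then ψ z π (π (Fin.last d)) else 0)) := by
    simp only [← Finset.sum_sub_distrib]
    refine Finset.sum_congr rfl fun z _ => Finset.sum_congr rfl fun π _ => ?_
    split_ifs <;> ring
  have e2 : ∑ z ∈ A, ∑ π : Equiv.Perm (Fin (d + 1)), ψ z π (π 0) =
      ∑ z ∈ A, ∑ π : Equiv.Perm (Fin (d + 1)), ψ z π (π (Fin.last d)) :=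
    Finset.sum_congr rfl fun z hz => flux_last (ψ z) (h1 z hz)
  have e3 : ∑ z ∈ A, ∑ π : Equiv.Perm (Fin (d + 1)),
        (if z + uvec (π 0) ∈ A then ψ z π (π 0) else 0) =
      ∑ z ∈ A, ∑ π : Equiv.Perm (Fin (d + 1)),
        (if z - uvec (π (Fin.last d)) ∈ A then ψ z π (π (Fin.last d)) else 0) := by
    rw [← Finset.sum_product', ← Finset.sum_product', ← Finset.sum_filter, ← Finset.sum_filter]
    refine Finset.sum_nbij' (fun p => (p.1 + uvec (p.2 0), p.2 * finRotate (d + 1)))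
      (fun p => (p.1 - uvec (p.2 (Fin.last d)), p.2 * (finRotate (d + 1))⁻¹)) ?_ ?_ ?_ ?_ ?_
    · rintro ⟨z, π⟩ hp
      simp only [Finset.mem_filter, Finset.mem_product, Finset.mem_univ, and_true] at hp ⊢
      rw [Equiv.Perm.mul_apply, finRotate_last, add_sub_cancel_right]
      exact ⟨hp.2, hp.1⟩
    · rintro ⟨z, π⟩ hp
      simp only [Finset.mem_filter, Finset.mem_product, Finset.mem_univ, and_true] at hp ⊢
      have h0 : (π * (finRotate (d + 1))⁻¹) 0 = π (Fin.last d) := by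
        rw [Equiv.Perm.mul_apply]
        exact congrArg π ((Equiv.symm_apply_eq _).mpr (finRotate_last (n := d)).symm)
      rw [h0, sub_add_cancel]
      exact ⟨hp.2, hp.1⟩
    · rintro ⟨z, π⟩ hp
      simp only [Equiv.Perm.mul_apply, finRotate_last, add_sub_cancel_right,
        mul_inv_cancel_right]
    · rintro ⟨z, π⟩ hp
      have h0 : (π * (finRotate (d + 1))⁻¹) 0 = π (Fin.last d) := by
        rw [Equiv.Perm.mul_apply]
        exact congrArg π ((Equiv.symm_apply_eq _).mpr (finRotate_last (n := d)).symm)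
      simp only [h0, sub_add_cancel, inv_mul_cancel_right]
    · rintro ⟨z, π⟩ hp
      simp only [Finset.mem_filter, Finset.mem_product, Finset.mem_univ, and_true] at hp
      simp only [Equiv.Perm.mul_apply, finRotate_last]
      exact h2 z hp.1 π hp.2
  rw [e1, e2, e3]
  ring

end Pool.Agent.H84Spl
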