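import Mathlib

/-! # The polynomial pieces of the one-dimensional factor of seed B -/

namespace Pool.Agent.H84Spl

open Polynomial

/-- There are `c` of degree at most `2n-2` with positive top coefficient and `G` such that
`(1-X)^(2n) c(X) - (1+X)^(2n) c(-X) = X^(2n) G`. -/
theorem hpoly (n : ℕ) (hn : 2 ≤ n) : ∃ c G : ℝ[X], c.natDegree ≤ 2 * n - 2 ∧
    0 < c.coeff (2 * n - 2) ∧
    (1 - X) ^ (2 * n) * c - (1 + X) ^ (2 * n) * c.comp (-X) = X ^ (2 * n) * G := by
  obtain ⟨k, rfl⟩ := Nat.exists_eq_add_of_le hn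
  have e2 : 2 * (2 + k) - 2 = 2 * k + 2 := by omega
  have e0 : 2 * (2 + k) = 2 * k + 4 := by ring
  rw [e2, e0]
  set m := 2 * k + 4 with hm
  have h3 : (0 : ℝ) < (m.choose 3 : ℝ) := by
    exact_mod_cast Nat.choose_pos (by omega)
  set lam : ℝ := (m : ℝ) / (m.choose 3 : ℝ) with hlam
  set W : ℝ[X] := (1 + X) ^ m * (1 - C lam * X ^ 2) with hW
  have hWc : ∀ j, W.coeff (j + 2) = (m.choose (j + 2) : ℝ) - lam * (m.choose j : ℝ) := by
    intro j
    have : W = (1 + X) ^ m - C lam * ((1 + X) ^ m * X ^ 2) := by rw [hW]; ring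
    rw [this, coeff_sub, coeff_C_mul, coeff_mul_X_pow, coeff_one_add_X_pow, coeff_one_add_X_pow]
  set c : ℝ[X] := ∑ i ∈ Finset.range (2 * k + 3), monomial i (W.coeff i) with hc
  have hcc : ∀ j, c.coeff j = if j < 2 * k + 3 then W.coeff j else 0 := by
    intro j
    rw [hc, finsetSum_coeff]
    simp only [coeff_monomial]
    split_ifs with h
    · rw [Finset.sum_eq_single j]
      · simp
      · intro b _ hb; simp [hb]
      · intro h'; exact absurd (Finset.mem_range.2 h) h'
    · apply Finset.sum_eq_zero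
      intro i hi
      rw [Finset.mem_range] at hi
      rw [if_neg]; omega
  have hdvd : X ^ m ∣ W - c := by
    rw [X_pow_dvd_iff]
    intro d hd
    rw [coeff_sub, hcc]
    split_ifs with h
    · simp
    · have hd' : d = (2 * k + 1) + 2 := by omega
      rw [hd', hWc]
      have h1 : m.choose (2 * k + 1 + 2) = m := by
        have : m.choose (2 * k + 3) = m.choose 1 := by
          apply Nat.choose_symm_of_eq_add; omega
        rw [this, Nat.choose_one_right]
      have h2 : m.choose (2 * k + 1) = m.choose 3 := by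
        apply Nat.choose_symm_of_eq_add; omega
      rw [h1, h2, hlam]
      field_simp
      ring
  obtain ⟨R, hR⟩ := hdvd
  have hcW : c = W - X ^ m * R := by rw [← hR]; ring
  refine ⟨c, (1 + X) ^ m * R.comp (-X) - (1 - X) ^ m * R, ?_, ?_, ?_⟩
  · rw [natDegree_le_iff_coeff_eq_zero]
    intro N hN
    rw [hcc, if_neg (by omega)]
  · rw [hcc, if_pos (by omega), hWc (2 * k)]
    have h1 : m.choose (2 * k + 2) = m.choose 2 := by
      apply Nat.choose_symm_of_eq_add; omega
    have h2 : m.choose (2 * k) = m.choose 4 := by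
      apply Nat.choose_symm_of_eq_add; omega
    rw [h1, h2, hlam]
    have h4 : (m.choose 4 : ℝ) * 4 = (m.choose 3 : ℝ) * ((m : ℝ) - 3) := by
      have := Nat.choose_succ_right_eq m 3
      have h5 : ((m.choose 4 * 4 : ℕ) : ℝ) = ((m.choose 3 * (m - 3) : ℕ) : ℝ) := by
        exact_mod_cast this
      push_cast at h5
      rw [Nat.cast_sub (by omega)] at h5
      exact_mod_cast h5
    have h22 : (m.choose 2 : ℝ) * 2 = (m : ℝ) * ((m : ℝ) - 1) := by
      have := Nat.choose_succ_right_eq m 1
      have h5 : ((m.choose 2 * 2 : ℕ) : ℝ) = ((m.choose 1 * (m - 1) : ℕ) : ℝ) := by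
        exact_mod_cast this
      push_cast at h5
      rw [Nat.cast_sub (by omega), Nat.choose_one_right] at h5
      exact_mod_cast h5
    have h44 : (m : ℝ) / (m.choose 3 : ℝ) * (m.choose 4 : ℝ) = (m : ℝ) * ((m : ℝ) - 3) / 4 := by
      rw [div_mul_eq_mul_div, div_eq_div_iff h3.ne' (by norm_num)]
      linear_combination (m : ℝ) * h4
    rw [h44]
    have h22' : (m.choose 2 : ℝ) = (m : ℝ) * ((m : ℝ) - 1) / 2 := by linarith
    rw [h22']
    have hm4 : (4 : ℝ) ≤ m := by
      rw [hm]; push_cast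
      have : (0 : ℝ) ≤ k := Nat.cast_nonneg k
      linarith
    nlinarith
  · have hev : (-X : ℝ[X]) ^ m = X ^ m := by
      rw [neg_pow, Even.neg_one_pow, one_mul]
      rw [hm]; exact ⟨k + 2, by ring⟩
    have hcomp : c.comp (-X) = W.comp (-X) - X ^ m * R.comp (-X) := by
      rw [hcW]
      simp only [sub_comp, Polynomial.mul_comp, Polynomial.pow_comp, X_comp, hev]
    have hWcomp : W.comp (-X) = (1 - X) ^ m * (1 - C lam * X ^ 2) := by
      rw [hW]
      simp only [sub_comp, add_comp, Polynomial.mul_comp, Polynomial.pow_comp, X_comp, one_comp, C_comp]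
      ring
    rw [hcomp, hWcomp, hcW, hW]
    ring

end Pool.Agent.H84Spl
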