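import Pool.Agent.H84Spl.Pow
import Pool.Agent.H84Spl.HPoly

/-! # The one-dimensional factor of seed B -/

namespace Pool.Agent.H84Spl

open Polynomial in
theorem hspl (n : ℕ) (hn : 2 ≤ n) : ∃ (q : ℝ → ℝ) (Q : ℤ → Polynomial ℝ) (t₀ : ℝ), 0 < t₀ ∧
    ContDiff ℝ ((2 * n - 1 : ℕ) : WithTop ℕ∞) q ∧
    (∀ κ : ℤ, ∀ t : ℝ, (κ : ℝ) ≤ t → t ≤ κ + 1 → q t = (Q κ).eval t) ∧
    (∀ κ, (Q κ).natDegree ≤ 4 * n - 2) ∧
    (∀ κ, (Q κ).coeff (4 * n - 2) = 0 ∨ (Q κ).coeff (4 * n - 2) = t₀) ∧
    (Q 0).coeff (4 * n - 2) = t₀ ∧ ∀ t : ℝ, 1 < |t| → q t = 0 := by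
  obtain ⟨c, G, hdeg, hpos, hG⟩ := hpoly n hn
  have hev : Even (2 * n) := even_two_mul n
  have h2n : 2 * n - 1 + 1 = 2 * n := by omega
  have hGe : ∀ t : ℝ, (1 - t) ^ (2 * n) * c.eval t - (1 + t) ^ (2 * n) * c.eval (-t)
      = t ^ (2 * n) * G.eval t := by
    intro t
    have := congrArg (Polynomial.eval t) hG
    simpa [Polynomial.eval_comp] using this
  have hcd : c.natDegree = 2 * n - 2 := by
    apply le_antisymm hdeg
    apply Polynomial.le_natDegree_of_ne_zero hpos.ne'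
  have hnd : (c.comp (-X)).natDegree = c.natDegree :=
    natDegree_eq_of_degree_eq degree_comp_neg_X
  have hcn : (c.comp (-X)).coeff (2 * n - 2) = c.coeff (2 * n - 2) := by
    have h1 := comp_neg_X_leadingCoeff_eq c
    rw [Polynomial.leadingCoeff, Polynomial.leadingCoeff, hnd, hcd] at h1
    rw [h1]
    have : Even (2 * n - 2) := by
      rw [show 2 * n - 2 = 2 * (n - 1) by omega]; exact even_two_mul _
    rw [this.neg_one_pow, one_mul]
  have hd1 : ((1 : ℝ[X]) + X).natDegree ≤ 1 := by compute_degree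
  have hd2 : ((1 : ℝ[X]) - X).natDegree ≤ 1 := by compute_degree
  have hp1 : (((1 : ℝ[X]) + X) ^ (2 * n)).natDegree ≤ 2 * n := by
    have := natDegree_pow_le_of_le (2 * n) hd1
    simpa using this
  have hp2 : (((1 : ℝ[X]) - X) ^ (2 * n)).natDegree ≤ 2 * n := by
    have := natDegree_pow_le_of_le (2 * n) hd2
    simpa using this
  have hc1 : (((1 : ℝ[X]) + X) ^ (2 * n)).coeff (2 * n) = 1 := by
    have := coeff_pow_of_natDegree_le (m := 2 * n) hd1
    rw [mul_one] at this
    rw [this]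
    simp [Polynomial.coeff_one]
  have hc2 : (((1 : ℝ[X]) - X) ^ (2 * n)).coeff (2 * n) = 1 := by
    have := coeff_pow_of_natDegree_le (m := 2 * n) hd2
    rw [mul_one] at this
    rw [this]
    simp [Polynomial.coeff_one]
  have e4 : 4 * n - 2 = 2 * n + (2 * n - 2) := by omega
  have hdn : (c.comp (-X)).natDegree ≤ 2 * n - 2 := by rw [hnd]; exact hdeg
  refine ⟨fun t => (max (t + 1) 0) ^ (2 * n) * c.eval (-t) + (max t 0) ^ (2 * n) * G.eval t
      - (max (t - 1) 0) ^ (2 * n) * c.eval t,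
    fun κ => if κ = -1 then (1 + X) ^ (2 * n) * c.comp (-X)
      else if κ = 0 then (1 - X) ^ (2 * n) * c else 0,
    c.coeff (2 * n - 2), hpos, ?_, ?_, ?_, ?_, ?_, ?_⟩
  · have hpc : ∀ p : ℝ[X], ContDiff ℝ ((2 * n - 1 : ℕ) : WithTop ℕ∞) (fun t => p.eval t) := by
      intro p
      have := Polynomial.contDiff_aeval (𝕜 := ℝ) (R := ℝ) p ((2 * n - 1 : ℕ) : WithTop ℕ∞)
      simpa [Polynomial.aeval_def, Polynomial.eval₂_id] using this
    have hm := contDiff_max_pow (2 * n - 1)
    rw [h2n] at hm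
    refine ContDiff.sub (ContDiff.add (ContDiff.mul ?_ ?_) (ContDiff.mul hm ?_)) (ContDiff.mul ?_ ?_)
    · exact hm.comp (contDiff_id.add contDiff_const)
    · exact (hpc c).comp contDiff_neg
    · exact hpc G
    · exact hm.comp (contDiff_id.sub contDiff_const)
    · exact hpc c
  · intro κ t h1 h2
    dsimp only
    have key0 : ∀ t : ℝ, 0 ≤ t → (t + 1) ^ (2 * n) * c.eval (-t) + t ^ (2 * n) * G.eval t
        = (1 - t) ^ (2 * n) * c.eval t := by
      intro t _
      rw [← hGe t]; ring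
    have hne : (2 * n) ≠ 0 := by omega
    rcases lt_trichotomy κ 0 with hk | hk | hk
    · have hk0 : κ ≠ 0 := hk.ne
      have hκ : (κ : ℝ) + 1 ≤ 0 := by exact_mod_cast hk
      have ht0 : t ≤ 0 := h2.trans hκ
      rw [max_eq_right ht0, max_eq_right (by linarith : t - 1 ≤ 0), zero_pow hne]
      by_cases hk1 : κ = -1
      · subst hk1
        rw [max_eq_left (by push_cast at h1; linarith)]
        simp [Polynomial.eval_comp, add_comm]
      · have : κ + 1 ≤ -1 := by omega
        have hκ' : (κ : ℝ) + 1 ≤ -1 := by exact_mod_cast this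
        rw [max_eq_right (by linarith : t + 1 ≤ 0), zero_pow hne]
        simp [hk0, hk1]
    · subst hk
      push_cast at h1 h2
      rw [max_eq_left (by linarith : (0:ℝ) ≤ t + 1), max_eq_left h1,
        max_eq_right (by linarith : t - 1 ≤ 0), zero_pow hne, key0 t h1]
      simp
    · have hk0 : κ ≠ 0 := hk.ne'
      have hk1 : κ ≠ -1 := by omega
      have hκ : (1 : ℝ) ≤ κ := by exact_mod_cast hk
      rw [max_eq_left (by linarith : (0:ℝ) ≤ t + 1), max_eq_left (by linarith : (0:ℝ) ≤ t),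
        max_eq_left (by linarith : (0:ℝ) ≤ t - 1), key0 t (by linarith)]
      have : (t - 1) ^ (2 * n) = (1 - t) ^ (2 * n) := by
        rw [← hev.neg_pow]; ring_nf
      rw [this]
      simp [hk0, hk1]
  · intro κ
    dsimp only
    split_ifs
    · rw [e4]; exact natDegree_mul_le_of_le hp1 hdn
    · rw [e4]; exact natDegree_mul_le_of_le hp2 hdeg
    · simp
  · intro κ
    dsimp only
    rw [e4]
    split_ifs
    · right
      rw [coeff_mul_add_eq_of_natDegree_le hp1 hdn, hc1, hcn, one_mul]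
    · right
      rw [coeff_mul_add_eq_of_natDegree_le hp2 hdeg, hc2, one_mul]
    · left; simp
  · dsimp only
    rw [if_neg (by norm_num), if_pos rfl, e4, coeff_mul_add_eq_of_natDegree_le hp2 hdeg, hc2, one_mul]
  · intro t ht
    dsimp only
    have hne : (2 * n) ≠ 0 := by omega
    rcases lt_abs.1 ht with h | h
    · rw [max_eq_left (by linarith : (0:ℝ) ≤ t + 1), max_eq_left (by linarith : (0:ℝ) ≤ t),
        max_eq_left (by linarith : (0:ℝ) ≤ t - 1)]
      have := hGe t
      have h3 : (t - 1) ^ (2 * n) = (1 - t) ^ (2 * n) := by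
        rw [← hev.neg_pow]; ring_nf
      rw [h3, ← this]; ring
    · rw [max_eq_right (by linarith : t + 1 ≤ 0), max_eq_right (by linarith : t ≤ 0),
        max_eq_right (by linarith : t - 1 ≤ 0), zero_pow hne]
      ring

end Pool.Agent.H84Spl
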