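import Pool.Agent.H84Spl.Def

/-! # The vertices of a Kuhn simplex are `s+1` affinely independent points -/

namespace Pool.Agent.H84Spl

theorem kvert_ne {s : ℕ} (z : Fin s → ℤ) (π : Equiv.Perm (Fin s)) {j j' : ℕ} (h : j < j')
    (hj' : j' ≤ s) : kvert z π j ≠ kvert z π j' := by
  intro he
  have h1 := congrFun he (π ⟨j, by omega⟩)
  unfold kvert at h1
  simp only [Equiv.symm_apply_apply] at h1
  rw [if_neg (by simp), if_pos h] at h1
  linarith

theorem kvert_injOn {s : ℕ} (z : Fin s → ℤ) (π : Equiv.Perm (Fin s)) :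
    Set.InjOn (kvert z π) (Finset.range (s + 1) : Set ℕ) := by
  intro a ha b hb hab
  have ha' : a < s + 1 := by simpa using ha
  have hb' : b < s + 1 := by simpa using hb
  rcases lt_trichotomy a b with h | h | h
  · exact absurd hab (kvert_ne z π h (by omega))
  · exact h
  · exact absurd hab.symm (kvert_ne z π h (by omega))

theorem ksimp_card {s : ℕ} (z : Fin s → ℤ) (π : Equiv.Perm (Fin s)) :
    (ksimp z π).card = s + 1 := by
  classical
  unfold ksimp
  rw [Finset.card_image_of_injOn (kvert_injOn z π), Finset.card_range]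

theorem kvert_affineIndependent {s : ℕ} (z : Fin s → ℤ) (π : Equiv.Perm (Fin s)) :
    AffineIndependent ℝ (fun j : Fin (s + 1) => kvert z π j) := by
  classical
  rw [affineIndependent_iff]
  intro t w hw hs
  have key : ∀ k : ℕ, k < s → ∑ j ∈ t.filter (fun j : Fin (s + 1) => k < (j : ℕ)), w j = 0 := by
    intro k hk
    have h1 := congrFun hs (π ⟨k, hk⟩)
    rw [Finset.sum_apply] at h1
    simp only [Pi.smul_apply, smul_eq_mul, kvert, Equiv.symm_apply_apply, mul_add,
      Pi.zero_apply] at h1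
    rw [Finset.sum_add_distrib, ← Finset.sum_mul, hw, zero_mul, zero_add] at h1
    rw [Finset.sum_filter]
    refine Eq.trans (Finset.sum_congr rfl fun j _ => ?_) h1
    split_ifs <;> simp
  intro j0 hj0
  have h1 : ∑ j ∈ t.filter (fun j : Fin (s + 1) => (j0 : ℕ) ≤ (j : ℕ)), w j = 0 := by
    rcases Nat.eq_zero_or_pos (j0 : ℕ) with h0 | h0
    · rw [Finset.filter_true_of_mem (fun j _ => by omega)]
      exact hw
    · rw [← key ((j0 : ℕ) - 1) (by have := j0.2; omega)]
      refine Finset.sum_congr (Finset.filter_congr fun j _ => by omega) fun _ _ => rfl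
  have h2 : ∑ j ∈ t.filter (fun j : Fin (s + 1) => (j0 : ℕ) < (j : ℕ)), w j = 0 := by
    by_cases h : (j0 : ℕ) < s
    · exact key _ h
    · rw [Finset.filter_false_of_mem (fun j _ => by have := j.2; omega)]
      simp
  have h3 : (t.filter fun j : Fin (s + 1) => (j0 : ℕ) ≤ (j : ℕ)) =
      insert j0 (t.filter fun j : Fin (s + 1) => (j0 : ℕ) < (j : ℕ)) := by
    ext j
    simp only [Finset.mem_filter, Finset.mem_insert]
    constructor
    · rintro ⟨ha, hb⟩
      rcases Nat.lt_or_ge (j0 : ℕ) (j : ℕ) with hlt | hge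
      · exact Or.inr ⟨ha, hlt⟩
      · exact Or.inl (Fin.ext (by omega))
    · rintro (rfl | ⟨ha, hb⟩)
      · exact ⟨hj0, le_rfl⟩
      · exact ⟨ha, by omega⟩
  rw [h3, Finset.sum_insert (by simp), h2, add_zero] at h1
  exact h1

theorem ksimp_indep {s : ℕ} (z : Fin s → ℤ) (π : Equiv.Perm (Fin s)) :
    AffineIndependent ℝ (fun v : ksimp z π => (v : Fin s → ℝ)) := by
  classical
  have h := (kvert_affineIndependent z π).range
  have hsub : (ksimp z π : Set (Fin s → ℝ)) ⊆ Set.range (fun j : Fin (s + 1) => kvert z π j) := by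
    intro x hx
    have hx' : x ∈ ksimp z π := hx
    unfold ksimp at hx'
    rw [Finset.mem_image] at hx'
    obtain ⟨j, hj, rfl⟩ := hx'
    exact ⟨⟨j, by simpa using hj⟩, rfl⟩
  exact h.mono hsub

end Pool.Agent.H84Spl
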