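import Pool.Agent.H84Spl.Conv

/-! # Two Kuhn simplices meet in the face spanned by their common vertices -/

namespace Pool.Agent.H84Spl

/-- The sorted fractional parts, extended by `1` on the left and by `0` on the right. -/
noncomputable def fracT {s : ℕ} (z : Fin s → ℤ) (π : Equiv.Perm (Fin s)) (x : Fin s → ℝ) : ℕ → ℝ
  | 0 => 1
  | n + 1 => if h : n < s then x (π ⟨n, h⟩) - z (π ⟨n, h⟩) else 0

lemma fracT_zero {s : ℕ} (z : Fin s → ℤ) (π : Equiv.Perm (Fin s)) (x : Fin s → ℝ) :
    fracT z π x 0 = 1 := rfl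

lemma fracT_succ {s : ℕ} (z : Fin s → ℤ) (π : Equiv.Perm (Fin s)) (x : Fin s → ℝ) (n : ℕ) :
    fracT z π x (n + 1) = if h : n < s then x (π ⟨n, h⟩) - z (π ⟨n, h⟩) else 0 := rfl

lemma fracT_antitone {s : ℕ} {z : Fin s → ℤ} {π : Equiv.Perm (Fin s)} {x : Fin s → ℝ}
    (hx : x ∈ kcell z π) : Antitone (fracT z π x) := by
  refine antitone_nat_of_succ_le fun n => ?_
  cases n with
  | zero =>
    rw [fracT_zero, fracT_succ]
    split_ifs with h
    · have := (hx.1 (π ⟨0, h⟩)).2
      linarith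
    · norm_num
  | succ n =>
    rw [fracT_succ, fracT_succ]
    by_cases h1 : n + 1 < s
    · have h2 : n < s := by omega
      rw [dif_pos h1, dif_pos h2]
      exact hx.2 ⟨n, h2⟩ ⟨n + 1, h1⟩ (by
        rw [Fin.le_def]
        simp)
    · rw [dif_neg h1]
      split_ifs with h2
      · have := (hx.1 (π ⟨n, h2⟩)).1
        linarith
      · exact le_rfl

lemma fracT_symm {s : ℕ} (z : Fin s → ℤ) (π : Equiv.Perm (Fin s)) (x : Fin s → ℝ) (i : Fin s) :
    fracT z π x ((π.symm i : ℕ) + 1) = x i - z i := by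
  rw [fracT, dif_pos (π.symm i).isLt]
  simp

lemma fracT_last {s : ℕ} (z : Fin s → ℤ) (π : Equiv.Perm (Fin s)) (x : Fin s → ℝ) :
    fracT z π x (s + 1) = 0 := by
  rw [fracT, dif_neg (lt_irrefl _)]

lemma sum_after (T : ℕ → ℝ) (a : ℕ) (n : ℕ) : ∑ j ∈ Finset.range n,
    (if a < j then T j - T (j + 1) else 0) = if a < n then T (a + 1) - T n else 0 := by
  induction n with
  | zero => simp
  | succ n ih =>
    rw [Finset.sum_range_succ, ih]
    rcases lt_trichotomy a n with h | h | h
    · rw [if_pos h, if_pos h, if_pos (by omega)]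
      ring
    · subst h
      simp
    · rw [if_neg (by omega), if_neg (by omega), if_neg (by omega)]
      ring

/-- Every point of a cell is an explicit combination of the vertices. -/
lemma sum_fracT {s : ℕ} (z : Fin s → ℤ) (π : Equiv.Perm (Fin s)) (x : Fin s → ℝ) :
    ∑ j ∈ Finset.range (s + 1), (fracT z π x j - fracT z π x (j + 1)) = 1 ∧
    ∑ j ∈ Finset.range (s + 1), (fracT z π x j - fracT z π x (j + 1)) • kvert z π j = x := by
  have h1 : ∑ j ∈ Finset.range (s + 1), (fracT z π x j - fracT z π x (j + 1)) = 1 := by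
    rw [Finset.sum_range_sub', fracT_last]
    simp [fracT]
  refine ⟨h1, ?_⟩
  funext i
  rw [Finset.sum_apply]
  have h2 : ∀ j ∈ Finset.range (s + 1),
      ((fracT z π x j - fracT z π x (j + 1)) • kvert z π j) i =
      (fracT z π x j - fracT z π x (j + 1)) * z i +
        (if (π.symm i : ℕ) < j then fracT z π x j - fracT z π x (j + 1) else 0) := by
    intro j _
    rw [Pi.smul_apply, smul_eq_mul]
    unfold kvert
    split_ifs <;> ring
  rw [Finset.sum_congr rfl h2, Finset.sum_add_distrib, ← Finset.sum_mul, h1, sum_after,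
    if_pos (by have := (π.symm i).isLt; omega), fracT_symm, fracT_last]
  ring

/-- The vertices with a positive weight are roundings. -/
lemma vert_eq_floor {s : ℕ} {z : Fin s → ℤ} {π : Equiv.Perm (Fin s)} {x : Fin s → ℝ}
    (hx : x ∈ kcell z π) {j : ℕ} (hj : 0 < fracT z π x j - fracT z π x (j + 1)) (hjs : j ≤ s) :
    ∃ θ : ℝ, 0 ≤ θ ∧ θ < 1 ∧ ∀ i, kvert z π j i = ((⌊x i + θ⌋ : ℤ) : ℝ) := by
  have hT := fracT_antitone hx
  have h0 : fracT z π x 0 = 1 := rfl
  have h1 : fracT z π x j ≤ 1 := by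
    rw [← h0]
    exact hT (Nat.zero_le j)
  have h2 : 0 ≤ fracT z π x (j + 1) := by
    rw [← fracT_last z π x]
    exact hT (by omega)
  refine ⟨1 - fracT z π x j, by linarith, by linarith, fun i => ?_⟩
  have h3 := fracT_symm z π x i
  obtain ⟨a1, a2⟩ := hx.1 i
  unfold kvert
  split_ifs with h
  · have h4 : fracT z π x j ≤ fracT z π x ((π.symm i : ℕ) + 1) := hT (by omega)
    have h5 : ⌊x i + (1 - fracT z π x j)⌋ = z i + 1 := by
      rw [Int.floor_eq_iff]
      push_cast
      constructor <;> linarith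
    rw [h5]
    push_cast
    ring
  · have h4 : fracT z π x ((π.symm i : ℕ) + 1) ≤ fracT z π x (j + 1) := hT (by omega)
    have h5 : ⌊x i + (1 - fracT z π x j)⌋ = z i := by
      rw [Int.floor_eq_iff]
      constructor <;> linarith
    rw [h5]
    ring

/-- All roundings of a point of a cell are vertices of the cell. -/
lemma floor_eq_vert {s : ℕ} {z : Fin s → ℤ} {π : Equiv.Perm (Fin s)} {x : Fin s → ℝ}
    (hx : x ∈ kcell z π) {θ : ℝ} (hθ0 : 0 ≤ θ) (hθ1 : θ < 1) :
    (fun i => ((⌊x i + θ⌋ : ℤ) : ℝ)) ∈ ksimp z π := by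
  classical
  have hT := fracT_antitone hx
  have hex : ∃ j, fracT z π x (j + 1) < 1 - θ := ⟨s, by rw [fracT_last]; linarith⟩
  set j := Nat.find hex with hj
  have hj1 : fracT z π x (j + 1) < 1 - θ := Nat.find_spec hex
  have hj2 : ∀ a, a < j → 1 - θ ≤ fracT z π x (a + 1) := by
    intro a ha
    have := Nat.find_min hex ha
    push Not at this
    exact this
  have hjs : j ≤ s := Nat.find_min' hex (by rw [fracT_last]; linarith)
  unfold ksimp
  rw [Finset.mem_image]
  refine ⟨j, Finset.mem_range.mpr (by omega), ?_⟩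
  funext i
  have h3 := fracT_symm z π x i
  obtain ⟨a1, a2⟩ := hx.1 i
  unfold kvert
  split_ifs with h
  · have h4 := hj2 _ h
    have h5 : ⌊x i + θ⌋ = z i + 1 := by
      rw [Int.floor_eq_iff]
      push_cast
      constructor <;> linarith
    rw [h5]
    push_cast
    ring
  · have h4 : fracT z π x ((π.symm i : ℕ) + 1) ≤ fracT z π x (j + 1) := hT (by omega)
    have h5 : ⌊x i + θ⌋ = z i := by
      rw [Int.floor_eq_iff]
      constructor <;> linarith
    rw [h5]
    ring

theorem ksimp_inter {s : ℕ} (z z' : Fin s → ℤ) (π π' : Equiv.Perm (Fin s)) :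
    convexHull ℝ (ksimp z π : Set (Fin s → ℝ)) ∩ convexHull ℝ (ksimp z' π' : Set (Fin s → ℝ)) =
      convexHull ℝ ((ksimp z π : Set (Fin s → ℝ)) ∩ (ksimp z' π' : Set (Fin s → ℝ))) := by
  classical
  refine Set.Subset.antisymm ?_ (Set.subset_inter (convexHull_mono Set.inter_subset_left)
    (convexHull_mono Set.inter_subset_right))
  rintro x ⟨hx1, hx2⟩
  rw [convexHull_ksimp] at hx1 hx2
  obtain ⟨h1, h2⟩ := sum_fracT z π x
  have hT := fracT_antitone hx1
  set l : ℕ → ℝ := fun j => fracT z π x j - fracT z π x (j + 1) with hl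
  have hl0 : ∀ j, 0 ≤ l j := fun j => sub_nonneg.mpr (hT (Nat.le_succ j))
  set F := (Finset.range (s + 1)).filter (fun j => 0 < l j) with hF
  have hz : ∀ j ∈ Finset.range (s + 1), j ∉ F → l j = 0 := by
    intro j hj hjF
    rw [hF, Finset.mem_filter] at hjF
    push Not at hjF
    exact le_antisymm (hjF hj) (hl0 j)
  have e1 : ∑ j ∈ F, l j = 1 := by
    rw [← h1]
    exact Finset.sum_subset (Finset.filter_subset _ _) hz
  have e2 : ∑ j ∈ F, l j • kvert z π j = x := by
    conv_rhs => rw [← h2]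
    refine Finset.sum_subset (Finset.filter_subset _ _) fun j hj hjF => ?_
    rw [hz j hj hjF, zero_smul]
  rw [← e2]
  refine (convex_convexHull ℝ _).sum_mem (fun j _ => hl0 j) e1 fun j hj => ?_
  rw [hF, Finset.mem_filter, Finset.mem_range] at hj
  refine subset_convexHull ℝ _ ⟨?_, ?_⟩
  · rw [Finset.mem_coe]
    unfold ksimp
    exact Finset.mem_image_of_mem _ (Finset.mem_range.mpr hj.1)
  · obtain ⟨θ, t0, t1, t2⟩ := vert_eq_floor hx1 hj.2 (by omega)
    rw [Finset.mem_coe]
    have := floor_eq_vert hx2 t0 t1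
    have e3 : kvert z π j = fun i => ((⌊x i + θ⌋ : ℤ) : ℝ) := funext t2
    rw [e3]
    exact this

end Pool.Agent.H84Spl
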