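import Pool.Agent.H84Spl.Def

/-! # Grouping of `L_a - L_b` -/

namespace Pool.Agent.H84Spl

open MvPolynomial

/-- The complement of `{a, b}`. -/
def kS {m : ℕ} (a b : Fin m) : Finset (Fin m) := Finset.univ.filter fun l => l ≠ a ∧ l ≠ b

theorem mem_kS {m : ℕ} (a b l : Fin m) : l ∈ kS a b ↔ l ≠ a ∧ l ≠ b := by simp [kS]

theorem kS_comm {m : ℕ} (a b : Fin m) : kS a b = kS b a := by
  ext l; simp only [mem_kS]; tauto

theorem univ_eq_kS {m : ℕ} (a b : Fin m) :
    (Finset.univ : Finset (Fin m)) = insert a (insert b (kS a b)) := by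
  ext l
  simp only [Finset.mem_univ, Finset.mem_insert, mem_kS, true_iff]
  tauto

theorem kgroup {A : Type} [CommSemiring A] {m : ℕ} (N : ℕ) (a b : Fin m) (hab : a ≠ b)
    (f : ℕ → ℕ → A) (g : Fin m → ℕ → A) :
    ∑ u ∈ Finset.piAntidiag Finset.univ N, f (u a) (u b) * ∏ l ∈ kS a b, g l (u l) =
      ∑ M ∈ Finset.range (N + 1),
        (∑ u ∈ Finset.piAntidiag (kS a b) (N - M), ∏ l ∈ kS a b, g l (u l)) *
          ∑ p ∈ Finset.HasAntidiagonal.antidiagonal M, f p.1 p.2 := by
  have haS : a ∉ kS a b := by simp [mem_kS]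
  have hbS : b ∉ kS a b := by simp [mem_kS]
  have hR : ∀ M ∈ Finset.range (N + 1),
      (∑ u ∈ Finset.piAntidiag (kS a b) (N - M), ∏ l ∈ kS a b, g l (u l)) *
          ∑ p ∈ Finset.HasAntidiagonal.antidiagonal M, f p.1 p.2 =
      ∑ q ∈ (Finset.piAntidiag (kS a b) (N - M)) ×ˢ (Finset.HasAntidiagonal.antidiagonal M),
        (∏ l ∈ kS a b, g l (q.1 l)) * f q.2.1 q.2.2 := by
    intro M _
    rw [Finset.sum_mul_sum, Finset.sum_product]
  rw [Finset.sum_congr rfl hR]
  rw [Finset.sum_sigma']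
  have hsum : ∀ u : Fin m → ℕ, ∑ l, u l = u a + u b + ∑ l ∈ kS a b, u l := by
    intro u
    rw [univ_eq_kS a b, Finset.sum_insert, Finset.sum_insert hbS, add_assoc]
    simp [haS, hab]
  refine Finset.sum_bij'
    (fun u _ => (⟨u a + u b, (fun l => if l ∈ kS a b then u l else 0, (u a, u b))⟩ :
      (_ : ℕ) × ((Fin m → ℕ) × (ℕ × ℕ))))
    (fun q _ => fun l => if l = a then q.2.2.1 else if l = b then q.2.2.2 else q.2.1 l)
    ?_ ?_ ?_ ?_ ?_
  · intro u hu
    rw [Finset.mem_piAntidiag] at hu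
    have h1 := hsum u
    have h2 : ∑ l, u l = N := hu.1
    simp only [Finset.mem_sigma, Finset.mem_range, Finset.mem_product, Finset.mem_piAntidiag,
      Finset.HasAntidiagonal.mem_antidiagonal]
    refine ⟨by omega, ⟨?_, ?_⟩, trivial⟩
    · have h3 : ∑ l ∈ kS a b, (if l ∈ kS a b then u l else 0) = ∑ l ∈ kS a b, u l :=
        Finset.sum_congr rfl fun l hl => by simp [hl]
      rw [h3]; omega
    · intro l hl
      by_contra h
      simp [h] at hl
  · intro q hq
    simp only [Finset.mem_sigma, Finset.mem_range, Finset.mem_product, Finset.mem_piAntidiag,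
      Finset.HasAntidiagonal.mem_antidiagonal] at hq
    obtain ⟨hM, ⟨h1, h2⟩, h3⟩ := hq
    rw [Finset.mem_piAntidiag]
    refine ⟨?_, fun _ _ => Finset.mem_univ _⟩
    rw [hsum]
    have h4 : ∑ l ∈ kS a b, (if l = a then q.2.2.1 else if l = b then q.2.2.2 else q.2.1 l) =
        ∑ l ∈ kS a b, q.2.1 l := Finset.sum_congr rfl fun l hl => by
      rw [mem_kS] at hl; simp [hl.1, hl.2]
    rw [h4]
    simp only [if_true, Ne.symm hab, if_false]
    have h1' : ∑ l ∈ kS a b, q.2.1 l = N - q.1 := h1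
    omega
  · intro u hu
    funext l
    by_cases h1 : l = a
    · simp [h1]
    · by_cases h2 : l = b
      · subst h2; simp [h1]
      · have : l ∈ kS a b := by rw [mem_kS]; exact ⟨h1, h2⟩
        simp [h1, h2, this]
  · intro q hq
    simp only [Finset.mem_sigma, Finset.mem_range, Finset.mem_product, Finset.mem_piAntidiag,
      Finset.HasAntidiagonal.mem_antidiagonal] at hq
    obtain ⟨hM, ⟨h1, h2⟩, h3⟩ := hq
    obtain ⟨M, u, p1, p2⟩ := q
    simp only at h1 h2 h3 hM
    subst h3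
    have h5 : (fun l => if l ∈ kS a b then
        (if l = a then p1 else if l = b then p2 else u l) else 0) = u := by
      funext l
      by_cases hl : l ∈ kS a b
      · have := (mem_kS a b l).1 hl
        simp [hl, this.1, this.2]
      · have : u l = 0 := by
          by_contra h
          exact hl (h2 l h)
        simp [hl, this]
    simp only [if_true, Ne.symm hab, if_false, h5]
  · intro u hu
    have h4 : ∏ l ∈ kS a b, g l (if l ∈ kS a b then u l else 0) = ∏ l ∈ kS a b, g l (u l) :=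
      Finset.prod_congr rfl fun l hl => by simp [hl]
    simp only [h4]
    rw [mul_comm]

theorem Lpoly_group (n d : ℕ) (a b : Fin (d + 2)) (hab : a ≠ b) :
    Lpoly n d a = ∑ M ∈ Finset.range (n - 1 + 1),
      (∑ u ∈ Finset.piAntidiag (kS a b) (n - 1 - M), ∏ l ∈ kS a b,
        (C (kp n (u l)) * X l ^ (2 * n + 2 * u l) : MvPolynomial (Fin (d + 2)) ℝ)) *
      ∑ ab ∈ Finset.HasAntidiagonal.antidiagonal M, (km n ab.1 * kp n ab.2) •
          ((X a : MvPolynomial (Fin (d + 2)) ℝ) ^ (2 * ab.1) * X b ^ (2 * n + 2 * ab.2)) := by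
  rw [← kgroup (n - 1) a b hab
    (fun i j => (km n i * kp n j) •
      ((X a : MvPolynomial (Fin (d + 2)) ℝ) ^ (2 * i) * X b ^ (2 * n + 2 * j)))
    (fun l i => (C (kp n i) * X l ^ (2 * n + 2 * i) : MvPolynomial (Fin (d + 2)) ℝ))]
  unfold Lpoly
  refine Finset.sum_congr rfl fun u _ => ?_
  have haS : a ∉ insert b (kS a b) := by simp [mem_kS, hab]
  have hbS : b ∉ kS a b := by simp [mem_kS]
  rw [univ_eq_kS a b, Finset.prod_insert haS, Finset.prod_insert hbS]
  have h4 : ∏ l ∈ kS a b, (if l = a then C (km n (u l)) * X l ^ (2 * u l)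
      else C (kp n (u l)) * X l ^ (2 * n + 2 * u l) : MvPolynomial (Fin (d + 2)) ℝ) =
      ∏ l ∈ kS a b, (C (kp n (u l)) * X l ^ (2 * n + 2 * u l) : MvPolynomial (Fin (d + 2)) ℝ) :=
    Finset.prod_congr rfl fun l hl => by
      rw [mem_kS] at hl; simp [hl.1]
  rw [h4]
  simp only [if_true, Ne.symm hab, if_false]
  rw [smul_eq_C_mul, C_mul]
  ring

/-- Grouping of `L_a - L_b`: it is a combination of the kernels in the two variables `X_a, X_b`
with coefficients free of these two variables. -/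
theorem Lpoly_sub_eq (n d : ℕ) (a b : Fin (d + 2)) (hab : a ≠ b) :
    ∃ R : ℕ → MvPolynomial (Fin (d + 2)) ℝ, (∀ M, a ∉ (R M).vars ∧ b ∉ (R M).vars) ∧
      Lpoly n d a - Lpoly n d b = ∑ M ∈ Finset.range (n - 1 + 1), R M *
        ∑ ab ∈ Finset.HasAntidiagonal.antidiagonal M, (km n ab.1 * kp n ab.2) •
          ((X a : MvPolynomial (Fin (d + 2)) ℝ) ^ (2 * ab.1) * X b ^ (2 * n + 2 * ab.2) -
            X b ^ (2 * ab.1) * X a ^ (2 * n + 2 * ab.2)) := by
  classical
  refine ⟨fun M => ∑ u ∈ Finset.piAntidiag (kS a b) (n - 1 - M), ∏ l ∈ kS a b,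
        (C (kp n (u l)) * X l ^ (2 * n + 2 * u l) : MvPolynomial (Fin (d + 2)) ℝ), ?_, ?_⟩
  · intro M
    have key : (∑ u ∈ Finset.piAntidiag (kS a b) (n - 1 - M), ∏ l ∈ kS a b,
        (C (kp n (u l)) * X l ^ (2 * n + 2 * u l) : MvPolynomial (Fin (d + 2)) ℝ)).vars ⊆
        kS a b := by
      refine (vars_sum_subset _ _).trans ?_
      rw [Finset.biUnion_subset]
      intro u _
      refine (vars_prod _).trans ?_
      rw [Finset.biUnion_subset]
      intro l hl
      refine (vars_mul _ _).trans ?_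
      rw [vars_C, Finset.empty_union]
      refine (vars_pow _ _).trans ?_
      rw [vars_X]
      simpa using hl
    constructor
    · intro h; have := key h; simp [mem_kS] at this
    · intro h; have := key h; simp [mem_kS] at this
  · rw [Lpoly_group n d a b hab, Lpoly_group n d b a (Ne.symm hab), ← Finset.sum_sub_distrib]
    refine Finset.sum_congr rfl fun M _ => ?_
    rw [kS_comm b a, ← mul_sub, ← Finset.sum_sub_distrib]
    congr 1
    refine Finset.sum_congr rfl fun p _ => ?_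
    rw [← smul_sub]

end Pool.Agent.H84Spl
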