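import Pool.Agent.H84Spl.EPD
import Pool.Agent.H84Spl.KillG

/-! # `(∂_a - ∂_b)^(2n)` kills `L_a - L_b` -/

namespace Pool.Agent.H84Spl

open MvPolynomial

/-- the operator `∂_a - ∂_b` -/
noncomputable def dab {σ : Type} (a b : σ) (L : MvPolynomial σ ℝ) :
    MvPolynomial σ ℝ := pderiv a L - pderiv b L

/-- the operator `∂_a - ∂_b` as a derivation -/
noncomputable def dabD {σ : Type} (a b : σ) :
    Derivation ℝ (MvPolynomial σ ℝ) (MvPolynomial σ ℝ) := pderiv a - pderiv b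

lemma dab_eq {σ : Type} (a b : σ) (L : MvPolynomial σ ℝ) : dab a b L = dabD a b L := rfl

lemma dab_iterate_eq {σ : Type} (a b : σ) (m : ℕ) (L : MvPolynomial σ ℝ) :
    (dab a b)^[m] L = ((dabD a b : MvPolynomial σ ℝ →ₗ[ℝ] MvPolynomial σ ℝ) ^ m) L := by
  rw [Module.End.pow_apply]
  rfl

lemma dab_sub {σ : Type} {a b : σ} (hab : a ≠ b) :
    dabD a b (X a - X b : MvPolynomial σ ℝ) = 2 := by
  classical
  change pderiv a (X a - X b : MvPolynomial σ ℝ) - pderiv b (X a - X b : MvPolynomial σ ℝ) = 2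
  rw [map_sub, map_sub, pderiv_X_self, pderiv_X_self, pderiv_X_of_ne hab, pderiv_X_of_ne hab.symm]
  ring

lemma dab_add {σ : Type} {a b : σ} (hab : a ≠ b) :
    dabD a b (X a + X b : MvPolynomial σ ℝ) = 0 := by
  classical
  change pderiv a (X a + X b : MvPolynomial σ ℝ) - pderiv b (X a + X b : MvPolynomial σ ℝ) = 0
  rw [map_add, map_add, pderiv_X_self, pderiv_X_self, pderiv_X_of_ne hab, pderiv_X_of_ne hab.symm]
  ring

lemma dab_kill {σ : Type} {a b : σ} (hab : a ≠ b) (k : ℕ) :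
    ∀ (m : ℕ) (g : MvPolynomial σ ℝ), k < m → dabD a b g = 0 →
      (dab a b)^[m] ((X a - X b) ^ k * g) = 0 := by
  have hz : ∀ m, (dab a b)^[m] (0 : MvPolynomial σ ℝ) = 0 := by
    intro m
    rw [dab_iterate_eq, map_zero]
  induction k with
  | zero =>
    intro m g hm hg
    obtain ⟨m, rfl⟩ : ∃ m', m = m' + 1 := ⟨m - 1, by omega⟩
    rw [Function.iterate_succ_apply, pow_zero, one_mul, dab_eq, hg, hz]
  | succ k ih =>
    intro m g hm hg
    obtain ⟨m, rfl⟩ : ∃ m', m = m' + 1 := ⟨m - 1, by omega⟩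
    rw [Function.iterate_succ_apply]
    have h1 : dab a b ((X a - X b) ^ (k + 1) * g) =
        (X a - X b) ^ k * (C (2 * ((k : ℝ) + 1)) * g) := by
      rw [dab_eq, Derivation.leibniz, hg, Derivation.leibniz_pow, dab_sub hab]
      simp only [smul_eq_mul, mul_zero, zero_add, nsmul_eq_mul, Nat.add_sub_cancel]
      rw [map_mul, map_add]
      simp only [map_one, map_ofNat, map_natCast]
      push_cast
      ring
    rw [h1]
    refine ih m _ (by omega) ?_
    rw [Derivation.leibniz, hg]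
    have h2 : dabD a b (C (2 * ((k : ℝ) + 1)) : MvPolynomial σ ℝ) = 0 := by
      change pderiv a (C (2 * ((k : ℝ) + 1)) : MvPolynomial σ ℝ) -
        pderiv b (C (2 * ((k : ℝ) + 1)) : MvPolynomial σ ℝ) = 0
      rw [pderiv_C, pderiv_C, sub_zero]
    rw [h2]
    simp

theorem dab_iterate_Lpoly (n d : ℕ) (hn : 1 ≤ n) (a b : Fin (d + 2)) (hab : a ≠ b) :
    (dab a b)^[2 * n] (Lpoly n d a - Lpoly n d b) = 0 := by
  obtain ⟨R, hR, hL⟩ := Lpoly_sub_eq n d a b hab
  rw [hL, dab_iterate_eq, map_sum]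
  refine Finset.sum_eq_zero fun M hM => ?_
  rw [Finset.mem_range] at hM
  obtain ⟨c, hc⟩ := epd n M hn (by omega)
  rw [hc (MvPolynomial (Fin (d + 2)) ℝ) (X a) (X b), Finset.mul_sum, map_sum]
  refine Finset.sum_eq_zero fun α hα => ?_
  rw [Finset.mem_range] at hα
  rw [mul_smul_comm, map_smul]
  have h1 : R M * ((X a - X b) ^ (2 * α + 1) * (X a + X b) ^ (2 * (n + M - 1 - α) + 1)) =
      (X a - X b) ^ (2 * α + 1) * (R M * (X a + X b) ^ (2 * (n + M - 1 - α) + 1)) := by ring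
  rw [h1, ← dab_iterate_eq, dab_kill hab _ _ _ (by omega) ?_, smul_zero]
  have h2 : dabD a b (R M) = 0 := by
    change pderiv a (R M) - pderiv b (R M) = 0
    rw [pderiv_eq_zero_of_notMem_vars (hR M).1, pderiv_eq_zero_of_notMem_vars (hR M).2, sub_zero]
  rw [Derivation.leibniz, h2, Derivation.leibniz_pow, dab_add hab]
  simp

end Pool.Agent.H84Spl
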