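import Pool.Agent.H84Spl.PairB
import Pool.Agent.H84Spl.KillA

/-! # The kill lemma -/

namespace Pool.Agent.H84Spl

open MvPolynomial

theorem pair_sub_pow_mul {σ : Type} [Fintype σ] (a b : σ) (k : ℕ)
    (L P : MvPolynomial σ ℝ) : pair L ((X a - X b) ^ k * P) = pair ((dab a b)^[k] L) P := by
  induction k generalizing L with
  | zero => simp
  | succ k ih =>
    rw [Function.iterate_succ_apply, ← ih]
    have e : (X a - X b : MvPolynomial σ ℝ) ^ (k + 1) * P =
        X a * ((X a - X b) ^ k * P) - X b * ((X a - X b) ^ k * P) := by ring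
    rw [e, pair_sub_right, pair_X_mul_right, pair_X_mul_right, dab, pair_sub_left]

theorem one_le_totalDegree_lin {σ : Type} (a b : σ) (hab : a ≠ b) (c : ℝ) :
    1 ≤ (X a - X b - C c : MvPolynomial σ ℝ).totalDegree := by
  classical
  have h1 : coeff (Finsupp.single a 1) (X a - X b - C c : MvPolynomial σ ℝ) = 1 := by
    rw [coeff_sub, coeff_sub, coeff_X, coeff_C, coeff_X]
    have h2 : ¬ (Finsupp.single b 1 = Finsupp.single a (1 : ℕ)) := by
      intro h
      have := congrArg (fun f => f b) h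
      simp [hab] at this
    have h3 : ¬ ((0 : σ →₀ ℕ) = Finsupp.single a 1) := by
      intro h
      have := congrArg (fun f => f a) h
      simp at this
    rw [if_neg h2, if_neg h3]
    norm_num
  have h4 : Finsupp.single a 1 ∈ (X a - X b - C c : MvPolynomial σ ℝ).support := by
    rw [mem_support_iff, h1]
    exact one_ne_zero
  have h5 := le_totalDegree h4
  simpa using h5

theorem kill_pair (n d : ℕ) (hn : 1 ≤ n) (a b : Fin (d + 2)) (hab : a ≠ b) (c : ℝ)
    (G : MvPolynomial (Fin (d + 2)) ℝ)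
    (hdeg : ((X a - X b - C c) ^ (2 * n) * G).totalDegree ≤ Kdeg n d) :
    pair (Lpoly n d a - Lpoly n d b) ((X a - X b - C c) ^ (2 * n) * G) = 0 := by
  classical
  by_cases hG : G = 0
  · rw [hG, mul_zero, pair_zero_right]
  have hu : 1 ≤ (X a - X b - C c : MvPolynomial (Fin (d + 2)) ℝ).totalDegree :=
    one_le_totalDegree_lin a b hab c
  have hu0 : (X a - X b - C c : MvPolynomial (Fin (d + 2)) ℝ) ≠ 0 := by
    intro h
    rw [h, totalDegree_zero] at hu
    omega
  have hpow : ∀ k : ℕ, k ≤ ((X a - X b - C c : MvPolynomial (Fin (d + 2)) ℝ) ^ k).totalDegree := by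
    intro k
    induction k with
    | zero => exact Nat.zero_le _
    | succ k ih =>
      rw [pow_succ, totalDegree_mul_of_isDomain (pow_ne_zero _ hu0) hu0]
      omega
  have hGdeg : 2 * n + G.totalDegree ≤ Kdeg n d := by
    rw [totalDegree_mul_of_isDomain (pow_ne_zero _ hu0) hG] at hdeg
    have := hpow (2 * n)
    omega
  have hL : (Lpoly n d a - Lpoly n d b).IsHomogeneous (Kdeg n d) :=
    (Lpoly_isHomogeneous hn d a).sub (Lpoly_isHomogeneous hn d b)
  have hX : (X a - X b : MvPolynomial (Fin (d + 2)) ℝ).totalDegree ≤ 1 :=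
    (totalDegree_sub _ _).trans (by simp [totalDegree_X])
  have hXc : (X a - X b - C c : MvPolynomial (Fin (d + 2)) ℝ).totalDegree ≤ 1 :=
    (totalDegree_sub_C_le _ _).trans hX
  have hgs := (geom_sum₂_mul (X a - X b - C c : MvPolynomial (Fin (d + 2)) ℝ) (X a - X b) (2 * n))
  set S : MvPolynomial (Fin (d + 2)) ℝ :=
    ∑ i ∈ Finset.range (2 * n), (X a - X b - C c) ^ i * (X a - X b) ^ (2 * n - 1 - i) with hS
  have hSdeg : S.totalDegree ≤ 2 * n - 1 := by
    rw [hS]
    refine totalDegree_finsetSum_le fun i hi => ?_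
    rw [Finset.mem_range] at hi
    refine (totalDegree_mul _ _).trans ?_
    have h1 := (totalDegree_pow (X a - X b - C c : MvPolynomial (Fin (d + 2)) ℝ) i)
    have h2 := (totalDegree_pow (X a - X b : MvPolynomial (Fin (d + 2)) ℝ) (2 * n - 1 - i))
    have h3 : i * (X a - X b - C c : MvPolynomial (Fin (d + 2)) ℝ).totalDegree ≤ i := by
      calc i * _ ≤ i * 1 := Nat.mul_le_mul_left _ hXc
        _ = i := mul_one _
    have h4 : (2 * n - 1 - i) * (X a - X b : MvPolynomial (Fin (d + 2)) ℝ).totalDegree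
        ≤ 2 * n - 1 - i := by
      calc (2 * n - 1 - i) * _ ≤ (2 * n - 1 - i) * 1 := Nat.mul_le_mul_left _ hX
        _ = _ := mul_one _
    omega
  have hsplit : (X a - X b - C c : MvPolynomial (Fin (d + 2)) ℝ) ^ (2 * n) * G =
      (X a - X b) ^ (2 * n) * G - C c * (S * G) := by
    have h1 : (X a - X b - C c : MvPolynomial (Fin (d + 2)) ℝ) ^ (2 * n) =
        (X a - X b) ^ (2 * n) - C c * S := by
      linear_combination (-1 : MvPolynomial (Fin (d + 2)) ℝ) * hgs
    rw [h1]
    ring
  rw [hsplit, pair_sub_right, pair_C_mul_right, pair_sub_pow_mul, dab_iterate_Lpoly n d hn a b hab,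
    pair_zero_left]
  have h0 : pair (Lpoly n d a - Lpoly n d b) (S * G) = 0 := by
    refine pair_eq_zero_of_degree hL ?_
    refine lt_of_le_of_lt (totalDegree_mul _ _) ?_
    omega
  rw [h0]
  simp

theorem kill_swap (n d : ℕ) (hn : 1 ≤ n) (a b : Fin (d + 1)) (hab : a ≠ b) (c : ℝ)
    (R : MvPolynomial (Fin (d + 1)) ℝ) (hR : R.totalDegree ≤ Kdeg n d)
    (hdvd : (X a - X b - C c) ^ (2 * n) ∣ R) : psi n d a R = psi n d b R := by
  obtain ⟨G, rfl⟩ := hdvd
  have hl : hlift d ((X a - X b - C c) ^ (2 * n) * G) =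
      (X a.succ - X b.succ - C c) ^ (2 * n) * hlift d G := by
    rw [map_mul, map_pow, map_sub, map_sub]
    congr 2
    have h1 : ∀ i : Fin (d + 1), hlift d (X i) = X i.succ - X 0 := fun i => by
      rw [hlift, aeval_X]
    have h2 : hlift d (C c) = C c := by
      rw [hlift]
      exact (aeval _).commutes c
    rw [h1, h1, h2]
    ring
  have hne : a.succ ≠ b.succ := fun h => hab (Fin.succ_injective _ h)
  have hdeg := (totalDegree_hlift_le d ((X a - X b - C c) ^ (2 * n) * G)).trans hR
  rw [hl] at hdeg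
  have key := kill_pair n d hn a.succ b.succ hne c (hlift d G) hdeg
  rw [← hl] at key
  unfold psi
  rw [pair_sub_left] at key ⊢
  rw [pair_sub_left]
  linarith

theorem kill_cross (n d : ℕ) (hn : 1 ≤ n) (a : Fin (d + 1)) (c : ℝ)
    (R : MvPolynomial (Fin (d + 1)) ℝ) (hR : R.totalDegree ≤ Kdeg n d)
    (hdvd : (X a - C c) ^ (2 * n) ∣ R) : psi n d a R = 0 := by
  obtain ⟨G, rfl⟩ := hdvd
  have hl : hlift d ((X a - C c) ^ (2 * n) * G) =
      (X a.succ - X 0 - C c) ^ (2 * n) * hlift d G := by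
    rw [map_mul, map_pow, map_sub]
    congr 2
    have h1 : ∀ i : Fin (d + 1), hlift d (X i) = X i.succ - X 0 := fun i => by
      rw [hlift, aeval_X]
    have h2 : hlift d (C c) = C c := by
      rw [hlift]
      exact (aeval _).commutes c
    rw [h1, h2]
  have hne : a.succ ≠ (0 : Fin (d + 2)) := Fin.succ_ne_zero a
  have hdeg := (totalDegree_hlift_le d ((X a - C c) ^ (2 * n) * G)).trans hR
  rw [hl] at hdeg
  have key := kill_pair n d hn a.succ 0 hne c (hlift d G) hdeg
  rw [← hl] at key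
  unfold psi
  exact key

end Pool.Agent.H84Spl
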