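import Pool.Agent.H84Spl.Outer

/-! # Locally supported splines have no outer flux, hence nor has anything in their span -/

namespace Pool.Agent.H84Spl

open MvPolynomial

/-- A spline on the shell has a family of cell polynomials. -/
theorem exists_fam {s r K M N : ℕ} {f : (Fin s → ℝ) → ℝ}
    (hf : f ∈ (shellT s M N).splineSpace r K) : ∃ p, IsFam s M N K f p := by
  classical
  have h : ∀ (z : Fin s → ℤ) (π : Equiv.Perm (Fin s)), ∃ P : MvPolynomial (Fin s) ℝ,
      z ∈ shell s M N → P.totalDegree ≤ K ∧ ∀ x ∈ kcell z π, f x = eval x P := by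
    intro z π
    by_cases hz : z ∈ shell s M N
    · obtain ⟨P, hP, hfP⟩ := hf.2.2 (ksimp z π) (mem_shellT_cells.2 ⟨z, hz, π, rfl⟩)
      refine ⟨P, fun _ => ⟨hP, ?_⟩⟩
      rw [convexHull_ksimp] at hfP
      exact hfP
    · exact ⟨0, fun h => absurd h hz⟩
  choose p hp using h
  exact ⟨p, fun z hz π => hp z π hz⟩

/-- The family is unique on the shell, so the outer flux does not depend on it. -/
theorem outer_congr {n d M N K : ℕ} {f : (Fin (d + 1) → ℝ) → ℝ}
    {p p' : (Fin (d + 1) → ℤ) → Equiv.Perm (Fin (d + 1)) → MvPolynomial (Fin (d + 1)) ℝ}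
    (hp : IsFam (d + 1) M N K f p) (hp' : IsFam (d + 1) M N K f p') :
    outer n d M N p = outer n d M N p' := by
  classical
  have h : ∀ z ∈ shell (d + 1) M N, ∀ π, p z π = p' z π := by
    intro z hz π
    refine eq_of_eqOn_kcell z π _ _ fun x hx => ?_
    rw [← (hp z hz π).2 x hx, ← (hp' z hz π).2 x hx]
  unfold outer
  refine Finset.sum_congr rfl fun z hz => Finset.sum_congr rfl fun π _ => ?_
  rw [h z hz π]

/-- If `f` vanishes on a cell then the cell polynomial is zero. -/
private theorem local_zero {s M N K : ℕ} {f : (Fin s → ℝ) → ℝ}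
    {p : (Fin s → ℤ) → Equiv.Perm (Fin s) → MvPolynomial (Fin s) ℝ}
    (hp : IsFam s M N K f p) {z : Fin s → ℤ} (hz : z ∈ shell s M N) (π : Equiv.Perm (Fin s))
    (h : ∀ x ∈ kcell z π, f x = 0) : p z π = 0 := by
  refine eq_of_eqOn_kcell z π _ _ fun x hx => ?_
  rw [← (hp z hz π).2 x hx, h x hx, map_zero]

private theorem local_uvec_self {s : ℕ} (i : Fin s) : (uvec i) i = 1 := by
  simp [uvec]

private theorem local_uvec_ne {s : ℕ} {i j : Fin s} (h : j ≠ i) : (uvec i) j = 0 := by
  simp [uvec, Pi.single_eq_of_ne h]

theorem outer_local {n d M N m : ℕ} (hn : 1 ≤ n) (hN : M + 2 * m + 2 < N)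
    {f : (Fin (d + 1) → ℝ) → ℝ}
    (hf : f ∈ (shellT (d + 1) M N).splineSpace (2 * n - 1) (Kdeg n d))
    (hloc : (shellT (d + 1) M N).LocallySupported m f)
    {p : (Fin (d + 1) → ℤ) → Equiv.Perm (Fin (d + 1)) → MvPolynomial (Fin (d + 1)) ℝ}
    (hp : IsFam (d + 1) M N (Kdeg n d) f p) : outer n d M N p = 0 := by
  classical
  obtain ⟨v, -, hv⟩ := hloc
  have hNR : (M : ℝ) + 2 * m + 2 < N := by exact_mod_cast hN
  -- `f` vanishes off the ball
  have hoff : ∀ x : Fin (d + 1) → ℝ, (∃ i, (m : ℝ) < |x i - v i|) → f x = 0 := by
    rintro x ⟨i, hi⟩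
    by_contra hne
    have h1 := star_subset v m (hv (Function.mem_support.2 hne)) i
    linarith
  by_cases hcase : ∀ i, |v i| < (N : ℝ) - 1 - m
  · -- outer cells
    unfold outer
    refine Finset.sum_eq_zero fun z hz => Finset.sum_eq_zero fun π _ => ?_
    have hzbox : ∀ i, -(N : ℤ) ≤ z i ∧ z i < N := (mem_shell_iff.1 hz).1
    have hkill : ∀ i : Fin (d + 1), (z i = N - 1 ∨ z i = -(N : ℤ)) → p z π = 0 := by
      intro i hi
      refine local_zero hp hz π fun x hx => hoff x ⟨i, ?_⟩
      have hxi := hx.1 i
      have hvi := abs_lt.1 (hcase i)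
      rcases hi with hi | hi
      · have : ((z i : ℤ) : ℝ) = (N : ℝ) - 1 := by rw [hi]; push_cast; ring
        rw [this] at hxi
        rw [lt_abs]
        left
        linarith
      · have : ((z i : ℤ) : ℝ) = -(N : ℝ) := by rw [hi]; push_cast; ring
        rw [this] at hxi
        rw [lt_abs]
        right
        linarith
    have h1 : (if z + uvec (π 0) ∈ box (d + 1) N then 0 else psi n d (π 0) (p z π)) = 0 := by
      split_ifs with h
      · rfl
      · have hi : z (π 0) = N - 1 := by
          by_contra hne
          apply h
          rw [mem_box_iff]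
          intro i
          have hb := hzbox i
          rw [Pi.add_apply]
          by_cases hii : i = π 0
          · subst hii
            rw [local_uvec_self]
            omega
          · rw [local_uvec_ne hii]
            omega
        rw [hkill _ (Or.inl hi), psi_zero]
    have h2 : (if z - uvec (π (Fin.last d)) ∈ box (d + 1) N then 0
        else psi n d (π (Fin.last d)) (p z π)) = 0 := by
      split_ifs with h
      · rfl
      · have hi : z (π (Fin.last d)) = -(N : ℤ) := by
          by_contra hne
          apply h
          rw [mem_box_iff]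
          intro i
          have hb := hzbox i
          rw [Pi.sub_apply]
          by_cases hii : i = π (Fin.last d)
          · subst hii
            rw [local_uvec_self]
            omega
          · rw [local_uvec_ne hii]
            omega
        rw [hkill _ (Or.inr hi), psi_zero]
    rw [h1, h2, sub_zero]
  · -- inner cells
    push Not at hcase
    obtain ⟨i, hi⟩ := hcase
    have hinner : inner n d M N p = 0 := by
      unfold inner
      refine Finset.sum_eq_zero fun z hz => Finset.sum_eq_zero fun π _ => ?_
      have hkill : (∀ j, -(M : ℤ) - 1 ≤ z j ∧ z j ≤ M) → p z π = 0 := by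
        intro hzM
        refine local_zero hp hz π fun x hx => hoff x ⟨i, ?_⟩
        have hxi := hx.1 i
        have hzi := hzM i
        have hz1 : -(M : ℝ) - 1 ≤ (z i : ℝ) := by exact_mod_cast hzi.1
        have hz2 : (z i : ℝ) ≤ M := by exact_mod_cast hzi.2
        rcases le_abs.1 hi with h | h
        · rw [lt_abs]
          right
          linarith
        · rw [lt_abs]
          left
          linarith
      have h1 : (if z + uvec (π 0) ∈ box (d + 1) M then psi n d (π 0) (p z π) else 0) = 0 := by
        split_ifs with h
        · rw [hkill, psi_zero]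
          intro j
          have hj := mem_box_iff.1 h j
          rw [Pi.add_apply] at hj
          by_cases hjj : j = π 0
          · subst hjj
            rw [local_uvec_self] at hj
            omega
          · rw [local_uvec_ne hjj] at hj
            omega
        · rfl
      have h2 : (if z - uvec (π (Fin.last d)) ∈ box (d + 1) M then
          psi n d (π (Fin.last d)) (p z π) else 0) = 0 := by
        split_ifs with h
        · rw [hkill, psi_zero]
          intro j
          have hj := mem_box_iff.1 h j
          rw [Pi.sub_apply] at hj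
          by_cases hjj : j = π (Fin.last d)
          · subst hjj
            rw [local_uvec_self] at hj
            omega
          · rw [local_uvec_ne hjj] at hj
            omega
        · rfl
      rw [h1, h2, sub_zero]
    have h := outer_add_inner n d M N hn (by omega) f hf.1 p hp
    rw [hinner, add_zero] at h
    exact h

theorem outer_span {n d M N m : ℕ} (hn : 1 ≤ n) (hN : M + 2 * m + 2 < N)
    {f : (Fin (d + 1) → ℝ) → ℝ}
    (hf : f ∈ Submodule.span ℝ {f | f ∈ (shellT (d + 1) M N).splineSpace (2 * n - 1) (Kdeg n d) ∧
      (shellT (d + 1) M N).LocallySupported m f})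
    {p : (Fin (d + 1) → ℤ) → Equiv.Perm (Fin (d + 1)) → MvPolynomial (Fin (d + 1)) ℝ}
    (hp : IsFam (d + 1) M N (Kdeg n d) f p) : outer n d M N p = 0 := by
  classical
  have hle : Submodule.span ℝ {f | f ∈ (shellT (d + 1) M N).splineSpace (2 * n - 1) (Kdeg n d) ∧
      (shellT (d + 1) M N).LocallySupported m f} ≤
      (shellT (d + 1) M N).splineSpace (2 * n - 1) (Kdeg n d) :=
    Submodule.span_le.2 fun g hg => hg.1
  have key : ∀ g, g ∈ Submodule.span ℝ {f | f ∈ (shellT (d + 1) M N).splineSpace (2 * n - 1)
      (Kdeg n d) ∧ (shellT (d + 1) M N).LocallySupported m f} →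
      ∀ q, IsFam (d + 1) M N (Kdeg n d) g q → outer n d M N q = 0 := by
    intro g hg
    induction hg using Submodule.span_induction with
    | mem x hx => exact fun q hq => outer_local hn hN hx.1 hx.2 hq
    | zero =>
      intro q hq
      have h0 : IsFam (d + 1) M N (Kdeg n d) 0 (fun _ _ => 0) := by
        intro z _ π
        refine ⟨by simp, fun x _ => by simp⟩
      rw [outer_congr hq h0]
      unfold outer
      simp [psi_zero]
    | add x y hx hy ihx ihy =>
      intro q hq
      obtain ⟨qx, hqx⟩ := exists_fam (hle hx)
      obtain ⟨qy, hqy⟩ := exists_fam (hle hy)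
      have h0 : IsFam (d + 1) M N (Kdeg n d) (x + y) (fun z π => qx z π + qy z π) := by
        intro z hz π
        refine ⟨(totalDegree_add _ _).trans (max_le (hqx z hz π).1 (hqy z hz π).1), ?_⟩
        intro u hu
        rw [Pi.add_apply, (hqx z hz π).2 u hu, (hqy z hz π).2 u hu, map_add]
      rw [outer_congr hq h0]
      have hx0 := ihx qx hqx
      have hy0 := ihy qy hqy
      have hadd : outer n d M N (fun z π => qx z π + qy z π) =
          outer n d M N qx + outer n d M N qy := by
        unfold outer
        rw [← Finset.sum_add_distrib]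
        refine Finset.sum_congr rfl fun z _ => ?_
        rw [← Finset.sum_add_distrib]
        refine Finset.sum_congr rfl fun π _ => ?_
        split_ifs <;> (try simp only [psi_add]) <;> ring
      rw [hadd, hx0, hy0, add_zero]
    | smul c x hx ihx =>
      intro q hq
      obtain ⟨qx, hqx⟩ := exists_fam (hle hx)
      have h0 : IsFam (d + 1) M N (Kdeg n d) (c • x) (fun z π => C c * qx z π) := by
        intro z hz π
        refine ⟨?_, ?_⟩
        · refine (totalDegree_mul _ _).trans ?_
          rw [totalDegree_C, zero_add]
          exact (hqx z hz π).1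
        · intro u hu
          rw [Pi.smul_apply, (hqx z hz π).2 u hu, map_mul, eval_C, smul_eq_mul]
      rw [outer_congr hq h0]
      have hx0 := ihx qx hqx
      have hmul : outer n d M N (fun z π => C c * qx z π) = c * outer n d M N qx := by
        unfold outer
        rw [Finset.mul_sum]
        refine Finset.sum_congr rfl fun z _ => ?_
        rw [Finset.mul_sum]
        refine Finset.sum_congr rfl fun π _ => ?_
        split_ifs <;> (try simp only [psi_C_mul]) <;> ring
      rw [hmul, hx0, mul_zero]
  exact key f hf p hp

end Pool.Agent.H84Spl
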