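import Mathlib

/-! # Bipartite positivity of coefficients -/

namespace Pool.Agent.H84Spl

open MvPolynomial

/-- The substitution `X_l ↦ s_l X_l`. -/
noncomputable def sgnSub {σ : Type} (s : σ → ℝ) : MvPolynomial σ ℝ →ₐ[ℝ] MvPolynomial σ ℝ :=
  aeval fun l => C (s l) * X l

theorem coeff_sgnSub {σ : Type} (s : σ → ℝ) (p : MvPolynomial σ ℝ) (k : σ →₀ ℕ) :
    coeff k (sgnSub s p) = (k.prod fun l n => s l ^ n) * coeff k p := by
  classical
  induction p using MvPolynomial.induction_on' with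
  | monomial m c =>
    have h : sgnSub s (monomial m c) = monomial m (c * m.prod fun l n => s l ^ n) := by
      rw [sgnSub, aeval_monomial, monomial_eq]
      simp only [mul_pow, Finsupp.prod, Finset.prod_mul_distrib, ← C_pow, C_mul, ← map_prod,
        algebraMap_eq]
      ring
    rw [h, coeff_monomial, coeff_monomial]
    split_ifs with hm
    · subst hm; ring
    · simp
  | add p q hp hq => rw [map_add, coeff_add, hp, hq, coeff_add]; ring

theorem sgnSub_prod {σ E : Type} [Fintype E] (a b : E → σ) (N : E → ℕ) (χ : σ → Bool)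
    (hχ : ∀ e, χ (a e) ≠ χ (b e)) (hN : ∀ e, Even (N e)) :
    sgnSub (fun l => if χ l then -1 else 1)
        (∏ e, (X (a e) - X (b e) : MvPolynomial σ ℝ) ^ (N e)) =
      map (Nat.castRingHom ℝ) (∏ e, (X (a e) + X (b e) : MvPolynomial σ ℕ) ^ (N e)) := by
  rw [map_prod, map_prod]
  refine Finset.prod_congr rfl fun e _ => ?_
  rw [map_pow, map_pow, map_add, map_X, map_X, map_sub, sgnSub, aeval_X, aeval_X]
  have h := hχ e
  rcases Bool.eq_false_or_eq_true (χ (a e)) with h1 | h1 <;>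
    rcases Bool.eq_false_or_eq_true (χ (b e)) with h2 | h2
  · exact absurd (h1.trans h2.symm) h
  · rw [h1, h2, if_pos rfl, if_neg (by decide)]
    have : C (-1 : ℝ) * X (a e) - C (1 : ℝ) * X (b e) = -(X (a e) + X (b e) : MvPolynomial σ ℝ) := by
      rw [C_neg, C_1]; ring
    rw [this, (hN e).neg_pow]
  · rw [h1, h2, if_pos rfl, if_neg (by decide)]
    have : C (1 : ℝ) * X (a e) - C (-1 : ℝ) * X (b e) = (X (a e) + X (b e) : MvPolynomial σ ℝ) := by
      rw [C_neg, C_1]; ring
    rw [this]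
  · exact absurd (h1.trans h2.symm) h

theorem coeff_eq_nat {σ E : Type} [Fintype E] (a b : E → σ) (N : E → ℕ) (χ : σ → Bool)
    (hχ : ∀ e, χ (a e) ≠ χ (b e)) (hN : ∀ e, Even (N e)) (k : σ →₀ ℕ) (hk : ∀ l, Even (k l)) :
    coeff k (∏ e, (X (a e) - X (b e) : MvPolynomial σ ℝ) ^ (N e)) =
      ((coeff k (∏ e, (X (a e) + X (b e) : MvPolynomial σ ℕ) ^ (N e)) : ℕ) : ℝ) := by
  have h := congrArg (coeff k) (sgnSub_prod a b N χ hχ hN)
  rw [coeff_sgnSub, coeff_map] at h
  have h1 : (k.prod fun l n => (if χ l then (-1 : ℝ) else 1) ^ n) = 1 := by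
    refine Finset.prod_eq_one fun l _ => ?_
    dsimp only
    split_ifs
    · exact (hk l).neg_one_pow
    · exact one_pow _
  rw [h1, one_mul] at h
  rw [h]
  rfl

/-- Coefficients of even exponent vectors in a product of even powers of differences along the
edges of a bipartite graph are nonnegative. -/
theorem coeff_nonneg {σ E : Type} [Fintype E] (a b : E → σ) (N : E → ℕ) (χ : σ → Bool)
    (hχ : ∀ e, χ (a e) ≠ χ (b e)) (hN : ∀ e, Even (N e)) (k : σ →₀ ℕ) (hk : ∀ l, Even (k l)) :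
    0 ≤ coeff k (∏ e, (X (a e) - X (b e) : MvPolynomial σ ℝ) ^ (N e)) := by
  rw [coeff_eq_nat a b N χ hχ hN k hk]
  exact Nat.cast_nonneg _

theorem exists_add_pow {R : Type} [CommSemiring R] (x y : R) (N : ℕ) :
    ∃ r, (x + y) ^ N = x ^ N + r := by
  induction N with
  | zero => exact ⟨0, by simp⟩
  | succ n ih =>
    obtain ⟨r, hr⟩ := ih
    exact ⟨x ^ n * y + r * (x + y), by rw [pow_succ, hr, pow_succ]; ring⟩

theorem exists_prod {R ι : Type} [CommSemiring R] (s : Finset ι) (f g : ι → R)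
    (h : ∀ i, ∃ r, f i = g i + r) : ∃ r, ∏ i ∈ s, f i = ∏ i ∈ s, g i + r := by
  classical
  induction s using Finset.induction_on with
  | empty => exact ⟨0, by simp⟩
  | insert i s hi ih =>
    obtain ⟨r, hr⟩ := ih
    obtain ⟨q, hq⟩ := h i
    refine ⟨g i * r + q * (∏ i ∈ s, g i) + q * r, ?_⟩
    rw [Finset.prod_insert hi, Finset.prod_insert hi, hr, hq]
    ring

/-- ... and the coefficient obtained by choosing one endpoint for every edge is positive. -/
theorem coeff_pos {σ E : Type} [Fintype E] [DecidableEq σ] (a b : E → σ) (N : E → ℕ)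
    (χ : σ → Bool) (hχ : ∀ e, χ (a e) ≠ χ (b e)) (hN : ∀ e, Even (N e)) (k : σ →₀ ℕ)
    (hk : ∀ l, Even (k l)) (h : E → σ) (hh : ∀ e, h e = a e ∨ h e = b e)
    (hsum : ∀ l, ∑ e ∈ Finset.univ.filter (fun e => h e = l), N e = k l) :
    0 < coeff k (∏ e, (X (a e) - X (b e) : MvPolynomial σ ℝ) ^ (N e)) := by
  rw [coeff_eq_nat a b N χ hχ hN k hk]
  refine Nat.cast_pos.2 ?_
  obtain ⟨r, hr⟩ := exists_prod (Finset.univ : Finset E)
    (fun e => (X (a e) + X (b e) : MvPolynomial σ ℕ) ^ (N e))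
    (fun e => (X (h e) : MvPolynomial σ ℕ) ^ (N e)) (by
      intro e
      rcases hh e with h1 | h1
      · rw [h1]; exact exists_add_pow _ _ _
      · rw [h1, add_comm (X (a e))]; exact exists_add_pow _ _ _)
  rw [hr, coeff_add]
  have h2 : (∏ e, (X (h e) : MvPolynomial σ ℕ) ^ (N e)) = monomial k 1 := by
    have h3 : ∀ e, (X (h e) : MvPolynomial σ ℕ) ^ (N e) = monomial (Finsupp.single (h e) (N e)) 1 :=
      fun e => X_pow_eq_monomial
    simp only [h3]
    rw [← monomial_sum_one]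
    have h4 : (∑ e, Finsupp.single (h e) (N e)) = k := by
      ext l
      rw [Finsupp.finsetSum_apply, ← hsum l, Finset.sum_filter]
      exact Finset.sum_congr rfl fun e _ => Finsupp.single_apply
    rw [h4]
  rw [h2, coeff_monomial, if_pos rfl]
  omega

end Pool.Agent.H84Spl
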