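import Pool.Agent.H84Spl.PosF
import Pool.Agent.H84Spl.PosC

/-! # Positivity of the value of the law on bipartite products -/

namespace Pool.Agent.H84Spl

open MvPolynomial

theorem kp_pos (n b : ℕ) : 0 < kp n b := by
  unfold kp
  positivity

theorem pos_pair (d n : ℕ) (hn : 1 ≤ n) {E : Type} [Fintype E] (a b : E → Fin (d + 2))
    (N : E → ℕ) (χ : Fin (d + 2) → Bool) (hχ : ∀ e, χ (a e) ≠ χ (b e)) (ha : ∀ e, a e ≠ 1)
    (hb : ∀ e, b e ≠ 1) (hN : ∀ e, Even (N e)) (m : Fin (d + 2) → ℕ) (hm1 : m 1 = 0)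
    (hm : ∑ l, m l = n - 1) (h : E → Fin (d + 2)) (hh : ∀ e, h e = a e ∨ h e = b e)
    (hsum : ∀ l, l ≠ 1 → ∑ e ∈ Finset.univ.filter (fun e => h e = l), N e = 2 * n + 2 * m l) :
    0 < pair (Lpoly n d 1 - Lpoly n d 0) (∏ e, (X (a e) - X (b e)) ^ (N e)) := by
  classical
  have hvars : (1 : Fin (d + 2)) ∉
      (∏ e, (X (a e) - X (b e) : MvPolynomial (Fin (d + 2)) ℝ) ^ (N e)).vars := by
    intro h1
    obtain ⟨e, -, he⟩ := Finset.mem_biUnion.1 (vars_prod _ h1)
    have h2 := vars_sub_subset _ (vars_pow _ _ he)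
    rw [vars_X, vars_X] at h2
    rcases Finset.mem_union.1 h2 with h3 | h3
    · exact ha e (Finset.mem_singleton.1 h3).symm
    · exact hb e (Finset.mem_singleton.1 h3).symm
  rw [pair_L_free n d hn _ hvars]
  have hpos : ∀ m : Fin (d + 2) → ℕ, 0 < ((n - 1).factorial : ℝ) *
      (∏ l ∈ Finset.univ.erase (1 : Fin (d + 2)), kp n (m l) * ((2 * n + 2 * m l).factorial : ℝ)) := by
    intro m
    refine mul_pos (by positivity) (Finset.prod_pos fun l _ => mul_pos (kp_pos _ _) (by positivity))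
  have heven : ∀ m : Fin (d + 2) → ℕ, ∀ l, Even ((Finsupp.equivFunOnFinite.symm
      (fun l : Fin (d + 2) => if l = 1 then 0 else 2 * n + 2 * m l)) l) := by
    intro m l
    rw [Finsupp.equivFunOnFinite_symm_apply_apply]
    split_ifs
    · exact Even.zero
    · exact ⟨n + m l, by ring⟩
  refine Finset.sum_pos' (fun m' _ => ?_) ⟨m, ?_, ?_⟩
  · exact mul_nonneg (hpos m').le (coeff_nonneg a b N χ hχ hN _ (heven m'))
  · rw [Finset.mem_filter, Finset.mem_piAntidiag]
    exact ⟨⟨hm, fun i _ => Finset.mem_univ i⟩, hm1⟩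
  · refine mul_pos (hpos m) (coeff_pos a b N χ hχ hN _ (heven m) h hh fun l => ?_)
    rw [Finsupp.equivFunOnFinite_symm_apply_apply]
    split_ifs with hl
    · rw [Finset.filter_false_of_mem, Finset.sum_empty]
      intro e _ he
      rcases hh e with h1 | h1
      · exact ha e (h1.symm.trans (he.trans hl))
      · exact hb e (h1.symm.trans (he.trans hl))
    · exact hsum l hl

end Pool.Agent.H84Spl
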