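import Pool.Agent.H84Spl.VDef
import Pool.Agent.H84Spl.PosP

/-! # Positivity of `V` for the two bipartite seeds -/

namespace Pool.Agent.H84Spl

open MvPolynomial

theorem vtx_val {d c j : ℕ} (hcd : c ≤ d) (hj : j ≤ c + 1) :
    ((vtx d c j : Fin (d + 2)) : ℕ) = if j = 0 ∨ j = c + 1 then 0 else j + 1 := by
  unfold vtx
  split_ifs with h
  · simp
  · rw [Fin.val_ofNat]
    exact Nat.mod_eq_of_lt (by omega)

theorem vtx_succ_eq_iff {d c : ℕ} (hcd : c ≤ d) (j : Fin (c + 1)) (l : Fin (d + 2)) :
    vtx d c (j + 1) = l ↔ ((j : ℕ) = c ∧ (l : ℕ) = 0) ∨ ((j : ℕ) < c ∧ (l : ℕ) = j + 2) := by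
  rw [Fin.ext_iff, vtx_val hcd (by omega)]
  have := j.2
  by_cases h : (j : ℕ) = c
  · rw [if_pos (Or.inr (by omega))]
    omega
  · rw [if_neg (by omega)]
    omega

theorem sum_vtx {d c n : ℕ} (hcd : c ≤ d) (l : Fin (d + 2)) (hl : l ≠ 1) (hlc : (l : ℕ) ≤ c + 1) :
    (∑ j : Fin (c + 1), if vtx d c (j + 1) = l then 2 * n else 0) = 2 * n := by
  have hl1 : (l : ℕ) ≠ 1 := by
    intro h
    apply hl
    rw [Fin.ext_iff, h]
    simp
  by_cases h0 : (l : ℕ) = 0
  · rw [Finset.sum_eq_single (Fin.last c)]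
    · rw [if_pos]
      rw [vtx_succ_eq_iff hcd]
      left
      simp [h0]
    · intro j _ hj
      rw [if_neg]
      rw [vtx_succ_eq_iff hcd]
      have : (j : ℕ) ≠ c := by
        intro h
        exact hj (Fin.ext (by simp [h]))
      omega
    · intro h
      exact absurd (Finset.mem_univ _) h
  · rw [Finset.sum_eq_single (⟨(l : ℕ) - 2, by omega⟩ : Fin (c + 1))]
    · rw [if_pos]
      rw [vtx_succ_eq_iff hcd]
      right
      simp only
      omega
    · intro j _ hj
      rw [if_neg]
      rw [vtx_succ_eq_iff hcd]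
      have : (j : ℕ) ≠ (l : ℕ) - 2 := by
        intro h
        exact hj (Fin.ext (by simp [h]))
      omega
    · intro h
      exact absurd (Finset.mem_univ _) h

theorem sum_vtx_zero {d c n : ℕ} (hcd : c ≤ d) (l : Fin (d + 2)) (hlc : c + 1 < (l : ℕ)) :
    (∑ j : Fin (c + 1), if vtx d c (j + 1) = l then 2 * n else 0) = 0 := by
  apply Finset.sum_eq_zero
  intro j _
  rw [if_neg]
  rw [vtx_succ_eq_iff hcd]
  have := j.2
  omega

/-- General positivity. -/
theorem Vval_aux {n d c D : ℕ} (hn : 1 ≤ n) (hcd : c ≤ d) (hc : Odd c) (e : Fin (d + 1))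
    (he : e ≠ 0) (hD : Even D) (χ : Fin (d + 2) → Bool)
    (hχ : ∀ l : Fin (d + 2), (l : ℕ) ≤ c + 1 → χ l = decide ((l : ℕ) ≠ 0 ∧ (l : ℕ) % 2 = 0))
    (hχe : χ e.succ = true)
    (hsum : ∀ l : Fin (d + 2), l ≠ 1 → ((if e.succ = l then D else 0) +
      if (l : ℕ) ≤ c + 1 then 2 * n else 0) = 2 * n + 2 * (if l = e.succ then n - 1 else 0)) :
    0 < Vval n d c e D := by
  have hc1 : 1 ≤ c := by
    obtain ⟨k, hk⟩ := hc
    omega
  have he1 : e.succ ≠ 1 := by
    rw [← Fin.succ_zero_eq_one, Ne, Fin.succ_inj]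
    exact he
  have hv1 : ∀ j : ℕ, j ≤ c + 1 → vtx d c j ≠ 1 := by
    intro j hj h
    have h2 := congrArg Fin.val h
    rw [vtx_val hcd hj] at h2
    have h3 : ((1 : Fin (d + 2)) : ℕ) = 1 := by simp
    rw [h3] at h2
    split_ifs at h2 with h4
    omega
  have key := pos_pair d n hn (E := Option (Fin (c + 1)))
    (fun o => o.elim e.succ (fun j => vtx d c (j + 1)))
    (fun o => o.elim 0 (fun j => vtx d c j))
    (fun o => o.elim D (fun _ => 2 * n)) χ ?_ ?_ ?_ ?_ (fun l => if l = e.succ then n - 1 else 0)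
    ?_ ?_ (fun o => o.elim e.succ (fun j => vtx d c (j + 1))) ?_ ?_
  · unfold Vval cyc
    rw [Fin.succ_zero_eq_one]
    rw [Fintype.prod_option] at key
    simp only [Option.elim] at key
    rw [Finset.prod_range]
    rw [mul_comm]
    exact key
  · -- bipartite
    intro o
    cases o with
    | none =>
      simp only [Option.elim]
      rw [hχe, hχ 0 (by simp)]
      simp
    | some j =>
      simp only [Option.elim]
      have hj := j.2
      have e1 : ((vtx d c (j + 1) : Fin (d + 2)) : ℕ) =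
          if (j : ℕ) = c then (0 : ℕ) else (j : ℕ) + 2 := by
        rw [vtx_val (d := d) hcd (j := (j : ℕ) + 1) (by omega)]
        by_cases h : (j : ℕ) = c
        · rw [if_pos (Or.inr (by omega)), if_pos h]
        · rw [if_neg (by omega), if_neg h]
      have e2 : ((vtx d c j : Fin (d + 2)) : ℕ) =
          if (j : ℕ) = 0 then (0 : ℕ) else (j : ℕ) + 1 := by
        rw [vtx_val (d := d) hcd (j := (j : ℕ)) (by omega)]
        by_cases h : (j : ℕ) = 0
        · rw [if_pos (Or.inl h), if_pos h]
        · rw [if_neg (by omega), if_neg h]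
      rw [hχ (vtx d c (j + 1)) (by rw [e1]; split_ifs <;> omega),
        hχ (vtx d c j) (by rw [e2]; split_ifs <;> omega), e1, e2]
      obtain ⟨k, hk⟩ := hc
      intro h
      rw [decide_eq_decide] at h
      by_cases h1 : (j : ℕ) = c
      · rw [if_pos h1] at h
        by_cases h2 : (j : ℕ) = 0
        · omega
        · rw [if_neg h2] at h
          omega
      · rw [if_neg h1] at h
        by_cases h2 : (j : ℕ) = 0
        · rw [if_pos h2] at h
          omega
        · rw [if_neg h2] at h
          omega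
  · intro o
    cases o with
    | none => exact he1
    | some j =>
      exact hv1 _ (by have := j.2; omega)
  · intro o
    cases o with
    | none =>
      simp only [Option.elim]
      intro h
      have := congrArg Fin.val h
      simp at this
    | some j =>
      exact hv1 _ (by have := j.2; omega)
  · intro o
    cases o with
    | none => exact hD
    | some j => exact even_two_mul n
  · exact if_neg fun h => he1 h.symm
  · rw [Finset.sum_ite_eq' Finset.univ e.succ (fun _ => n - 1)]
    simp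
  · intro o
    exact Or.inl rfl
  · intro l hl
    rw [Finset.sum_filter, Fintype.sum_option]
    simp only [Option.elim]
    rw [← hsum l hl]
    congr 1
    by_cases hlc : (l : ℕ) ≤ c + 1
    · rw [sum_vtx hcd l hl hlc, if_pos hlc]
    · rw [sum_vtx_zero hcd l (by omega), if_neg hlc]

/-- Seed A: the cycle through all the variables but `X_1`, of even length `d+1`. -/
theorem Vval_A (n d : ℕ) (hn : 1 ≤ n) (hd : Odd d) :
    0 < Vval n d d 1 (2 * n - 2) := by
  have hd1 : 1 ≤ d := by
    obtain ⟨k, hk⟩ := hd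
    omega
  have hone : ((1 : Fin (d + 1)) : ℕ) = 1 := by
    obtain ⟨k, rfl⟩ : ∃ k, d = k + 1 := ⟨d - 1, by omega⟩
    simp
  have h2 : (((1 : Fin (d + 1)).succ : Fin (d + 2)) : ℕ) = 2 := by
    rw [Fin.val_succ, hone]
  refine Vval_aux hn le_rfl hd 1 ?_ ?_
    (fun l => decide ((l : ℕ) ≠ 0 ∧ (l : ℕ) % 2 = 0)) ?_ ?_ ?_
  · intro h
    have := congrArg Fin.val h
    rw [hone] at this
    simp at this
  · exact ⟨n - 1, by omega⟩
  · intro l _
    rfl
  · simp only [h2]
    simp
  · intro l hl
    rw [if_pos (show (l : ℕ) ≤ d + 1 by have := l.2; omega)]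
    by_cases h : (1 : Fin (d + 1)).succ = l
    · rw [if_pos h, if_pos h.symm]
      omega
    · rw [if_neg h, if_neg (show ¬ l = (1 : Fin (d + 1)).succ from fun h' => h h'.symm)]
      omega

/-- Seed B: a cycle of even length `d` with a pendant edge. -/
theorem Vval_B (n d : ℕ) (hn : 1 ≤ n) (hd : Even d) (hd2 : 2 ≤ d) :
    0 < Vval n d (d - 1) (Fin.last d) (4 * n - 2) := by
  have h2 : (((Fin.last d).succ : Fin (d + 2)) : ℕ) = d + 1 := by
    simp
  refine Vval_aux hn (by omega) ?_ (Fin.last d) ?_ ?_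
    (fun l => if (l : ℕ) = d + 1 then true else decide ((l : ℕ) ≠ 0 ∧ (l : ℕ) % 2 = 0)) ?_ ?_ ?_
  · obtain ⟨k, hk⟩ := hd
    exact ⟨k - 1, by omega⟩
  · intro h
    have := congrArg Fin.val h
    simp at this
    omega
  · exact ⟨2 * n - 1, by omega⟩
  · intro l hl
    rw [if_neg (by omega)]
  · simp only [h2]
    simp
  · intro l hl
    have hl2 := l.2
    by_cases h : (Fin.last d).succ = l
    · have hv : (l : ℕ) = d + 1 := by rw [← h, h2]
      rw [if_pos h, if_pos h.symm, if_neg (by omega)]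
      omega
    · have hv : (l : ℕ) ≠ d + 1 := by
        intro h3
        exact h (Fin.ext (by rw [h2, h3]))
      rw [if_neg h, if_neg (show ¬ l = (Fin.last d).succ from fun h' => h h'.symm),
        if_pos (by omega)]
      omega

end Pool.Agent.H84Spl
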