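import Pool.Agent.H84Spl.SeedG
import Pool.Agent.H84Spl.VAB
import Pool.Agent.H84Spl.Cyc1
import Pool.Agent.H84Spl.HSpl

/-! # Seeds exist in all cases -/

namespace Pool.Agent.H84Spl

open MvPolynomial

theorem exists_seed (n d : ℕ) (hn : 1 ≤ n) (hd : 1 ≤ d) : ∃ g, SeedOK n d g := by
  have h10 : (1 : Fin (d + 1)) ≠ 0 := by
    rw [Ne, Fin.one_eq_zero_iff]
    omega
  rcases Nat.even_or_odd d with hev | hodd
  · have hd2 : 2 ≤ d := by
      obtain ⟨k, hk⟩ := hev
      omega
    rcases Nat.lt_or_ge n 2 with hn1 | hn2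
    · obtain rfl : n = 1 := by omega
      refine ⟨gseed 1 d d 1 (fun _ => 1), seed_general (D := 0) le_rfl hd le_rfl 1 h10
        (fun _ => 1) (fun _ => 1) contDiff_const ?_ ?_ ?_ 1 one_pos ?_ ?_ ?_
        (Vval_one d hev hd2)⟩
      · intro κ t _ _
        simp
      · intro κ
        simp
      · unfold Kdeg
        omega
      · intro κ
        right
        simp
      · simp
      · intro i hi
        exact absurd i.2 (by omega)
    · obtain ⟨q, Q, t₀, ht₀, hq, hQ, hdeg, htop, htop0, htube⟩ := hspl n hn2
      refine ⟨gseed n d (d - 1) (Fin.last d) q, seed_general (D := 4 * n - 2) hn (by omega)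
        (by omega) (Fin.last d) ?_ q Q hq hQ hdeg ?_ t₀ ht₀ htop htop0 ?_
        (Vval_B n d hn hev hd2).ne'⟩
      · intro h
        have := congrArg Fin.val h
        simp at this
        omega
      · unfold Kdeg
        have h1 : 2 * n * (d - 1 + 1) = 2 * n * d := by
          congr 1
          omega
        have h2 : 2 * n * (d + 2) = 2 * n * d + 4 * n := by ring
        rw [h1, h2]
        omega
      · intro i hi
        refine ⟨?_, htube⟩
        apply Fin.ext
        have := i.2
        simp only [Fin.val_last]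
        omega
  · refine ⟨gseed n d d 1 (fun t => t ^ (2 * n - 2)), seed_general (D := 2 * n - 2) hn hd le_rfl 1
      h10 (fun t => t ^ (2 * n - 2)) (fun _ => Polynomial.X ^ (2 * n - 2))
      (contDiff_id.pow _) ?_ ?_ ?_ 1 one_pos ?_ ?_ ?_ (Vval_A n d hn hodd).ne'⟩
    · intro κ t _ _
      simp
    · intro κ
      simp
    · unfold Kdeg
      have h2 : 2 * n * (d + 2) = 2 * n * (d + 1) + 2 * n := by ring
      rw [h2]
      omega
    · intro κ
      right
      simp
    · simp
    · intro i hi
      exact absurd i.2 (by omega)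

end Pool.Agent.H84Spl
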