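import Pool.Agent.H84Spl.Final1
import Pool.Agent.H84Spl.Seeds

/-! # The lower bound for the minimal degree -/

namespace Pool.Agent.H84Spl

open MvPolynomial

theorem main (s r : ℕ) (hs : 2 ≤ s) (hr : Odd r) :
    (∀ m : ℕ, ∃ T : Triang s,
      (∃ M N : ℕ, 0 < M ∧ M < N ∧ T.region =
        {x : Fin s → ℝ | (∀ i, |x i| ≤ (N : ℝ)) ∧ ∃ i, (M : ℝ) ≤ |x i|}) ∧
      Submodule.span ℝ {f | f ∈ T.splineSpace r ((s + 1) * (r + 1) - 2) ∧
        T.LocallySupported m f} ≠ T.splineSpace r ((s + 1) * (r + 1) - 2)) ∧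
    ¬ HasLocalBases s r ((s + 1) * (r + 1) - 2) ∧
    ∀ K : ℕ, (∀ k, K ≤ k → HasLocalBases s r k) → (s + 1) * (r + 1) - 1 ≤ K := by
  obtain ⟨d, rfl⟩ : ∃ d, s = d + 1 := ⟨s - 1, by omega⟩
  obtain ⟨q, rfl⟩ := hr
  have hd : 1 ≤ d := by omega
  obtain ⟨g, hg⟩ := exists_seed (q + 1) d (by omega) hd
  have hK : Kdeg (q + 1) d = (d + 1 + 1) * (2 * q + 1 + 1) - 2 := by
    unfold Kdeg
    congr 1
    ring
  have hr' : 2 * (q + 1) - 1 = 2 * q + 1 := by omega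
  have h1 : ∀ m : ℕ, ∃ T : Triang (d + 1),
      (∃ M N : ℕ, 0 < M ∧ M < N ∧ T.region =
        {x : Fin (d + 1) → ℝ | (∀ i, |x i| ≤ (N : ℝ)) ∧ ∃ i, (M : ℝ) ≤ |x i|}) ∧
      Submodule.span ℝ {f | f ∈ T.splineSpace (2 * q + 1) ((d + 1 + 1) * (2 * q + 1 + 1) - 2) ∧
        T.LocallySupported m f} ≠
        T.splineSpace (2 * q + 1) ((d + 1 + 1) * (2 * q + 1 + 1) - 2) := by
    intro m
    have := no_local_span (n := q + 1) (by omega) hg m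
    rwa [hr', hK] at this
  have h2 : ¬ HasLocalBases (d + 1) (2 * q + 1) ((d + 1 + 1) * (2 * q + 1 + 1) - 2) := by
    rintro ⟨m, _, hm⟩
    obtain ⟨T, _, hT⟩ := h1 m
    exact no_local_basis_of_span hT (hm T)
  refine ⟨h1, h2, fun K hKK => ?_⟩
  by_contra hlt
  exact h2 (hKK _ (by omega))

end Pool.Agent.H84Spl
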