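import Pool.Agent.H84Spl.MatchG

/-! # Matching across a facet inside a cube -/

namespace Pool.Agent.H84Spl

open MvPolynomial

theorem m1_mem_kcell {s : ℕ} (z : Fin s → ℤ) (π : Equiv.Perm (Fin s)) (x : Fin s → ℝ)
    (w : Fin s → ℝ) (hw : ∀ i, x (π i) - z (π i) = w i) (h0 : ∀ i, 0 ≤ w i) (h1 : ∀ i, w i ≤ 1)
    (h2 : ∀ a b : Fin s, a < b → w b ≤ w a) : x ∈ kcell z π := by
  refine ⟨fun i => ?_, fun a b hab => ?_⟩
  · have h := hw (π.symm i)
    rw [Equiv.apply_symm_apply] at h
    have := h0 (π.symm i)
    have := h1 (π.symm i)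
    constructor <;> linarith
  · rw [hw, hw]
    rcases hab.lt_or_eq with h | h
    · exact h2 a b h
    · rw [h]

theorem match_swap {s : ℕ} (r : ℕ) (f : (Fin s → ℝ) → ℝ) (Ω : Set (Fin s → ℝ))
    (hf : ContDiffOn ℝ (r : WithTop ℕ∞) f Ω) (z : Fin s → ℤ) (π : Equiv.Perm (Fin s))
    (j j' : Fin s) (hj : (j' : ℕ) = j + 1) (P Q : MvPolynomial (Fin s) ℝ)
    (h1 : kcell z π ⊆ Ω) (h2 : kcell z (π * Equiv.swap j j') ⊆ Ω)
    (hP : ∀ x ∈ kcell z π, f x = eval x P)
    (hQ : ∀ x ∈ kcell z (π * Equiv.swap j j'), f x = eval x Q) :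
    ∃ c : ℝ, (X (π j) - X (π j') - C c) ^ (r + 1) ∣ P - Q := by
  have hjj : j ≠ j' := by
    intro h
    rw [← h] at hj
    omega
  obtain ⟨q, hq⟩ : ∃ q : ℝ, q = 1 / ((s : ℝ) + 1) := ⟨_, rfl⟩
  have hs0 : (0 : ℝ) ≤ s := Nat.cast_nonneg s
  have hq0 : 0 < q := by rw [hq]; positivity
  have hqs : (s : ℝ) * q = 1 - q := by
    rw [hq]; field_simp; ring
  -- centres
  obtain ⟨Y, hY⟩ : ∃ Y : Fin s → ℝ, ∀ i, Y i = ((s : ℝ) - (i : ℕ)) * q := ⟨_, fun _ => rfl⟩
  have hYlt : ∀ a b : Fin s, a < b → Y b + q ≤ Y a := by
    intro a b hab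
    rw [hY, hY]
    have h : ((a : ℕ) : ℝ) + 1 ≤ ((b : ℕ) : ℝ) := by exact_mod_cast hab
    nlinarith [mul_le_mul_of_nonneg_right h hq0.le]
  have hYj : Y j = Y j' + q := by
    rw [hY, hY, hj]; push_cast; ring
  have hYlo : ∀ i, q ≤ Y i := by
    intro i
    rw [hY]
    have h : ((i : ℕ) : ℝ) + 1 ≤ (s : ℝ) := by exact_mod_cast i.isLt
    nlinarith [mul_le_mul_of_nonneg_right h hq0.le]
  have hYhi : ∀ i, Y i ≤ 1 - q := by
    intro i
    rw [hY]
    have h : (0 : ℝ) ≤ ((i : ℕ) : ℝ) := Nat.cast_nonneg _
    nlinarith [mul_nonneg h hq0.le]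
  obtain ⟨c, hc⟩ : ∃ c : ℝ, c = (z (π j) : ℝ) - z (π j') := ⟨_, rfl⟩
  refine ⟨c, ?_⟩
  have hrw : (X (π j) - X (π j') - C c : MvPolynomial (Fin s) ℝ) = X (π j) - (X (π j') + C c) := by
    ring
  rw [hrw]
  have hvars : π j ∉ (X (π j') + C c : MvPolynomial (Fin s) ℝ).vars := by
    intro h
    have h' := vars_add_subset _ _ h
    rw [vars_X, vars_C, Finset.union_empty, Finset.mem_singleton] at h'
    exact hjj (π.injective h')
  -- values on the box
  have key : ∀ u ∈ Set.pi Set.univ (fun k : Fin s => Set.Ioo ((z k : ℝ) + Y (π.symm k) - q / 4)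
      ((z k : ℝ) + Y (π.symm k) + q / 4)), ∀ t : ℝ,
      ∃ y : Fin s → ℝ, (∀ i, Y i - q / 4 < y i ∧ y i < Y i + q / 4) ∧
        (∀ i, i ≠ j → Function.update u (π j) (eval u (X (π j') + C c) + t) (π i) - z (π i) = y i) ∧
        Function.update u (π j) (eval u (X (π j') + C c) + t) (π j) - z (π j) = y j' + t := by
    intro u hu t
    refine ⟨fun i => u (π i) - z (π i), ?_, ?_, ?_⟩
    · intro i
      have h := hu (π i) (Set.mem_univ _)
      simp only [Equiv.symm_apply_apply, Set.mem_Ioo] at h
      constructor <;> linarith [h.1, h.2]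
    · intro i hi
      rw [Function.update_of_ne (fun h => hi (π.injective h))]
    · rw [Function.update_self]
      simp only [map_add, eval_X, eval_C]
      rw [hc]
      ring
  refine match_general r f Ω (kcell z π) (kcell z (π * Equiv.swap j j')) hf h1 h2 P Q hP hQ (π j)
    (X (π j') + C c) hvars (fun k : Fin s => Set.Ioo ((z k : ℝ) + Y (π.symm k) - q / 4)
      ((z k : ℝ) + Y (π.symm k) + q / 4)) (fun k => Set.Ioo_infinite (by linarith)) (q / 4)
    (by linarith) ?_ ?_
  · intro u hu t ht
    obtain ⟨y, hy, hx, hxj⟩ := key u hu t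
    have ht0 := ht.1
    have ht1 := ht.2
    have h4 : ∀ i, 0 ≤ (if i = j then y j' + t else y i) ∧ (if i = j then y j' + t else y i) ≤ 1 := by
      intro i
      split_ifs with h
      · have := hy j'
        have := hYlo j'
        have := hYhi j
        constructor <;> linarith [hy j']
      · have := hy i
        have := hYlo i
        have := hYhi i
        constructor <;> linarith [hy i]
    refine m1_mem_kcell z π _ (fun i => if i = j then y j' + t else y i) ?_ (fun i => (h4 i).1)
      (fun i => (h4 i).2) ?_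
    · intro i
      split_ifs with h
      · rw [h]; exact hxj
      · exact hx i h
    · intro a b hab
      have hYab := hYlt a b hab
      by_cases ha : a = j
      · have hb : b ≠ j := fun h => by rw [ha, h] at hab; exact lt_irrefl _ hab
        rw [if_pos ha, if_neg hb]
        by_cases hb' : b = j'
        · rw [hb']; linarith
        · have hlt : j' < b := by
            rw [Fin.lt_def, hj]
            have h1' : (j : ℕ) < b := by rw [ha] at hab; exact hab
            have h2' : (b : ℕ) ≠ j' := fun h => hb' (Fin.ext h)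
            omega
          have := hYlt j' b hlt
          linarith [(hy j').1, (hy b).2]
      · rw [if_neg ha]
        by_cases hb : b = j
        · rw [if_pos hb]
          rw [hb] at hYab
          linarith [(hy a).1, (hy j').2]
        · rw [if_neg hb]
          linarith [(hy a).1, (hy b).2]
  · intro u hu t ht
    obtain ⟨y, hy, hx, hxj⟩ := key u hu t
    have ht0 := ht.1
    have ht1 := ht.2
    -- order `π * swap`
    have hw : ∀ i, Function.update u (π j) (eval u (X (π j') + C c) + t)
        ((π * Equiv.swap j j') i) - z ((π * Equiv.swap j j') i) =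
        (if i = j then y j' else if i = j' then y j' + t else y i) := by
      intro i
      rw [Equiv.Perm.mul_apply]
      by_cases hi : i = j
      · rw [if_pos hi, hi, Equiv.swap_apply_left]
        exact hx j' (Ne.symm hjj)
      · rw [if_neg hi]
        by_cases hi' : i = j'
        · rw [if_pos hi', hi', Equiv.swap_apply_right]
          exact hxj
        · rw [if_neg hi', Equiv.swap_apply_of_ne_of_ne hi hi']
          exact hx i hi
    have h4 : ∀ i, 0 ≤ (if i = j then y j' else if i = j' then y j' + t else y i) ∧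
        (if i = j then y j' else if i = j' then y j' + t else y i) ≤ 1 := by
      intro i
      have a1 := hy j'
      have a2 := hYlo j'
      have a3 := hYhi j'
      have a4 := hy i
      have a5 := hYlo i
      have a6 := hYhi i
      split_ifs with h h'
      · constructor <;> linarith [a1.1, a1.2]
      · constructor <;> linarith [a1.1, a1.2]
      · constructor <;> linarith [a4.1, a4.2]
    refine m1_mem_kcell z (π * Equiv.swap j j') _
      (fun i => if i = j then y j' else if i = j' then y j' + t else y i) hw (fun i => (h4 i).1)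
      (fun i => (h4 i).2) ?_
    intro a b hab
    have hYab := hYlt a b hab
    have hjlt : j < j' := by rw [Fin.lt_def, hj]; omega
    have b1 := hy j'
    have b2 := hy a
    have b3 := hy b
    by_cases ha : a = j
    · have hb : b ≠ j := fun h => by rw [ha, h] at hab; exact lt_irrefl _ hab
      rw [if_pos ha, if_neg hb]
      by_cases hb' : b = j'
      · rw [if_pos hb']; linarith
      · rw [if_neg hb']
        have hlt : j' < b := by
          rw [Fin.lt_def, hj]
          have h1' : (j : ℕ) < b := by rw [ha] at hab; exact hab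
          have h2' : (b : ℕ) ≠ j' := fun h => hb' (Fin.ext h)
          omega
        have := hYlt j' b hlt
        linarith [b1.1, b3.2]
    · rw [if_neg ha]
      by_cases ha' : a = j'
      · rw [if_pos ha']
        have hb : b ≠ j := fun h => by
          rw [ha', h] at hab; exact lt_asymm hab hjlt
        have hb' : b ≠ j' := fun h => by rw [ha', h] at hab; exact lt_irrefl _ hab
        rw [if_neg hb, if_neg hb']
        rw [ha'] at hYab
        linarith [b1.1, b3.2]
      · rw [if_neg ha']
        by_cases hb : b = j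
        · rw [if_pos hb]
          rw [hb] at hYab
          linarith [b2.1, b1.2]
        · rw [if_neg hb]
          by_cases hb' : b = j'
          · rw [if_pos hb']
            rw [hb'] at hYab
            linarith [b2.1, b1.2]
          · rw [if_neg hb']
            linarith [b2.1, b3.2]

end Pool.Agent.H84Spl
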