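import Pool.Agent.H84Spl.MatchG

/-! # Matching across a facet between two cubes -/

namespace Pool.Agent.H84Spl

open MvPolynomial

theorem match_cross {d : ℕ} (r : ℕ) (f : (Fin (d + 1) → ℝ) → ℝ) (Ω : Set (Fin (d + 1) → ℝ))
    (hf : ContDiffOn ℝ (r : WithTop ℕ∞) f Ω) (z : Fin (d + 1) → ℤ)
    (π : Equiv.Perm (Fin (d + 1))) (P Q : MvPolynomial (Fin (d + 1)) ℝ)
    (h1 : kcell z π ⊆ Ω) (h2 : kcell (z + uvec (π 0)) (π * finRotate (d + 1)) ⊆ Ω)
    (hP : ∀ x ∈ kcell z π, f x = eval x P)
    (hQ : ∀ x ∈ kcell (z + uvec (π 0)) (π * finRotate (d + 1)), f x = eval x Q) :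
    ∃ c : ℝ, (X (π 0) - C c) ^ (r + 1) ∣ P - Q := by
  refine ⟨((z (π 0) : ℤ) : ℝ) + 1, ?_⟩
  rw [dvd_sub_comm]
  obtain ⟨δ, hδ, hδ1⟩ : ∃ δ : ℝ, 0 < δ ∧ 4 * δ * (d + 2) = 1 :=
    ⟨1 / (4 * ((d : ℝ) + 2)), by positivity, by field_simp⟩
  set w : Fin (d + 1) → ℝ := fun i => 4 * δ * ((d : ℝ) + 1 - ((π.symm i : ℕ) : ℝ)) with hw
  set U : Fin (d + 1) → Set ℝ := fun i => Set.Icc ((z i : ℝ) + w i - δ) ((z i : ℝ) + w i + δ) with hU
  have hu : ∀ u ∈ Set.pi Set.univ U, ∀ i, (z i : ℝ) + w i - δ ≤ u i ∧ u i ≤ (z i : ℝ) + w i + δ :=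
    fun u hu i => hu i (Set.mem_univ i)
  have hk : ∀ i : Fin (d + 1), ((π.symm i : ℕ) : ℝ) ≤ d := by
    intro i
    have := (π.symm i).2
    exact_mod_cast Nat.lt_succ_iff.1 this
  have hk1 : ∀ i : Fin (d + 1), i ≠ π 0 → (1 : ℝ) ≤ ((π.symm i : ℕ) : ℝ) := by
    intro i hi
    have : (π.symm i) ≠ 0 := by
      intro h
      apply hi
      rw [← h, Equiv.apply_symm_apply]
    have h3 : 1 ≤ (π.symm i : ℕ) := Nat.one_le_iff_ne_zero.2 (fun h => this (Fin.ext h))
    exact_mod_cast h3
  have hzr : ∀ i : Fin (d + 1), (((z + uvec (π 0)) i : ℤ) : ℝ) = z i + if i = π 0 then 1 else 0 := by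
    intro i
    by_cases hi : i = π 0
    · subst hi; simp [uvec]
    · simp [uvec, hi]
  refine match_general r f Ω (kcell (z + uvec (π 0)) (π * finRotate (d + 1))) (kcell z π) hf h2 h1
    Q P hQ hP (π 0) (C (((z (π 0) : ℤ) : ℝ) + 1)) ?_ U ?_ δ hδ ?_ ?_
  · rw [vars_C]; simp
  · intro i
    exact Set.Icc_infinite (by linarith)
  · intro u huU t ht
    have hx := hu u huU
    rw [eval_C]
    set x := Function.update u (π 0) ((z (π 0) : ℝ) + 1 + t) with hxdef
    have hxa : x (π 0) = (z (π 0) : ℝ) + 1 + t := by rw [hxdef, Function.update_self]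
    have hxi : ∀ i, i ≠ π 0 → x i = u i := fun i hi => by rw [hxdef, Function.update_of_ne hi]
    refine ⟨fun i => ?_, fun p q hpq => ?_⟩
    · rw [hzr]
      by_cases hi : i = π 0
      · subst hi
        rw [hxa, if_pos rfl]
        have : δ ≤ 1 := by nlinarith [mul_nonneg hδ.le (Nat.cast_nonneg d : (0 : ℝ) ≤ d)]
        constructor <;> linarith [ht.1, ht.2]
      · rw [hxi i hi, if_neg hi]
        have e1 := hk i
        have e2 := hk1 i hi
        have e3 := mul_le_mul_of_nonneg_left e1 hδ.le
        have e4 := mul_le_mul_of_nonneg_left e2 hδ.le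
        have e5 := hx i
        simp only [hw] at e5
        constructor <;> nlinarith [e5.1, e5.2]
    · rcases eq_or_lt_of_le hpq with h | h
      · rw [h]
      · have hpl : (p : ℕ) < d := lt_of_lt_of_le h (Nat.lt_succ_iff.1 q.2)
        have hfp : ((finRotate (d + 1) p : Fin (d + 1)) : ℕ) = p + 1 := by
          rw [coe_finRotate_of_ne_last]
          intro h4
          rw [h4, Fin.val_last] at hpl
          exact lt_irrefl _ hpl
        have hp0 : π (finRotate (d + 1) p) ≠ π 0 := by
          intro h4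
          have := π.injective h4
          rw [this] at hfp
          simp at hfp
        have ep := hx (π (finRotate (d + 1) p))
        simp only [hw, Equiv.symm_apply_apply, hfp] at ep
        rw [Equiv.Perm.mul_apply, Equiv.Perm.mul_apply, hzr, hzr, if_neg hp0, hxi _ hp0]
        by_cases hq : (q : ℕ) = d
        · have hq1 : finRotate (d + 1) q = 0 := by
            have : q = Fin.last d := Fin.ext hq
            rw [this, finRotate_last]
          rw [hq1, if_pos rfl, hxa]
          have e1 : ((p : ℕ) : ℝ) + 1 ≤ d := by exact_mod_cast hpl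
          have e3 := mul_le_mul_of_nonneg_left e1 hδ.le
          push_cast at ep
          nlinarith [ep.1, ep.2, ht.1, ht.2]
        · have hfq : ((finRotate (d + 1) q : Fin (d + 1)) : ℕ) = q + 1 := by
            rw [coe_finRotate_of_ne_last]
            intro h4
            apply hq
            rw [h4, Fin.val_last]
          have hq0 : π (finRotate (d + 1) q) ≠ π 0 := by
            intro h4
            have := π.injective h4
            rw [this] at hfq
            simp at hfq
          have eq1 := hx (π (finRotate (d + 1) q))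
          simp only [hw, Equiv.symm_apply_apply, hfq] at eq1
          rw [if_neg hq0, hxi _ hq0]
          have e1 : ((p : ℕ) : ℝ) + 1 ≤ (q : ℕ) := by exact_mod_cast h
          have e3 := mul_le_mul_of_nonneg_left e1 hδ.le
          push_cast at ep eq1
          nlinarith [ep.1, ep.2, eq1.1, eq1.2]
  · intro u huU t ht
    have hx := hu u huU
    rw [eval_C]
    set x := Function.update u (π 0) ((z (π 0) : ℝ) + 1 + t) with hxdef
    have hxa : x (π 0) = (z (π 0) : ℝ) + 1 + t := by rw [hxdef, Function.update_self]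
    have hxi : ∀ i, i ≠ π 0 → x i = u i := fun i hi => by rw [hxdef, Function.update_of_ne hi]
    have hδ2 : δ ≤ 1 := by nlinarith [mul_nonneg hδ.le (Nat.cast_nonneg d : (0 : ℝ) ≤ d)]
    refine ⟨fun i => ?_, fun p q hpq => ?_⟩
    · by_cases hi : i = π 0
      · subst hi
        rw [hxa]
        constructor <;> linarith [ht.1, ht.2]
      · rw [hxi i hi]
        have e1 := hk i
        have e2 := hk1 i hi
        have e3 := mul_le_mul_of_nonneg_left e1 hδ.le
        have e4 := mul_le_mul_of_nonneg_left e2 hδ.le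
        have e5 := hx i
        simp only [hw] at e5
        constructor <;> nlinarith [e5.1, e5.2]
    · rcases eq_or_lt_of_le hpq with h | h
      · rw [h]
      · have hq0 : π q ≠ π 0 := by
          intro h4
          have := π.injective h4
          rw [this] at h
          exact absurd h (by simp)
        have eq1 := hx (π q)
        simp only [hw, Equiv.symm_apply_apply] at eq1
        rw [hxi _ hq0]
        have hpq1 : ((p : ℕ) : ℝ) + 1 ≤ (q : ℕ) := by exact_mod_cast h
        have e3 := mul_le_mul_of_nonneg_left hpq1 hδ.le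
        by_cases hp : p = 0
        · rw [hp, hxa]
          have hp' : ((p : ℕ) : ℝ) = 0 := by rw [hp]; simp
          rw [hp'] at e3
          nlinarith [eq1.1, eq1.2, ht.1, ht.2]
        · have hp0 : π p ≠ π 0 := fun h4 => hp (π.injective h4)
          have ep := hx (π p)
          simp only [hw, Equiv.symm_apply_apply] at ep
          rw [hxi _ hp0]
          nlinarith [ep.1, ep.2, eq1.1, eq1.2]

end Pool.Agent.H84Spl
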