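import Mathlib

/-! # One-dimensional smoothness: a `C^r` function which is `0` to the left of `0` and a polynomial
to the right of `0` -/

namespace Pool.Agent.H84Spl

open Set

/-- On an open part of the interval where `F` is a polynomial the iterated derivatives are those
of the polynomial. -/
theorem iteratedDerivWithin_eq_poly (F : ℝ → ℝ) (a b : ℝ) (p : Polynomial ℝ) (c d : ℝ)
    (hac : a ≤ c) (hdb : d ≤ b) (h : ∀ t ∈ Ioo c d, F t = p.eval t) (n : ℕ) :
    ∀ t ∈ Ioo c d, iteratedDerivWithin n F (Icc a b) t = (Polynomial.derivative^[n] p).eval t := by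
  induction n with
  | zero =>
    intro t ht
    simp [h t ht]
  | succ n ih =>
    intro t ht
    have hmem : Icc a b ∈ nhds t :=
      Icc_mem_nhds (lt_of_le_of_lt hac ht.1) (lt_of_lt_of_le ht.2 hdb)
    rw [iteratedDerivWithin_succ, derivWithin_of_mem_nhds hmem]
    have hev : iteratedDerivWithin n F (Icc a b) =ᶠ[nhds t]
        fun u => (Polynomial.derivative^[n] p).eval u := by
      filter_upwards [Ioo_mem_nhds ht.1 ht.2] with u hu
      exact ih u hu
    rw [hev.deriv_eq, Polynomial.deriv, Function.iterate_succ_apply']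

theorem oneD (r : ℕ) (F : ℝ → ℝ) (δ : ℝ) (hδ : 0 < δ) (p : Polynomial ℝ)
    (hF : ContDiffOn ℝ (r : WithTop ℕ∞) F (Icc (-δ) δ)) (h0 : ∀ t ∈ Icc (-δ) 0, F t = 0)
    (h1 : ∀ t ∈ Icc 0 δ, F t = p.eval t) : (Polynomial.X : Polynomial ℝ) ^ (r + 1) ∣ p := by
  rw [Polynomial.X_pow_dvd_iff]
  intro n hn
  have hu : UniqueDiffOn ℝ (Icc (-δ) δ) := uniqueDiffOn_Icc (by linarith)
  have hcont : ContinuousOn (iteratedDerivWithin n F (Icc (-δ) δ)) (Icc (-δ) δ) :=
    hF.continuousOn_iteratedDerivWithin (by exact_mod_cast Nat.lt_succ_iff.mp hn) hu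
  have hc0 : ContinuousWithinAt (iteratedDerivWithin n F (Icc (-δ) δ)) (Icc (-δ) δ) 0 :=
    hcont 0 ⟨by linarith, by linarith⟩
  -- from the right
  have hr : iteratedDerivWithin n F (Icc (-δ) δ) 0 = (Polynomial.derivative^[n] p).eval 0 := by
    have hne : (nhdsWithin (0 : ℝ) (Ioo 0 δ)).NeBot := left_nhdsWithin_Ioo_neBot hδ
    have ht1 : Filter.Tendsto (iteratedDerivWithin n F (Icc (-δ) δ)) (nhdsWithin 0 (Ioo 0 δ))
        (nhds (iteratedDerivWithin n F (Icc (-δ) δ) 0)) :=
      hc0.mono_left (nhdsWithin_mono _ fun t ht => ⟨by linarith [ht.1], ht.2.le⟩)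
    have ht2 : Filter.Tendsto (iteratedDerivWithin n F (Icc (-δ) δ)) (nhdsWithin 0 (Ioo 0 δ))
        (nhds ((Polynomial.derivative^[n] p).eval 0)) := by
      have h3 : Filter.Tendsto (fun u => (Polynomial.derivative^[n] p).eval u)
          (nhdsWithin 0 (Ioo 0 δ)) (nhds ((Polynomial.derivative^[n] p).eval 0)) :=
        ((Polynomial.derivative^[n] p).continuous.tendsto 0).mono_left nhdsWithin_le_nhds
      refine h3.congr' ?_
      filter_upwards [self_mem_nhdsWithin] with t ht
      exact (iteratedDerivWithin_eq_poly F (-δ) δ p 0 δ (by linarith) le_rfl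
        (fun u hu => h1 u ⟨hu.1.le, hu.2.le⟩) n t ht).symm
    exact tendsto_nhds_unique ht1 ht2
  -- from the left
  have hl : iteratedDerivWithin n F (Icc (-δ) δ) 0 = 0 := by
    have hne : (nhdsWithin (0 : ℝ) (Ioo (-δ) 0)).NeBot :=
      right_nhdsWithin_Ioo_neBot (by linarith)
    have ht1 : Filter.Tendsto (iteratedDerivWithin n F (Icc (-δ) δ)) (nhdsWithin 0 (Ioo (-δ) 0))
        (nhds (iteratedDerivWithin n F (Icc (-δ) δ) 0)) :=
      hc0.mono_left (nhdsWithin_mono _ fun t ht => ⟨ht.1.le, by linarith [ht.2]⟩)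
    have ht2 : Filter.Tendsto (iteratedDerivWithin n F (Icc (-δ) δ)) (nhdsWithin 0 (Ioo (-δ) 0))
        (nhds 0) := by
      refine (tendsto_const_nhds (x := (0 : ℝ))).congr' ?_
      filter_upwards [self_mem_nhdsWithin] with t ht
      have := iteratedDerivWithin_eq_poly F (-δ) δ 0 (-δ) 0 le_rfl hδ.le
        (fun u hu => by simpa using h0 u ⟨hu.1.le, hu.2.le⟩) n t ht
      rw [this]
      simp
    exact tendsto_nhds_unique ht1 ht2
  have hz : (Polynomial.derivative^[n] p).eval 0 = 0 := by rw [← hr, hl]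
  rw [← Polynomial.coeff_zero_eq_eval_zero, Polynomial.coeff_iterate_derivative] at hz
  have hne : (((0 + n).descFactorial n : ℕ) : ℝ) ≠ 0 := by
    rw [zero_add, Nat.descFactorial_self]
    exact_mod_cast (Nat.factorial_pos n).ne'
  rw [nsmul_eq_mul] at hz
  simpa using (mul_eq_zero.mp hz).resolve_left hne

end Pool.Agent.H84Spl
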