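import Pool.Agent.H84Spl.Def
import Pool.Agent.H84Spl.OneD
import Pool.Agent.H84Spl.DivL

/-! # Smoothness across a facet gives divisibility of the difference of the two polynomials -/

namespace Pool.Agent.H84Spl

open MvPolynomial

theorem match_general {s : ℕ} (r : ℕ) (f : (Fin s → ℝ) → ℝ) (Ω σ τ : Set (Fin s → ℝ))
    (hf : ContDiffOn ℝ (r : WithTop ℕ∞) f Ω) (hσΩ : σ ⊆ Ω) (hτΩ : τ ⊆ Ω)
    (P Q : MvPolynomial (Fin s) ℝ) (hP : ∀ x ∈ σ, f x = eval x P) (hQ : ∀ x ∈ τ, f x = eval x Q)
    (a : Fin s) (B : MvPolynomial (Fin s) ℝ) (hB : a ∉ B.vars) (U : Fin s → Set ℝ)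
    (hU : ∀ i, (U i).Infinite) (δ : ℝ) (hδ : 0 < δ)
    (hσ : ∀ u ∈ Set.pi Set.univ U, ∀ t ∈ Set.Icc 0 δ, Function.update u a (eval u B + t) ∈ σ)
    (hτ : ∀ u ∈ Set.pi Set.univ U, ∀ t ∈ Set.Icc (-δ) 0, Function.update u a (eval u B + t) ∈ τ) :
    (X a - B) ^ (r + 1) ∣ P - Q := by
  apply div_of_lines (P - Q) a B hB (r + 1) U hU
  intro u hu
  have hev : ∀ (S : MvPolynomial (Fin s) ℝ) (t : ℝ),
      (aeval (fun i => if i = a then Polynomial.X + Polynomial.C (eval u B)
        else Polynomial.C (u i)) S : Polynomial ℝ).eval t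
        = eval (Function.update u a (eval u B + t)) S := by
    intro S t
    rw [← Polynomial.coe_evalRingHom, aeval_def, hom_eval₂]
    have h1 : (Polynomial.evalRingHom t).comp (algebraMap ℝ (Polynomial ℝ)) = RingHom.id ℝ := by
      ext x
      simp
    rw [h1]
    have h2 : (fun i => (Polynomial.evalRingHom t) (if i = a then
        Polynomial.X + Polynomial.C (eval u B) else Polynomial.C (u i)))
        = Function.update u a (eval u B + t) := by
      funext i
      by_cases hi : i = a
      · subst hi
        simp [add_comm]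
      · simp [hi]
    have h3 : eval₂ (RingHom.id ℝ) (fun i => (Polynomial.evalRingHom t) (if i = a then
        Polynomial.X + Polynomial.C (eval u B) else Polynomial.C (u i))) S
        = eval₂ (RingHom.id ℝ) (Function.update u a (eval u B + t)) S := by rw [h2]
    rw [← eval₂_id]
    exact h3
  have hg : ContDiff ℝ (r : WithTop ℕ∞) (fun t : ℝ => Function.update u a (eval u B + t)) := by
    rw [contDiff_pi]
    intro i
    by_cases hi : i = a
    · subst hi
      simp only [Function.update_self]
      exact contDiff_const.add contDiff_id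
    · simp only [Function.update_of_ne hi]
      exact contDiff_const
  apply oneD r (fun t => f (Function.update u a (eval u B + t)) -
    (aeval (fun i => if i = a then Polynomial.X + Polynomial.C (eval u B)
        else Polynomial.C (u i)) Q : Polynomial ℝ).eval t) δ hδ
  · apply ContDiffOn.sub
    · have hm : Set.MapsTo (fun t : ℝ => Function.update u a (eval u B + t)) (Set.Icc (-δ) δ) Ω := by
        intro t ht
        rcases le_total 0 t with h | h
        · exact hσΩ (hσ u hu t ⟨h, ht.2⟩)
        · exact hτΩ (hτ u hu t ⟨ht.1, h⟩)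
      exact hf.comp hg.contDiffOn hm
    · have hq := (Polynomial.contDiff_aeval (𝕜 := ℝ) (aeval (fun i => if i = a then
        Polynomial.X + Polynomial.C (eval u B) else Polynomial.C (u i)) Q : Polynomial ℝ)
        (r : WithTop ℕ∞))
      simp only [Polynomial.coe_aeval_eq_eval] at hq
      exact hq.contDiffOn
  · intro t ht
    rw [hQ _ (hτ u hu t ht), hev Q t, sub_self]
  · intro t ht
    rw [hP _ (hσ u hu t ht), hev Q t, hev (P - Q) t, map_sub]

end Pool.Agent.H84Spl
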