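import Pool.Agent.H84Spl.Conv
import Pool.Agent.H84Spl.Indep
import Pool.Agent.H84Spl.Inter

/-! # The Kuhn mesh of a cubical shell as a triangulation -/

namespace Pool.Agent.H84Spl

open Classical in
/-- The Kuhn triangulation of the cubical shell. -/
noncomputable def shellT (s M N : ℕ) : Triang s where
  cells := (shell s M N ×ˢ (Finset.univ : Finset (Equiv.Perm (Fin s)))).image
    fun p => ksimp p.1 p.2
  card_eq := by
    intro σ hσ
    obtain ⟨p, _, rfl⟩ := Finset.mem_image.1 hσ
    exact ksimp_card _ _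
  indep := by
    intro σ hσ
    obtain ⟨p, _, rfl⟩ := Finset.mem_image.1 hσ
    exact ksimp_indep _ _
  inter := by
    intro σ hσ τ hτ
    obtain ⟨p, _, rfl⟩ := Finset.mem_image.1 hσ
    obtain ⟨q, _, rfl⟩ := Finset.mem_image.1 hτ
    exact ksimp_inter _ _ _ _

theorem mem_shellT_cells {s M N : ℕ} {σ : Finset (Fin s → ℝ)} :
    σ ∈ (shellT s M N).cells ↔ ∃ z ∈ shell s M N, ∃ π, σ = ksimp z π := by
  classical
  unfold shellT
  simp only [Finset.mem_image, Finset.mem_product, Finset.mem_univ, and_true, Prod.exists]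
  constructor
  · rintro ⟨z, π, hz, rfl⟩
    exact ⟨z, hz, π, rfl⟩
  · rintro ⟨z, hz, π, rfl⟩
    exact ⟨z, π, hz, rfl⟩

theorem mem_shellT_region {s M N : ℕ} {x : Fin s → ℝ} :
    x ∈ (shellT s M N).region ↔ ∃ z ∈ shell s M N, ∃ π, x ∈ kcell z π := by
  unfold Triang.region
  simp only [Set.mem_setOf_eq, mem_shellT_cells]
  constructor
  · rintro ⟨σ, ⟨z, hz, π, rfl⟩, hx⟩
    rw [convexHull_ksimp] at hx
    exact ⟨z, hz, π, hx⟩
  · rintro ⟨z, hz, π, hx⟩
    refine ⟨ksimp z π, ⟨z, hz, π, rfl⟩, ?_⟩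
    rw [convexHull_ksimp]
    exact hx

theorem mem_box_iff {s N : ℕ} {z : Fin s → ℤ} :
    z ∈ box s N ↔ ∀ i, -(N : ℤ) ≤ z i ∧ z i < N := by
  unfold box
  simp only [Fintype.mem_piFinset, Finset.mem_Ico]

theorem mem_shell_iff {s M N : ℕ} {z : Fin s → ℤ} :
    z ∈ shell s M N ↔ (∀ i, -(N : ℤ) ≤ z i ∧ z i < N) ∧ ∃ i, z i < -(M : ℤ) ∨ (M : ℤ) ≤ z i := by
  unfold shell
  rw [Finset.mem_sdiff, mem_box_iff, mem_box_iff]
  refine and_congr_right fun _ => ?_
  push Not
  constructor
  · rintro ⟨i, hi⟩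
    refine ⟨i, ?_⟩
    by_cases h : z i < -(M : ℤ)
    · exact Or.inl h
    · exact Or.inr (hi (by omega))
  · rintro ⟨i, hi⟩
    refine ⟨i, fun h => ?_⟩
    omega

/-- every point of the cube `z + [0,1]^s` is in some cell of that cube -/
theorem exists_kcell {s : ℕ} (z : Fin s → ℤ) (x : Fin s → ℝ)
    (hx : ∀ i, (z i : ℝ) ≤ x i ∧ x i ≤ z i + 1) : ∃ π, x ∈ kcell z π := by
  refine ⟨Tuple.sort (fun i => -(x i - z i)), hx, fun a b hab => ?_⟩
  have := Tuple.monotone_sort (fun i => -(x i - z i)) hab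
  simp only [Function.comp_apply] at this
  linarith

theorem shellT_region_eq {s M N : ℕ} (hM : 0 < M) (hMN : M < N) :
    (shellT s M N).region =
      {x : Fin s → ℝ | (∀ i, |x i| ≤ (N : ℝ)) ∧ ∃ i, (M : ℝ) ≤ |x i|} := by
  ext x
  rw [mem_shellT_region, Set.mem_setOf_eq]
  constructor
  · rintro ⟨z, hz, π, hx⟩
    rw [mem_shell_iff] at hz
    obtain ⟨h1, i, hi⟩ := hz
    refine ⟨fun j => ?_, i, ?_⟩
    · obtain ⟨a1, a2⟩ := h1 j
      obtain ⟨b1, b2⟩ := hx.1 j
      have c1 : (-(N : ℝ)) ≤ z j := by exact_mod_cast a1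
      have c2 : (z j : ℝ) + 1 ≤ N := by exact_mod_cast a2
      rw [abs_le]
      constructor <;> linarith
    · obtain ⟨b1, b2⟩ := hx.1 i
      rcases hi with hi | hi
      · have c1 : (z i : ℝ) + 1 ≤ -(M : ℝ) := by exact_mod_cast hi
        rw [le_abs]
        right
        linarith
      · have c1 : (M : ℝ) ≤ z i := by exact_mod_cast hi
        rw [le_abs]
        left
        linarith
  · rintro ⟨h1, i, hi⟩
    set z : Fin s → ℤ := fun j =>
      if 0 ≤ x j then min ⌊x j⌋ ((N : ℤ) - 1) else max (⌈x j⌉ - 1) (-(N : ℤ)) with hz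
    have hN1 : (1 : ℤ) ≤ N := by omega
    have key : ∀ j, (z j : ℝ) ≤ x j ∧ x j ≤ z j + 1 := by
      intro j
      have hj := abs_le.mp (h1 j)
      simp only [hz]
      split_ifs with h0
      · have f1 := Int.floor_le (x j)
        have f2 := Int.lt_floor_add_one (x j)
        rcases min_choice ⌊x j⌋ ((N : ℤ) - 1) with h | h
        · rw [h]
          exact ⟨f1, f2.le⟩
        · have h' : ((N : ℤ) - 1) ≤ ⌊x j⌋ := by
            rw [← h]
            exact min_le_left _ _
          rw [h]
          have h'' : (((N : ℤ) - 1 : ℤ) : ℝ) ≤ (⌊x j⌋ : ℝ) := by exact_mod_cast h'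
          push_cast at h'' ⊢
          constructor <;> linarith
      · have f1 := Int.le_ceil (x j)
        have f2 := Int.ceil_lt_add_one (x j)
        rcases max_choice (⌈x j⌉ - 1) (-(N : ℤ)) with h | h
        · rw [h]
          push_cast
          constructor <;> linarith
        · have h' : ⌈x j⌉ - 1 ≤ -(N : ℤ) := by
            rw [← h]
            exact le_max_left _ _
          rw [h]
          have h'' : (⌈x j⌉ : ℝ) - 1 ≤ -(N : ℝ) := by exact_mod_cast h'
          push_cast
          constructor <;> linarith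
    obtain ⟨π, hπ⟩ := exists_kcell z x key
    refine ⟨z, ?_, π, hπ⟩
    rw [mem_shell_iff]
    refine ⟨fun j => ?_, i, ?_⟩
    · have hj := abs_le.mp (h1 j)
      simp only [hz]
      split_ifs with h0
      · have f1 : 0 ≤ ⌊x j⌋ := Int.floor_nonneg.mpr h0
        refine ⟨?_, ?_⟩
        · rw [le_min_iff]
          constructor <;> omega
        · rw [min_lt_iff]
          right
          omega
      · have f1 : ⌈x j⌉ ≤ 0 := by
          rw [Int.ceil_le]
          push Not at h0
          push_cast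
          exact h0.le
        refine ⟨le_max_right _ _, ?_⟩
        rw [max_lt_iff]
        constructor <;> omega
    · have hi' := h1 i
      simp only [hz]
      split_ifs with h0
      · right
        rw [abs_of_nonneg h0] at hi
        rw [le_min_iff]
        refine ⟨?_, by omega⟩
        rw [Int.le_floor]
        exact_mod_cast hi
      · left
        push Not at h0
        rw [abs_of_neg h0] at hi
        rw [max_lt_iff]
        refine ⟨?_, by omega⟩
        have : ⌈x i⌉ ≤ -(M : ℤ) := by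
          rw [Int.ceil_le]
          push_cast
          linarith
        omega

theorem star_subset {s M N : ℕ} (v : Fin s → ℝ) (m : ℕ) :
    (shellT s M N).star v m ⊆ {x : Fin s → ℝ | ∀ i, |x i - v i| ≤ (m : ℝ)} := by
  induction m with
  | zero =>
    intro x hx
    unfold Triang.star at hx
    rw [Set.mem_singleton_iff] at hx
    subst hx
    intro i
    simp
  | succ m ih =>
    intro x hx
    unfold Triang.star at hx
    obtain ⟨σ, hσ, ⟨y, hy1, hy2⟩, hx⟩ := hx
    obtain ⟨z, hz, π, rfl⟩ := mem_shellT_cells.mp hσ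
    rw [convexHull_ksimp] at hy1 hx
    have h1 := ih hy2
    intro i
    have h2 := abs_le.mp (h1 i)
    obtain ⟨a1, a2⟩ := hy1.1 i
    obtain ⟨b1, b2⟩ := hx.1 i
    push_cast
    rw [abs_le]
    constructor <;> linarith

end Pool.Agent.H84Spl
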