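import Pool.Agent.H84Spl.Def

/-! # A polynomial is determined by its values on a Kuhn cell -/

namespace Pool.Agent.H84Spl

open MvPolynomial

theorem eq_of_eqOn_kcell {s : ℕ} (z : Fin s → ℤ) (π : Equiv.Perm (Fin s))
    (P Q : MvPolynomial (Fin s) ℝ) (h : ∀ x ∈ kcell z π, eval x P = eval x Q) : P = Q := by
  have hs : (0 : ℝ) < (s : ℝ) + 1 := by positivity
  set c : Fin s → ℝ := fun i => (z i : ℝ) + ((s : ℝ) - ((π.symm i : ℕ) : ℝ)) / ((s : ℝ) + 1) with hc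
  set ρ : ℝ := 1 / (4 * ((s : ℝ) + 1)) with hρ
  have hρ0 : 0 < ρ := by positivity
  refine MvPolynomial.funext_set (fun i => Set.Icc (c i - ρ) (c i + ρ))
    (fun i => Set.Icc_infinite (by linarith)) ?_
  intro x hx
  apply h
  have hx' : ∀ i, c i - ρ ≤ x i ∧ x i ≤ c i + ρ := fun i => by
    simpa using hx i (Set.mem_univ i)
  have hlt : ∀ i : Fin s, ((π.symm i : ℕ) : ℝ) + 1 ≤ s := fun i => by
    exact_mod_cast (π.symm i).isLt
  have h4 : ρ * (4 * ((s : ℝ) + 1)) = 1 := by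
    rw [hρ]; field_simp
  refine ⟨fun i => ?_, fun a b hab => ?_⟩
  · have h1 := hx' i
    have h2 := hlt i
    have h3 : (0 : ℝ) ≤ ((π.symm i : ℕ) : ℝ) := Nat.cast_nonneg _
    have hfr : ((s : ℝ) - ((π.symm i : ℕ) : ℝ)) / ((s : ℝ) + 1) * ((s : ℝ) + 1)
        = (s : ℝ) - ((π.symm i : ℕ) : ℝ) := by field_simp
    simp only [hc] at h1
    constructor
    · have : ρ ≤ ((s : ℝ) - ((π.symm i : ℕ) : ℝ)) / ((s : ℝ) + 1) := by
        rw [hρ, div_le_div_iff₀ (by positivity) hs]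
        nlinarith
      linarith [h1.1]
    · have : ((s : ℝ) - ((π.symm i : ℕ) : ℝ)) / ((s : ℝ) + 1) + ρ ≤ 1 := by
        have h5 : (((s : ℝ) - ((π.symm i : ℕ) : ℝ)) / ((s : ℝ) + 1) + ρ) * (4 * ((s : ℝ) + 1))
            ≤ 1 * (4 * ((s : ℝ) + 1)) := by
          rw [add_mul, h4]
          nlinarith [hfr]
        exact le_of_mul_le_mul_right h5 (by positivity)
      linarith [h1.2]
  · rcases eq_or_lt_of_le hab with rfl | hlt'
    · exact le_rfl
    · have ha := hx' (π a)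
      have hb := hx' (π b)
      simp only [hc, Equiv.symm_apply_apply] at ha hb
      have hab' : ((a : ℕ) : ℝ) + 1 ≤ ((b : ℕ) : ℝ) := by exact_mod_cast hlt'
      have key : ((s : ℝ) - ((b : ℕ) : ℝ)) / ((s : ℝ) + 1) + ρ
          ≤ ((s : ℝ) - ((a : ℕ) : ℝ)) / ((s : ℝ) + 1) - ρ := by
        have hA : ((s : ℝ) - ((a : ℕ) : ℝ)) / ((s : ℝ) + 1) * ((s : ℝ) + 1)
            = (s : ℝ) - ((a : ℕ) : ℝ) := by field_simp
        have hB : ((s : ℝ) - ((b : ℕ) : ℝ)) / ((s : ℝ) + 1) * ((s : ℝ) + 1)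
            = (s : ℝ) - ((b : ℕ) : ℝ) := by field_simp
        have h5 : (((s : ℝ) - ((b : ℕ) : ℝ)) / ((s : ℝ) + 1) + ρ) * (4 * ((s : ℝ) + 1))
            ≤ (((s : ℝ) - ((a : ℕ) : ℝ)) / ((s : ℝ) + 1) - ρ) * (4 * ((s : ℝ) + 1)) := by
          rw [add_mul, sub_mul, h4]
          nlinarith [hA, hB]
        exact le_of_mul_le_mul_right h5 (by positivity)
      linarith [ha.1, hb.2]

end Pool.Agent.H84Spl
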