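import Pool.Agent.H84Spl.Mesh
import Pool.Agent.H84Spl.Uniq
import Pool.Agent.H84Spl.Match1
import Pool.Agent.H84Spl.Match2
import Pool.Agent.H84Spl.Kill
import Pool.Agent.H84Spl.Flux

/-! # The outer and the inner flux of a spline on the shell -/

namespace Pool.Agent.H84Spl

open MvPolynomial

/-- `p` is the family of the cell polynomials of `f` on the shell. -/
def IsFam (s M N K : ℕ) (f : (Fin s → ℝ) → ℝ)
    (p : (Fin s → ℤ) → Equiv.Perm (Fin s) → MvPolynomial (Fin s) ℝ) : Prop :=
  ∀ z ∈ shell s M N, ∀ π, (p z π).totalDegree ≤ K ∧ ∀ x ∈ kcell z π, f x = eval x (p z π)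

open Classical in
/-- the flux through the outer boundary -/
noncomputable def outer (n d M N : ℕ)
    (p : (Fin (d + 1) → ℤ) → Equiv.Perm (Fin (d + 1)) → MvPolynomial (Fin (d + 1)) ℝ) : ℝ :=
  ∑ z ∈ shell (d + 1) M N, ∑ π : Equiv.Perm (Fin (d + 1)),
    ((if z + uvec (π 0) ∈ box (d + 1) N then 0 else psi n d (π 0) (p z π)) -
      (if z - uvec (π (Fin.last d)) ∈ box (d + 1) N then 0
        else psi n d (π (Fin.last d)) (p z π)))

open Classical in
/-- the flux through the inner boundary -/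
noncomputable def inner (n d M N : ℕ)
    (p : (Fin (d + 1) → ℤ) → Equiv.Perm (Fin (d + 1)) → MvPolynomial (Fin (d + 1)) ℝ) : ℝ :=
  ∑ z ∈ shell (d + 1) M N, ∑ π : Equiv.Perm (Fin (d + 1)),
    ((if z + uvec (π 0) ∈ box (d + 1) M then psi n d (π 0) (p z π) else 0) -
      (if z - uvec (π (Fin.last d)) ∈ box (d + 1) M then psi n d (π (Fin.last d)) (p z π)
        else 0))

theorem kcell_subset_region {s M N : ℕ} {z : Fin s → ℤ} (hz : z ∈ shell s M N)
    (π : Equiv.Perm (Fin s)) : kcell z π ⊆ (shellT s M N).region :=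
  fun _ hx => mem_shellT_region.2 ⟨z, hz, π, hx⟩

theorem totalDegree_sub_le' {σ : Type} {K : ℕ} {P Q : MvPolynomial σ ℝ}
    (hP : P.totalDegree ≤ K) (hQ : Q.totalDegree ≤ K) : (P - Q).totalDegree ≤ K :=
  (totalDegree_sub P Q).trans (max_le hP hQ)

theorem outer_add_inner (n d M N : ℕ) (hn : 1 ≤ n) (hMN : M < N)
    (f : (Fin (d + 1) → ℝ) → ℝ)
    (hf : ContDiffOn ℝ ((2 * n - 1 : ℕ) : WithTop ℕ∞) f (shellT (d + 1) M N).region)
    (p : (Fin (d + 1) → ℤ) → Equiv.Perm (Fin (d + 1)) → MvPolynomial (Fin (d + 1)) ℝ)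
    (hp : IsFam (d + 1) M N (Kdeg n d) f p) : outer n d M N p + inner n d M N p = 0 := by
  classical
  have hr : 2 * n - 1 + 1 = 2 * n := by omega
  have key := flux (shell (d + 1) M N) (fun z π i => psi n d i (p z π)) ?_ ?_
  · rw [← key]
    unfold outer inner
    rw [← Finset.sum_add_distrib]
    refine Finset.sum_congr rfl fun z hz => ?_
    rw [← Finset.sum_add_distrib]
    refine Finset.sum_congr rfl fun π _ => ?_
    have hbox : box (d + 1) M ⊆ box (d + 1) N := by
      intro y hy
      rw [mem_box_iff] at hy ⊢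
      intro i
      have := hy i
      constructor <;> push_cast <;> omega
    have e1 : ∀ y : Fin (d + 1) → ℤ, y ∈ shell (d + 1) M N ↔
        y ∈ box (d + 1) N ∧ y ∉ box (d + 1) M := by
      intro y
      unfold shell
      rw [Finset.mem_sdiff]
    have e2 : ∀ (y : Fin (d + 1) → ℤ) (t : ℝ),
        (if y ∈ shell (d + 1) M N then 0 else t) =
        (if y ∈ box (d + 1) N then 0 else t) + (if y ∈ box (d + 1) M then t else 0) := by
      intro y t
      by_cases hN : y ∈ box (d + 1) N
      · by_cases hM : y ∈ box (d + 1) M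
        · simp [e1, hN, hM]
        · simp [e1, hN, hM]
      · have hM : y ∉ box (d + 1) M := fun h => hN (hbox h)
        simp [e1, hN, hM]
    rw [e2, e2]
    ring
  · intro z hz π j j' hj
    have hne : π j ≠ π j' := by
      intro h
      have := π.injective h
      rw [this] at hj
      omega
    obtain ⟨hd1, hP⟩ := hp z hz π
    obtain ⟨hd2, hQ⟩ := hp z hz (π * Equiv.swap j j')
    obtain ⟨c, hc⟩ := match_swap (2 * n - 1) f _ hf z π j j' hj _ _
      (kcell_subset_region hz _) (kcell_subset_region hz _) hP hQ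
    rw [hr] at hc
    have := kill_swap n d hn (π j) (π j') hne c _ (totalDegree_sub_le' hd1 hd2) hc
    rw [psi_sub, psi_sub] at this
    linarith
  · intro z hz π hz'
    obtain ⟨hd1, hP⟩ := hp z hz π
    obtain ⟨hd2, hQ⟩ := hp _ hz' (π * finRotate (d + 1))
    obtain ⟨c, hc⟩ := match_cross (2 * n - 1) f _ hf z π _ _
      (kcell_subset_region hz _) (kcell_subset_region hz' _) hP hQ
    rw [hr] at hc
    have := kill_cross n d hn (π 0) c _ (totalDegree_sub_le' hd1 hd2) hc
    rw [psi_sub] at this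
    linarith

end Pool.Agent.H84Spl
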