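import Pool.Agent.H84Spl.Def

/-! # Basic properties of the apolar pairing -/

namespace Pool.Agent.H84Spl

open MvPolynomial

variable {σ : Type} [Fintype σ]

theorem pair_eq_sum (L P : MvPolynomial σ ℝ) (S : Finset (σ →₀ ℕ)) (hS : L.support ⊆ S) :
    pair L P = ∑ e ∈ S, coeff e L * efac e * coeff e P := by
  unfold pair
  refine Finset.sum_subset hS fun e _ he => ?_
  rw [notMem_support_iff.1 he]
  ring

theorem pair_add_left (L L' P : MvPolynomial σ ℝ) : pair (L + L') P = pair L P + pair L' P := by
  classical
  rw [pair_eq_sum L P (L.support ∪ L'.support) Finset.subset_union_left,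
    pair_eq_sum L' P (L.support ∪ L'.support) Finset.subset_union_right,
    pair_eq_sum (L + L') P (L.support ∪ L'.support) support_add, ← Finset.sum_add_distrib]
  refine Finset.sum_congr rfl fun e _ => ?_
  rw [coeff_add]
  ring

theorem pair_C_mul_left (c : ℝ) (L P : MvPolynomial σ ℝ) : pair (C c * L) P = c * pair L P := by
  classical
  rw [pair_eq_sum (C c * L) P L.support ?_, pair, Finset.mul_sum]
  · refine Finset.sum_congr rfl fun e _ => ?_
    rw [coeff_C_mul]
    ring
  · intro e he
    rw [mem_support_iff, coeff_C_mul] at he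
    rw [mem_support_iff]
    exact right_ne_zero_of_mul he

theorem pair_sub_left (L L' P : MvPolynomial σ ℝ) : pair (L - L') P = pair L P - pair L' P := by
  have h : L - L' = L + C (-1) * L' := by
    rw [map_neg, map_one]
    ring
  rw [h, pair_add_left, pair_C_mul_left]
  ring

theorem pair_zero_left (P : MvPolynomial σ ℝ) : pair 0 P = 0 := by
  simp [pair]

theorem pair_sum_left {ι : Type} (S : Finset ι) (L : ι → MvPolynomial σ ℝ)
    (P : MvPolynomial σ ℝ) : pair (∑ i ∈ S, L i) P = ∑ i ∈ S, pair (L i) P := by
  classical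
  induction S using Finset.induction_on with
  | empty => simp [pair_zero_left]
  | insert a S ha ih => rw [Finset.sum_insert ha, Finset.sum_insert ha, pair_add_left, ih]

theorem pair_add_right (L P P' : MvPolynomial σ ℝ) : pair L (P + P') = pair L P + pair L P' := by
  unfold pair
  rw [← Finset.sum_add_distrib]
  refine Finset.sum_congr rfl fun e _ => ?_
  rw [coeff_add]
  ring

theorem pair_C_mul_right (c : ℝ) (L P : MvPolynomial σ ℝ) : pair L (C c * P) = c * pair L P := by
  unfold pair
  rw [Finset.mul_sum]
  refine Finset.sum_congr rfl fun e _ => ?_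
  rw [coeff_C_mul]
  ring

theorem pair_sub_right (L P P' : MvPolynomial σ ℝ) : pair L (P - P') = pair L P - pair L P' := by
  have h : P - P' = P + C (-1) * P' := by
    rw [map_neg, map_one]
    ring
  rw [h, pair_add_right, pair_C_mul_right]
  ring

theorem pair_zero_right (L : MvPolynomial σ ℝ) : pair L 0 = 0 := by
  simp [pair]

theorem pair_sum_right {ι : Type} (S : Finset ι) (L : MvPolynomial σ ℝ)
    (P : ι → MvPolynomial σ ℝ) : pair L (∑ i ∈ S, P i) = ∑ i ∈ S, pair L (P i) := by
  classical
  induction S using Finset.induction_on with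
  | empty => simp [pair_zero_right]
  | insert a S ha ih => rw [Finset.sum_insert ha, Finset.sum_insert ha, pair_add_right, ih]

theorem pair_monomial_left (e : σ →₀ ℕ) (c : ℝ) (P : MvPolynomial σ ℝ) :
    pair (monomial e c) P = c * efac e * coeff e P := by
  classical
  rw [pair_eq_sum _ P {e} support_monomial_subset, Finset.sum_singleton, coeff_monomial,
    if_pos rfl]

theorem efac_add_single (e : σ →₀ ℕ) (i : σ) :
    efac (e + Finsupp.single i 1) = ((e i : ℝ) + 1) * efac e := by
  classical
  unfold efac
  rw [← Finset.mul_prod_erase Finset.univ _ (Finset.mem_univ i),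
    ← Finset.mul_prod_erase Finset.univ (fun j => ((e j).factorial : ℝ)) (Finset.mem_univ i),
    ← mul_assoc]
  congr 1
  · simp [Nat.factorial_succ]
  · refine Finset.prod_congr rfl fun j hj => ?_
    have : i ≠ j := fun h => (Finset.mem_erase.1 hj).1 h.symm
    simp [this]

/-- adjointness: multiplication by a variable on the right is derivation on the left -/
theorem pair_X_mul_right (i : σ) (L P : MvPolynomial σ ℝ) :
    pair L (X i * P) = pair (pderiv i L) P := by
  classical
  induction L using MvPolynomial.induction_on' with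
  | monomial e c =>
    rw [pderiv_monomial, pair_monomial_left, pair_monomial_left]
    by_cases hi : e i = 0
    · have : coeff e (X i * P) = 0 := by
        rw [coeff_X_mul', if_neg]
        rwa [Finsupp.mem_support_iff, not_not]
      rw [this, hi]
      simp
    · obtain ⟨e', rfl⟩ : ∃ e', e = e' + Finsupp.single i 1 := by
        refine ⟨e - Finsupp.single i 1, ?_⟩
        ext j
        by_cases hj : i = j
        · subst hj
          simp
          omega
        · simp [hj]
      have h1 : e' + Finsupp.single i 1 - Finsupp.single i 1 = e' := by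
        ext j
        simp
      rw [h1, efac_add_single, add_comm e', coeff_X_mul]
      have h2 : (Finsupp.single i 1 + e' : σ →₀ ℕ) i = e' i + 1 := by
        rw [Finsupp.add_apply, Finsupp.single_eq_same, add_comm]
      rw [h2]
      push_cast
      ring
  | add L L' hL hL' => rw [pair_add_left, hL, hL', map_add, pair_add_left]

theorem pair_congr_top {K : ℕ} {L : MvPolynomial σ ℝ} (hL : L.IsHomogeneous K)
    {P Q : MvPolynomial σ ℝ} (h : ∀ e : σ →₀ ℕ, e.degree = K → coeff e P = coeff e Q) :
    pair L P = pair L Q := by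
  unfold pair
  refine Finset.sum_congr rfl fun e he => ?_
  have : e.degree = K := by
    have h1 := hL (mem_support_iff.1 he)
    rw [Finsupp.degree_eq_weight_one (R := ℕ)]
    exact h1
  rw [h e this]

theorem pair_eq_zero_of_degree {K : ℕ} {L : MvPolynomial σ ℝ} (hL : L.IsHomogeneous K)
    {P : MvPolynomial σ ℝ} (hP : P.totalDegree < K) : pair L P = 0 := by
  rw [pair_congr_top hL (Q := 0), pair_zero_right]
  intro e he
  rw [coeff_zero]
  refine coeff_eq_zero_of_totalDegree_lt ?_
  rw [← Finsupp.degree_apply, he]
  exact hP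

theorem Lpoly_isHomogeneous {n : ℕ} (hn : 1 ≤ n) (d : ℕ) (a : Fin (d + 2)) :
    (Lpoly n d a).IsHomogeneous (Kdeg n d) := by
  unfold Lpoly
  refine IsHomogeneous.sum _ _ _ fun m hm => ?_
  have hm' : ∑ l, m l = n - 1 := (Finset.mem_piAntidiag.1 hm).1
  have h := IsHomogeneous.prod Finset.univ
    (fun l : Fin (d + 2) => if l = a then (C (km n (m l)) * X l ^ (2 * m l) :
      MvPolynomial (Fin (d + 2)) ℝ) else C (kp n (m l)) * X l ^ (2 * n + 2 * m l))
    (fun l => if l = a then 2 * m l else 2 * n + 2 * m l) ?_
  · convert h using 1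
    have h1 : ∀ l : Fin (d + 2), (if l = a then 2 * m l else 2 * n + 2 * m l) =
        2 * m l + (if l = a then 0 else 2 * n) := by
      intro l
      split_ifs <;> omega
    rw [Finset.sum_congr rfl fun l _ => h1 l, Finset.sum_add_distrib, ← Finset.mul_sum, hm']
    have h2 : ∑ l : Fin (d + 2), (if l = a then 0 else 2 * n) = 2 * n * (d + 1) := by
      rw [← Finset.add_sum_erase Finset.univ _ (Finset.mem_univ a)]
      rw [if_pos rfl, zero_add, Finset.sum_congr rfl (fun l hl =>
        if_neg (Finset.mem_erase.1 hl).1)]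
      rw [Finset.sum_const, Finset.card_erase_of_mem (Finset.mem_univ a), Finset.card_univ,
        Fintype.card_fin, smul_eq_mul]
      simp [mul_comm]
    rw [h2]
    unfold Kdeg
    obtain ⟨q, rfl⟩ : ∃ q, n = q + 1 := ⟨n - 1, by omega⟩
    have : 2 * (q + 1) * (d + 2) = 2 * (q + 1) * (d + 1) + 2 * (q + 1) := by ring
    omega
  · intro l _
    have hC : ∀ (c : ℝ) (k : ℕ), (C c * X l ^ k :
        MvPolynomial (Fin (d + 2)) ℝ).IsHomogeneous k := by
      intro c k
      have := (isHomogeneous_C (Fin (d + 2)) c).mul ((isHomogeneous_X ℝ l).pow k)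
      simpa using this
    split_ifs with hl
    · exact hC _ _
    · exact hC _ _

theorem totalDegree_hlift_le (d : ℕ) (P : MvPolynomial (Fin (d + 1)) ℝ) :
    (hlift d P).totalDegree ≤ P.totalDegree := by
  have h1 : ∀ e : Fin (d + 1) →₀ ℕ, e ∈ P.support →
      (hlift d (monomial e (coeff e P))).totalDegree ≤ P.totalDegree := by
    intro e he
    unfold hlift
    rw [aeval_monomial]
    refine (totalDegree_mul _ _).trans ?_
    have : (algebraMap ℝ (MvPolynomial (Fin (d + 2)) ℝ) (coeff e P)).totalDegree = 0 := by
      rw [algebraMap_eq, totalDegree_C]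
    rw [this, zero_add]
    refine (totalDegree_finsetProd _ _).trans ?_
    refine le_trans ?_ (le_totalDegree he)
    refine Finset.sum_le_sum fun i _ => ?_
    refine (totalDegree_pow _ _).trans ?_
    have hX : (X i.succ - X 0 : MvPolynomial (Fin (d + 2)) ℝ).totalDegree ≤ 1 := by
      refine (totalDegree_sub _ _).trans ?_
      simp [totalDegree_X]
    calc e i * _ ≤ e i * 1 := Nat.mul_le_mul_left _ hX
      _ = e i := mul_one _
  conv_lhs => rw [P.as_sum, map_sum]
  exact totalDegree_finsetSum_le h1

theorem psi_add (n d : ℕ) (i : Fin (d + 1)) (P Q : MvPolynomial (Fin (d + 1)) ℝ) :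
    psi n d i (P + Q) = psi n d i P + psi n d i Q := by
  unfold psi
  rw [map_add, pair_add_right]

theorem psi_sub (n d : ℕ) (i : Fin (d + 1)) (P Q : MvPolynomial (Fin (d + 1)) ℝ) :
    psi n d i (P - Q) = psi n d i P - psi n d i Q := by
  unfold psi
  rw [map_sub, pair_sub_right]

theorem psi_C_mul (n d : ℕ) (i : Fin (d + 1)) (c : ℝ) (P : MvPolynomial (Fin (d + 1)) ℝ) :
    psi n d i (C c * P) = c * psi n d i P := by
  unfold psi
  rw [map_mul, ← pair_C_mul_right]
  congr 2
  simp [hlift]

theorem psi_zero (n d : ℕ) (i : Fin (d + 1)) : psi n d i 0 = 0 := by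
  unfold psi
  rw [map_zero, pair_zero_right]

end Pool.Agent.H84Spl
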