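import Mathlib

/-! # Truncated powers are smooth -/

namespace Pool.Agent.H84Spl

theorem hasDerivAt_max_pow (k : ℕ) (t : ℝ) :
    HasDerivAt (fun t : ℝ => (max t 0) ^ (k + 2)) (((k + 2 : ℕ) : ℝ) * (max t 0) ^ (k + 1)) t := by
  rcases lt_trichotomy t 0 with h | h | h
  · rw [max_eq_right h.le, zero_pow (by omega), mul_zero]
    have h1 : HasDerivAt (fun _ : ℝ => (0 : ℝ)) 0 t := hasDerivAt_const t 0
    refine h1.congr_of_eventuallyEq ?_
    filter_upwards [Iio_mem_nhds h] with x hx
    rw [max_eq_right (le_of_lt hx), zero_pow (by omega)]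
  · subst h
    rw [max_self, zero_pow (by omega), mul_zero]
    have h1 : HasDerivWithinAt (fun t : ℝ => (max t 0) ^ (k + 2)) 0 (Set.Iic 0) 0 := by
      have h2 : HasDerivWithinAt (fun _ : ℝ => (0 : ℝ)) 0 (Set.Iic 0) 0 :=
        hasDerivWithinAt_const _ _ _
      refine h2.congr ?_ ?_
      · intro x hx
        rw [max_eq_right hx, zero_pow (by omega)]
      · rw [max_self, zero_pow (by omega)]
    have h3 : HasDerivWithinAt (fun t : ℝ => (max t 0) ^ (k + 2)) 0 (Set.Ici 0) 0 := by
      have h2 : HasDerivWithinAt (fun t : ℝ => t ^ (k + 2)) (((k + 2 : ℕ) : ℝ) * 0 ^ (k + 2 - 1))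
          (Set.Ici 0) 0 := (hasDerivAt_pow (k + 2) (0 : ℝ)).hasDerivWithinAt
      rw [zero_pow (by omega), mul_zero] at h2
      refine h2.congr ?_ ?_
      · intro x hx
        rw [max_eq_left hx]
      · rw [max_self]
    have h4 := h1.union h3
    rw [Set.Iic_union_Ici] at h4
    exact hasDerivWithinAt_univ.1 h4
  · rw [max_eq_left h.le]
    have h1 : HasDerivAt (fun t : ℝ => t ^ (k + 2)) (((k + 2 : ℕ) : ℝ) * t ^ (k + 2 - 1)) t :=
      hasDerivAt_pow (k + 2) t
    rw [show k + 2 - 1 = k + 1 by omega] at h1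
    refine h1.congr_of_eventuallyEq ?_
    filter_upwards [Ioi_mem_nhds h] with x hx
    rw [max_eq_left (le_of_lt hx)]

theorem contDiff_max_pow (k : ℕ) :
    ContDiff ℝ (k : WithTop ℕ∞) (fun t : ℝ => (max t 0) ^ (k + 1)) := by
  induction k with
  | zero =>
    rw [Nat.cast_zero, contDiff_zero]
    exact (continuous_id.max continuous_const).pow _
  | succ k ih =>
    rw [Nat.cast_add, Nat.cast_one, contDiff_succ_iff_deriv]
    refine ⟨fun t => (hasDerivAt_max_pow k t).differentiableAt, ?_, ?_⟩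
    · intro h
      exact absurd h (by simp)
    · have h1 : deriv (fun t : ℝ => (max t 0) ^ (k + 1 + 1)) =
          fun t => ((k + 2 : ℕ) : ℝ) * (max t 0) ^ (k + 1) := by
        funext t
        exact (hasDerivAt_max_pow k t).deriv
      rw [h1]
      exact contDiff_const.mul ih

end Pool.Agent.H84Spl
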