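import Pool.Agent.H84Spl.Def

/-! # The mesh hyperplanes do not cut the Kuhn cells -/

namespace Pool.Agent.H84Spl

theorem sign_single {s : ℕ} (z : Fin s → ℤ) (π : Equiv.Perm (Fin s)) (a : Fin s) (c : ℤ) :
    (∀ x ∈ kcell z π, (c : ℝ) ≤ x a) ∨ (∀ x ∈ kcell z π, x a ≤ c) := by
  rcases le_or_gt c (z a) with h | h
  · left
    intro x hx
    have h1 := (hx.1 a).1
    have h2 : (c : ℝ) ≤ z a := by exact_mod_cast h
    linarith
  · right
    intro x hx
    have h1 := (hx.1 a).2
    have h2 : (z a : ℝ) + 1 ≤ c := by exact_mod_cast h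
    linarith

theorem sign_diff {s : ℕ} (z : Fin s → ℤ) (π : Equiv.Perm (Fin s)) (a b : Fin s) (c : ℤ) :
    (∀ x ∈ kcell z π, (c : ℝ) ≤ x a - x b) ∨ (∀ x ∈ kcell z π, x a - x b ≤ c) := by
  rcases le_total (π.symm a) (π.symm b) with hab | hab
  · have hord : ∀ x ∈ kcell z π, x b - z b ≤ x a - z a := by
      intro x hx
      have := hx.2 (π.symm a) (π.symm b) hab
      simpa using this
    rcases le_or_gt c (z a - z b) with h | h
    · left
      intro x hx
      have h1 := hord x hx
      have h2 : (c : ℝ) ≤ z a - z b := by exact_mod_cast h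
      linarith
    · right
      intro x hx
      have h1 := (hx.1 a).2
      have h3 := (hx.1 b).1
      have h2 : (z a : ℝ) - z b + 1 ≤ c := by exact_mod_cast h
      linarith
  · have hord : ∀ x ∈ kcell z π, x a - z a ≤ x b - z b := by
      intro x hx
      have := hx.2 (π.symm b) (π.symm a) hab
      simpa using this
    rcases lt_or_ge c (z a - z b) with h | h
    · left
      intro x hx
      have h1 := (hx.1 a).1
      have h3 := (hx.1 b).2
      have h2 : (c : ℝ) + 1 ≤ z a - z b := by exact_mod_cast h
      linarith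
    · right
      intro x hx
      have h1 := hord x hx
      have h2 : (z a : ℝ) - z b ≤ c := by exact_mod_cast h
      linarith

end Pool.Agent.H84Spl
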