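import Pool.Agent.H84Spl.PairB

/-! # Top-degree parts -/

namespace Pool.Agent.H84Spl

open MvPolynomial

/-- `A'` is the homogeneous part of `A` of degree `a` and `A` has degree at most `a`. -/
def IsTop {σ : Type} (a : ℕ) (A A' : MvPolynomial σ ℝ) : Prop :=
  A'.IsHomogeneous a ∧ ∀ e : σ →₀ ℕ, a ≤ e.degree → coeff e A = coeff e A'

theorem IsTop.coeff_zero {σ : Type} {a : ℕ} {A A' : MvPolynomial σ ℝ} (hA : IsTop a A A')
    {e : σ →₀ ℕ} (h : a < e.degree) : coeff e A = 0 ∧ coeff e A' = 0 := by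
  have h1 : coeff e A' = 0 := hA.1.coeff_eq_zero h.ne'
  exact ⟨(hA.2 e h.le).trans h1, h1⟩

theorem IsTop.mul {σ : Type} {a b : ℕ} {A A' B B' : MvPolynomial σ ℝ} (hA : IsTop a A A')
    (hB : IsTop b B B') : IsTop (a + b) (A * B) (A' * B') := by
  classical
  refine ⟨hA.1.mul hB.1, fun e he => ?_⟩
  rw [coeff_mul, coeff_mul]
  refine Finset.sum_congr rfl fun x hx => ?_
  have hx' : x.1 + x.2 = e := by simpa using hx
  have hd : x.1.degree + x.2.degree = e.degree := by rw [← hx', map_add]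
  rcases lt_or_ge a x.1.degree with h | h
  · rw [(hA.coeff_zero h).1, (hA.coeff_zero h).2, zero_mul, zero_mul]
  · rcases lt_or_ge b x.2.degree with h' | h'
    · rw [(hB.coeff_zero h').1, (hB.coeff_zero h').2, mul_zero, mul_zero]
    · rw [hA.2 x.1 (by omega), hB.2 x.2 (by omega)]

theorem IsTop.pow {σ : Type} {a : ℕ} {A A' : MvPolynomial σ ℝ} (hA : IsTop a A A') (k : ℕ) :
    IsTop (a * k) (A ^ k) (A' ^ k) := by
  induction k with
  | zero => exact ⟨by simpa using isHomogeneous_one σ ℝ, fun e _ => by simp⟩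
  | succ k ih =>
    rw [pow_succ, pow_succ, Nat.mul_succ]
    exact ih.mul hA

theorem IsTop.prod {σ ι : Type} (S : Finset ι) {a : ι → ℕ} {A A' : ι → MvPolynomial σ ℝ}
    (h : ∀ i ∈ S, IsTop (a i) (A i) (A' i)) :
    IsTop (∑ i ∈ S, a i) (∏ i ∈ S, A i) (∏ i ∈ S, A' i) := by
  classical
  induction S using Finset.induction_on with
  | empty => exact ⟨by simpa using isHomogeneous_one σ ℝ, fun e _ => by simp⟩
  | insert i S hi ih =>
    rw [Finset.sum_insert hi, Finset.prod_insert hi, Finset.prod_insert hi]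
    exact (h i (Finset.mem_insert_self i S)).mul
      (ih fun j hj => h j (Finset.mem_insert_of_mem hj))

theorem IsTop.totalDegree_le {σ : Type} {a : ℕ} {A A' : MvPolynomial σ ℝ} (hA : IsTop a A A') :
    A.totalDegree ≤ a := by
  refine Finset.sup_le fun e he => ?_
  by_contra h
  push Not at h
  have h2 : a < e.degree := by
    rw [Finsupp.degree_apply]
    exact h
  exact (mem_support_iff.1 he) (hA.coeff_zero h2).1

theorem isTop_add_C {σ : Type} {A' : MvPolynomial σ ℝ} (hA : A'.IsHomogeneous 1) (c : ℝ) :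
    IsTop 1 (A' + C c) A' := by
  classical
  refine ⟨hA, fun e he => ?_⟩
  have h0 : (0 : σ →₀ ℕ) ≠ e := by
    rintro rfl
    simp at he
  rw [coeff_add, coeff_C, if_neg h0, add_zero]

/-- a univariate polynomial of degree at most `D` evaluated at a linear form -/
theorem isTop_aeval {σ : Type} {A : MvPolynomial σ ℝ} (hA : A.IsHomogeneous 1)
    (Q : Polynomial ℝ) (D : ℕ) (hQ : Q.natDegree ≤ D) :
    IsTop D (Polynomial.aeval A Q) (C (Q.coeff D) * A ^ D) := by
  classical
  have hpow : ∀ k, (A ^ k).IsHomogeneous k := fun k => by simpa using hA.pow k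
  refine ⟨by simpa using (isHomogeneous_C σ (Q.coeff D)).mul (hpow D), fun e he => ?_⟩
  rw [Polynomial.aeval_eq_sum_range' (Nat.lt_succ_of_le hQ), coeff_sum,
    Finset.sum_range_succ, coeff_C_mul, coeff_smul, smul_eq_mul]
  rw [Finset.sum_eq_zero, zero_add]
  intro i hi
  rw [coeff_smul, (hpow i).coeff_eq_zero, smul_zero]
  have := Finset.mem_range.1 hi
  omega

theorem pair_of_isTop {σ : Type} [Fintype σ] {K : ℕ} {L A A' : MvPolynomial σ ℝ}
    (hL : L.IsHomogeneous K) (h : IsTop K A A') : pair L A = pair L A' := by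
  refine Finset.sum_congr rfl fun e he => ?_
  have h1 : e.degree = K := by
    by_contra h2
    exact (mem_support_iff.1 he) (hL.coeff_eq_zero h2)
  rw [h.2 e h1.ge]

end Pool.Agent.H84Spl
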