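import Pool.Agent.H84Spl.VDef
import Pool.Agent.H84Spl.Pow
import Pool.Agent.H84Spl.Sign
import Pool.Agent.H84Spl.Top

/-! # The general seed -/

namespace Pool.Agent.H84Spl

open MvPolynomial

/-- the polynomials `0, X_1, ..., X_c, 1` -/
noncomputable def wvP (d c j : ℕ) : MvPolynomial (Fin (d + 1)) ℝ :=
  if j = 0 then 0 else if j = c + 1 then 1 else X (Fin.ofNat (d + 1) j)

theorem eval_wvP (d c j : ℕ) (x : Fin (d + 1) → ℝ) : eval x (wvP d c j) = wv d c x j := by
  unfold wvP wv
  split_ifs <;> simp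

/-- the polynomial of the seed on a cell -/
noncomputable def seedP (n d c : ℕ) (e : Fin (d + 1)) (Q : Polynomial ℝ) :
    MvPolynomial (Fin (d + 1)) ℝ :=
  (∏ j ∈ Finset.range (c + 1), (wvP d c (j + 1) - wvP d c j) ^ (2 * n)) *
    Polynomial.aeval (X e) Q

theorem eval_aeval_X {d : ℕ} (e : Fin (d + 1)) (Q : Polynomial ℝ) (x : Fin (d + 1) → ℝ) :
    eval x (Polynomial.aeval (X e) Q) = Q.eval (x e) := by
  rw [Polynomial.aeval_def, Polynomial.hom_eval₂, eval_X]
  have h : (eval x).comp (algebraMap ℝ (MvPolynomial (Fin (d + 1)) ℝ)) = RingHom.id ℝ := by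
    ext r
    simp [MvPolynomial.algebraMap_eq]
  rw [h]
  rfl

theorem eval_seedP (n d c : ℕ) (e : Fin (d + 1)) (Q : Polynomial ℝ) (x : Fin (d + 1) → ℝ) :
    eval x (seedP n d c e Q) =
      (∏ j ∈ Finset.range (c + 1), (wv d c x (j + 1) - wv d c x j) ^ (2 * n)) * Q.eval (x e) := by
  rw [seedP, map_mul, eval_aeval_X, map_prod]
  congr 1
  refine Finset.prod_congr rfl fun j _ => ?_
  rw [map_pow, map_sub, eval_wvP, eval_wvP]

theorem totalDegree_wvP_le (d c j : ℕ) : (wvP d c j).totalDegree ≤ 1 := by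
  unfold wvP
  split_ifs
  · simp
  · simp
  · simp [totalDegree_X]

theorem totalDegree_seedP_le (n d c : ℕ) (e : Fin (d + 1)) (Q : Polynomial ℝ) (D : ℕ)
    (hQ : Q.natDegree ≤ D) : (seedP n d c e Q).totalDegree ≤ 2 * n * (c + 1) + D := by
  unfold seedP
  refine (totalDegree_mul _ _).trans (Nat.add_le_add ?_ ?_)
  · refine (totalDegree_finsetProd _ _).trans ?_
    have h1 : ∀ j ∈ Finset.range (c + 1),
        ((wvP d c (j + 1) - wvP d c j) ^ (2 * n)).totalDegree ≤ 2 * n := by
      intro j _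
      refine (totalDegree_pow _ _).trans ?_
      have h2 : (wvP d c (j + 1) - wvP d c j).totalDegree ≤ 1 :=
        (totalDegree_sub _ _).trans (max_le (totalDegree_wvP_le _ _ _) (totalDegree_wvP_le _ _ _))
      calc 2 * n * (wvP d c (j + 1) - wvP d c j).totalDegree ≤ 2 * n * 1 :=
            Nat.mul_le_mul_left _ h2
        _ = 2 * n := mul_one _
    refine (Finset.sum_le_sum h1).trans ?_
    simp [mul_comm]
  · exact (isTop_aeval (isHomogeneous_X ℝ e) Q D hQ).totalDegree_le

theorem hlift_wvP {d c j : ℕ} (hcd : c ≤ d) (hj : j ≤ c + 1) :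
    hlift d (wvP d c j) = X (vtx d c j) - X 0 + C (if j = c + 1 then (1 : ℝ) else 0) := by
  unfold wvP vtx
  by_cases h0 : j = 0
  · subst h0
    have h1 : ¬ (0 = c + 1) := by omega
    simp [h1]
  · by_cases h1 : j = c + 1
    · simp [h0, h1]
    · rw [if_neg h0, if_neg h1, if_neg (by tauto), if_neg h1]
      have h2 : (Fin.ofNat (d + 1) j).succ = Fin.ofNat (d + 2) (j + 1) := by
        apply Fin.ext
        simp only [Fin.val_succ, Fin.ofNat]
        rw [Nat.mod_eq_of_lt (by omega), Nat.mod_eq_of_lt (by omega)]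
      rw [hlift, aeval_X, h2]
      simp

theorem hlift_aeval {d : ℕ} (e : Fin (d + 1)) (Q : Polynomial ℝ) :
    hlift d (Polynomial.aeval (X e) Q) = Polynomial.aeval (X e.succ - X 0) Q := by
  have h := Polynomial.aeval_algHom_apply (hlift d) (X e) Q
  rw [hlift, aeval_X] at h
  exact h.symm

theorem isTop_hlift_seedP {n d c D : ℕ} (hcd : c ≤ d) (e : Fin (d + 1)) (Q : Polynomial ℝ)
    (hQ : Q.natDegree ≤ D) :
    IsTop (2 * n * (c + 1) + D) (hlift d (seedP n d c e Q))
      (cyc n d c * (C (Q.coeff D) * (X e.succ - X 0) ^ D)) := by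
  unfold seedP
  rw [map_mul, hlift_aeval, map_prod]
  refine IsTop.mul ?_ ?_
  · have h1 : ∀ j ∈ Finset.range (c + 1),
        IsTop (2 * n) (hlift d ((wvP d c (j + 1) - wvP d c j) ^ (2 * n)))
          ((X (vtx d c (j + 1)) - X (vtx d c j)) ^ (2 * n)) := by
      intro j hj
      have hj' : j < c + 1 := Finset.mem_range.1 hj
      rw [map_pow, map_sub, hlift_wvP hcd (by omega), hlift_wvP hcd (by omega)]
      have h2 : (X (vtx d c (j + 1)) - X 0 + C (if j + 1 = c + 1 then (1 : ℝ) else 0) -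
          (X (vtx d c j) - X 0 + C (if j = c + 1 then (1 : ℝ) else 0)) :
            MvPolynomial (Fin (d + 2)) ℝ) =
          (X (vtx d c (j + 1)) - X (vtx d c j)) + C (if j + 1 = c + 1 then (1 : ℝ) else 0) := by
        rw [if_neg (by omega : ¬ j = c + 1), C_0]
        ring
      rw [h2]
      have h3 := (isTop_add_C (((isHomogeneous_X ℝ (vtx d c (j + 1))).sub
        (isHomogeneous_X ℝ (vtx d c j)))) (if j + 1 = c + 1 then (1 : ℝ) else 0)).pow (2 * n)
      rwa [one_mul] at h3
    have h4 := IsTop.prod (Finset.range (c + 1)) h1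
    simp only [Finset.sum_const, Finset.card_range, smul_eq_mul] at h4
    rw [mul_comm (c + 1) (2 * n)] at h4
    exact h4
  · exact isTop_aeval ((isHomogeneous_X ℝ e.succ).sub (isHomogeneous_X ℝ 0)) Q D hQ

theorem psi_seedP {n d c D : ℕ} (hn : 1 ≤ n) (hcd : c ≤ d) (e : Fin (d + 1)) (Q : Polynomial ℝ)
    (hQ : Q.natDegree ≤ D) (hK : 2 * n * (c + 1) + D = Kdeg n d) :
    psi n d 0 (seedP n d c e Q) = Q.coeff D * Vval n d c e D := by
  have h1 := isTop_hlift_seedP (n := n) hcd e Q hQ
  rw [hK] at h1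
  have hL : (Lpoly n d (Fin.succ 0) - Lpoly n d 0).IsHomogeneous (Kdeg n d) :=
    (Lpoly_isHomogeneous hn d _).sub (Lpoly_isHomogeneous hn d _)
  rw [psi, pair_of_isTop hL h1, Vval, ← pair_C_mul_right]
  congr 1
  ring

theorem wv_mid {d c : ℕ} {j : ℕ} (x : Fin (d + 1) → ℝ) (h0 : j ≠ 0) (h1 : j ≠ c + 1) :
    wv d c x j = x (Fin.ofNat (d + 1) j) := by
  rw [wv, if_neg h0, if_neg h1]

/-- the mesh does not cut the cells -/
theorem sign_wv {d c : ℕ} (hc : 1 ≤ c) (z : Fin (d + 1) → ℤ)
    (π : Equiv.Perm (Fin (d + 1))) {j : ℕ} (hj : j < c + 1) :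
    (∀ x ∈ kcell z π, 0 ≤ wv d c x (j + 1) - wv d c x j) ∨
      (∀ x ∈ kcell z π, wv d c x (j + 1) - wv d c x j ≤ 0) := by
  by_cases h0 : j = 0
  · subst h0
    have h1 : ∀ x : Fin (d + 1) → ℝ, wv d c x (0 + 1) - wv d c x 0 = x (Fin.ofNat (d + 1) 1) := by
      intro x
      rw [wv_mid x (by omega) (by omega), wv, if_pos rfl, sub_zero]
    simp only [h1]
    have h2 := sign_single z π (Fin.ofNat (d + 1) 1) 0
    simpa using h2
  · by_cases h1 : j = c
    · subst h1
      have h2 : ∀ x : Fin (d + 1) → ℝ, wv d j x (j + 1) - wv d j x j =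
          1 - x (Fin.ofNat (d + 1) j) := by
        intro x
        rw [wv_mid x h0 (by omega), wv, if_neg (by omega), if_pos rfl]
      simp only [h2]
      rcases sign_single z π (Fin.ofNat (d + 1) j) 1 with h3 | h3
      · right
        intro x hx
        have := h3 x hx
        push_cast at this
        linarith
      · left
        intro x hx
        have := h3 x hx
        push_cast at this
        linarith
    · have h2 : ∀ x : Fin (d + 1) → ℝ, wv d c x (j + 1) - wv d c x j =
          x (Fin.ofNat (d + 1) (j + 1)) - x (Fin.ofNat (d + 1) j) := by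
        intro x
        rw [wv_mid x h0 (by omega), wv_mid x (by omega) (by omega)]
      simp only [h2]
      have h3 := sign_diff z π (Fin.ofNat (d + 1) (j + 1)) (Fin.ofNat (d + 1) j) 0
      simpa using h3

theorem gseed_eq_eval {n d c : ℕ} (e : Fin (d + 1)) (q : ℝ → ℝ) (Q : ℤ → Polynomial ℝ)
    (hQ : ∀ κ : ℤ, ∀ t : ℝ, (κ : ℝ) ≤ t → t ≤ κ + 1 → q t = (Q κ).eval t)
    (z : Fin (d + 1) → ℤ) (π : Equiv.Perm (Fin (d + 1)))
    (h : ∀ j ∈ Finset.range (c + 1), ∀ x ∈ kcell z π, 0 ≤ wv d c x (j + 1) - wv d c x j)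
    (x : Fin (d + 1) → ℝ) (hx : x ∈ kcell z π) :
    gseed n d c e q x = eval x (seedP n d c e (Q (z e))) := by
  rw [eval_seedP, gseed]
  rw [hQ (z e) (x e) (hx.1 e).1 (hx.1 e).2]
  congr 1
  refine Finset.prod_congr rfl fun j hj => ?_
  rw [max_eq_left (h j hj x hx)]

theorem gseed_eq_zero {n d c : ℕ} (hn : 1 ≤ n) (e : Fin (d + 1)) (q : ℝ → ℝ)
    (x : Fin (d + 1) → ℝ) {j : ℕ} (hj : j ∈ Finset.range (c + 1))
    (h : wv d c x (j + 1) - wv d c x j ≤ 0) : gseed n d c e q x = 0 := by
  rw [gseed, Finset.prod_eq_zero hj, zero_mul]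
  rw [max_eq_right h]
  exact zero_pow (by omega)

theorem seed_general {n d c D : ℕ} (hn : 1 ≤ n) (hc : 1 ≤ c) (hcd : c ≤ d) (e : Fin (d + 1))
    (he : e ≠ 0) (q : ℝ → ℝ) (Q : ℤ → Polynomial ℝ)
    (hq : ContDiff ℝ ((2 * n - 1 : ℕ) : WithTop ℕ∞) q)
    (hQ : ∀ κ : ℤ, ∀ t : ℝ, (κ : ℝ) ≤ t → t ≤ κ + 1 → q t = (Q κ).eval t)
    (hdeg : ∀ κ, (Q κ).natDegree ≤ D) (hK : 2 * n * (c + 1) + D = Kdeg n d) (t₀ : ℝ)
    (ht₀ : 0 < t₀) (htop : ∀ κ, (Q κ).coeff D = 0 ∨ (Q κ).coeff D = t₀)
    (htop0 : (Q 0).coeff D = t₀)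
    (htube : ∀ i : Fin (d + 1), c < (i : ℕ) → i = e ∧ ∀ t : ℝ, 1 < |t| → q t = 0)
    (hV : Vval n d c e D ≠ 0) : SeedOK n d (gseed n d c e q) := by
  refine ⟨?_, ?_, Vval n d c e D, ?_, ?_⟩
  · -- smoothness
    have hw : ∀ j, ContDiff ℝ ((2 * n - 1 : ℕ) : WithTop ℕ∞)
        (fun x : Fin (d + 1) → ℝ => wv d c x j) := by
      intro j
      unfold wv
      split_ifs
      · exact contDiff_const
      · exact contDiff_const
      · exact contDiff_apply ℝ ℝ _
    have hm : ContDiff ℝ ((2 * n - 1 : ℕ) : WithTop ℕ∞) (fun t : ℝ => (max t 0) ^ (2 * n)) := by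
      have h := contDiff_max_pow (2 * n - 1)
      rwa [show 2 * n - 1 + 1 = 2 * n by omega] at h
    unfold gseed
    refine ContDiff.mul ?_ (hq.comp (contDiff_apply ℝ ℝ e))
    refine contDiff_prod fun j _ => ?_
    exact hm.comp ((hw (j + 1)).sub (hw j))
  · -- the tube
    rintro x ⟨i, hi0, hi1⟩
    by_cases hic : c < (i : ℕ)
    · obtain ⟨hie, hq0⟩ := htube i hic
      rw [gseed, ← hie, hq0 _ hi1, mul_zero]
    · by_cases hall : ∀ j ∈ Finset.range (c + 1), 0 < wv d c x (j + 1) - wv d c x j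
      · exfalso
        have hmono : ∀ m, ∀ j, j + m ≤ c + 1 → wv d c x j ≤ wv d c x (j + m) := by
          intro m
          induction m with
          | zero => intro j _; exact le_rfl
          | succ m ih =>
            intro j hj
            have h1 := ih j (by omega)
            have h2 := hall (j + m) (Finset.mem_range.2 (by omega))
            rw [← add_assoc]
            linarith
        have hi : (i : ℕ) ≠ 0 := by
          intro h
          exact hi0 (Fin.ext h)
        have h1 : wv d c x 0 = 0 := by simp [wv]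
        have h2 : wv d c x (c + 1) = 1 := by simp [wv]
        have h3 : wv d c x (i : ℕ) = x i := by
          rw [wv_mid x hi (by omega)]
          congr 1
          apply Fin.ext
          simp only [Fin.ofNat]
          exact Nat.mod_eq_of_lt i.2
        have h4 := hmono (i : ℕ) 0 (by omega)
        have h5 := hmono (c + 1 - (i : ℕ)) (i : ℕ) (by omega)
        rw [zero_add, h1, h3] at h4
        rw [show (i : ℕ) + (c + 1 - (i : ℕ)) = c + 1 by omega, h2, h3] at h5
        rw [abs_of_nonneg h4] at hi1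
        linarith
      · push Not at hall
        obtain ⟨j, hj, hj0⟩ := hall
        exact gseed_eq_zero hn e q x hj hj0
  · -- every cell
    intro z π
    by_cases hall : ∀ j ∈ Finset.range (c + 1), ∀ x ∈ kcell z π,
        0 ≤ wv d c x (j + 1) - wv d c x j
    · refine ⟨seedP n d c e (Q (z e)), ?_, gseed_eq_eval e q Q hQ z π hall, ?_⟩
      · rw [← hK]
        exact totalDegree_seedP_le n d c e _ D (hdeg _)
      · rw [psi_seedP hn hcd e _ (hdeg _) hK]
        have h1 : Vval n d c e D * ((Q (z e)).coeff D * Vval n d c e D) =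
            (Q (z e)).coeff D * (Vval n d c e D) ^ 2 := by ring
        rw [h1]
        refine mul_nonneg ?_ (sq_nonneg _)
        rcases htop (z e) with h | h
        · rw [h]
        · rw [h]
          exact ht₀.le
    · push Not at hall
      obtain ⟨j, hj, x0, hx0, hlt⟩ := hall
      refine ⟨0, by simp, fun x hx => ?_, by simp [psi_zero]⟩
      rw [map_zero]
      rcases sign_wv hc z π (Finset.mem_range.1 hj) with h | h
      · exact absurd (h x0 hx0) (not_le.2 hlt)
      · exact gseed_eq_zero hn e q x hj (h x hx)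
  · -- the strict one
    intro c'
    set z : Fin (d + 1) → ℤ := fun i => if i = 0 then c' else 0 with hz
    set π : Equiv.Perm (Fin (d + 1)) := Equiv.neg (Fin (d + 1)) with hπ
    have hπ0 : π 0 = 0 := by simp [hπ]
    have hz0 : z 0 = c' := by simp [hz]
    have hzi : ∀ i, i ≠ 0 → z i = 0 := by
      intro i hi
      simp [hz, hi]
    have hall : ∀ j ∈ Finset.range (c + 1), ∀ x ∈ kcell z π,
        0 ≤ wv d c x (j + 1) - wv d c x j := by
      intro j hj x hx
      have hj' : j < c + 1 := Finset.mem_range.1 hj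
      have hof : ∀ m : ℕ, m ≠ 0 → m ≤ c → (Fin.ofNat (d + 1) m) ≠ 0 := by
        intro m hm0 hmc h
        have := congrArg Fin.val h
        simp only [Fin.ofNat, Fin.val_zero] at this
        rw [Nat.mod_eq_of_lt (by omega)] at this
        exact hm0 this
      by_cases h0 : j = 0
      · subst h0
        have h1 : Fin.ofNat (d + 1) 1 ≠ 0 := hof 1 one_ne_zero hc
        have h2 := (hx.1 (Fin.ofNat (d + 1) 1)).1
        rw [hzi _ h1, Int.cast_zero] at h2
        rw [zero_add, wv_mid x (by omega) (by omega), wv, if_pos rfl, sub_zero]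
        exact h2
      · by_cases h1 : j = c
        · subst h1
          have h2 := (hx.1 (Fin.ofNat (d + 1) j)).2
          rw [hzi _ (hof j h0 le_rfl), Int.cast_zero, zero_add] at h2
          rw [wv_mid x h0 (by omega), wv, if_neg (by omega), if_pos rfl]
          linarith
        · rw [wv_mid x h0 (by omega), wv_mid x (by omega) (by omega)]
          -- the order of the coordinates
          have ha : j < d + 1 := by omega
          have hb : j + 1 < d + 1 := by omega
          have h3 := hx.2 (⟨d - j, by omega⟩ : Fin (d + 1)) (⟨d + 1 - j, by omega⟩) (by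
            rw [Fin.mk_le_mk]; omega)
          have h4 : π (⟨d - j, by omega⟩ : Fin (d + 1)) = Fin.ofNat (d + 1) (j + 1) := by
            apply Fin.ext
            simp only [hπ, Equiv.neg_apply, Fin.val_neg', Fin.ofNat]
            congr 1
            omega
          have h5 : π (⟨d + 1 - j, by omega⟩ : Fin (d + 1)) = Fin.ofNat (d + 1) j := by
            apply Fin.ext
            simp only [hπ, Equiv.neg_apply, Fin.val_neg', Fin.ofNat]
            congr 1
            omega
          rw [h4, h5, hzi _ (hof j h0 (by omega)), hzi _ (hof (j + 1) (by omega) (by omega)),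
            Int.cast_zero] at h3
          linarith
    refine ⟨z, π, seedP n d c e (Q (z e)), hz0, hzi, hπ0, ?_,
      gseed_eq_eval e q Q hQ z π hall, ?_⟩
    · rw [← hK]
      exact totalDegree_seedP_le n d c e _ D (hdeg _)
    · rw [psi_seedP hn hcd e _ (hdeg _) hK, hzi e he, htop0]
      have h1 : Vval n d c e D * (t₀ * Vval n d c e D) = t₀ * (Vval n d c e D) ^ 2 := by ring
      rw [h1]
      exact mul_pos ht₀ (by positivity)

end Pool.Agent.H84Spl
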