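import Pool.Agent.H84Spl.Def

/-! # The cyclic product and the value `V` -/

namespace Pool.Agent.H84Spl

open MvPolynomial

/-- The vertices `X_0, X_2, X_3, ..., X_{c+1}, X_0` of a cycle. -/
def vtx (d c j : ℕ) : Fin (d + 2) := if j = 0 ∨ j = c + 1 then 0 else Fin.ofNat (d + 2) (j + 1)

/-- The product over the edges of the cycle of the `2n`-th powers of the differences. -/
noncomputable def cyc (n d c : ℕ) : MvPolynomial (Fin (d + 2)) ℝ :=
  ∏ j ∈ Finset.range (c + 1), (X (vtx d c (j + 1)) - X (vtx d c j)) ^ (2 * n)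

/-- The value of the law on a seed cell. -/
noncomputable def Vval (n d c : ℕ) (e : Fin (d + 1)) (D : ℕ) : ℝ :=
  pair (Lpoly n d (Fin.succ 0) - Lpoly n d 0) (cyc n d c * (X e.succ - X 0) ^ D)

/-- The coordinates `0, x_1, ..., x_c, 1`. -/
noncomputable def wv (d c : ℕ) (x : Fin (d + 1) → ℝ) (j : ℕ) : ℝ :=
  if j = 0 then 0 else if j = c + 1 then 1 else x (Fin.ofNat (d + 1) j)

/-- The seed function. -/
noncomputable def gseed (n d c : ℕ) (e : Fin (d + 1)) (q : ℝ → ℝ) (x : Fin (d + 1) → ℝ) : ℝ :=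
  (∏ j ∈ Finset.range (c + 1), (max (wv d c x (j + 1) - wv d c x j) 0) ^ (2 * n)) * q (x e)

end Pool.Agent.H84Spl
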